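import Mathlib
import Pool.Agent.Y887.QE.QSv

/-!
Base points for all admissible quadratic polynomials and all residue classes: the fixed factor of the
values has boundedly many prime factors, the bound being absolute.
-/

set_option autoImplicit false

namespace Pool.Agent.Y887.QKG

open Finset Filter Pool.Agent.Y887.QE

/-- the value of the polynomial -/
def gq (α β γ n : ℤ) : ℤ := α * n ^ 2 + β * n + γ

theorem local_class {α β γ : ℤ}
    (h1 : ∀ p : ℕ, p.Prime → ¬ ((p : ℤ) ∣ α ∧ (p : ℤ) ∣ β ∧ (p : ℤ) ∣ γ))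
    (h2 : ¬ (2 ∣ α + β ∧ 2 ∣ γ)) {p : ℕ} (hp : p.Prime) : ∃ a : ℕ, ¬ (p : ℤ) ∣ gq α β γ a := by
  by_contra hcon
  push Not at hcon
  have e0 := hcon 0
  have e1 := hcon 1
  have e2 := hcon 2
  unfold gq at e0 e1 e2
  push_cast at e0 e1 e2
  have hγ : (p : ℤ) ∣ γ := by simpa using e0
  have hab : (p : ℤ) ∣ α + β := by
    have h3 := dvd_sub e1 hγ
    have e : α * 1 + β * 1 + γ - γ = α + β := by ring
    rwa [e] at h3
  by_cases hp2 : p = 2
  · subst hp2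
    exact h2 ⟨by exact_mod_cast hab, by exact_mod_cast hγ⟩
  · have h2α : (p : ℤ) ∣ 2 * α := by
      have h3 := dvd_sub e2 (dvd_add hγ (hab.mul_left 2))
      have e : α * 4 + β * 2 + γ - (γ + 2 * (α + β)) = 2 * α := by ring
      rwa [e] at h3
    have hα : (p : ℤ) ∣ α := by
      rcases Int.Prime.dvd_mul' hp h2α with h | h
      · exfalso
        have h4 : p ∣ 2 := by exact_mod_cast h
        exact hp2 ((Nat.prime_dvd_prime_iff_eq hp Nat.prime_two).1 h4)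
      · exact h
    exact h1 p hp ⟨hα, (dvd_add_right hα).1 hab, hγ⟩

theorem gq_sub {α β γ d x y : ℤ} (h : d ∣ x - y) : d ∣ gq α β γ x - gq α β γ y := by
  unfold gq
  have e : α * x ^ 2 + β * x + γ - (α * y ^ 2 + β * y + γ) = (x - y) * (α * (x + y) + β) := by
    ring
  rw [e]
  exact h.mul_right _

theorem gq_dvd {α β γ d x y : ℤ} (h : d ∣ x - y) (hx : d ∣ gq α β γ x) : d ∣ gq α β γ y := by
  have h1 := dvd_sub hx (gq_sub (α := α) (β := β) (γ := γ) h)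
  rwa [sub_sub_cancel] at h1

theorem exists_n0 {α β γ : ℤ}
    (h1 : ∀ p : ℕ, p.Prime → ¬ ((p : ℤ) ∣ α ∧ (p : ℤ) ∣ β ∧ (p : ℤ) ∣ γ))
    (h2 : ¬ (2 ∣ α + β ∧ 2 ∣ γ)) {q : ℕ} {t : ℤ} (hq : 0 < q)
    (hc : IsCoprime (gq α β γ t) (q : ℤ)) {w : ℕ} (hw : 0 < w) (B : ℕ) :
    ∃ n0 : ℕ, B ≤ n0 ∧ (q : ℤ) ∣ (n0 : ℤ) - t ∧
      ∀ p : ℕ, p.Prime → p ∣ w → ¬ (p : ℤ) ∣ gq α β γ n0 := by
  classical
  obtain ⟨t0, ht0⟩ : ∃ t0 : ℕ, (q : ℤ) ∣ (t0 : ℤ) - t := by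
    refine ⟨(t % q).toNat, ?_⟩
    rw [Int.toNat_of_nonneg (Int.emod_nonneg _ (by exact_mod_cast hq.ne'))]
    refine ⟨-(t / q), ?_⟩
    have := Int.emod_add_mul_ediv t q
    linarith
  choose a ha using fun p : {p : ℕ // p.Prime} => local_class h1 h2 p.2
  obtain ⟨P, hP⟩ : ∃ P : Finset ℕ, P = w.primeFactors.filter (fun p => ¬ p ∣ q) := ⟨_, rfl⟩
  have hPp : ∀ p ∈ P, p.Prime := by
    intro p hp
    rw [hP, mem_filter] at hp
    exact Nat.prime_of_mem_primeFactors hp.1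
  obtain ⟨x, hx⟩ := Nat.chineseRemainderOfFinset
    (fun p => if hp : p.Prime then a ⟨p, hp⟩ else 0) (fun p => p) P
    (fun p hp => (hPp p hp).ne_zero)
    (fun p hp p' hp' hne => (Nat.coprime_primes (hPp p hp) (hPp p' hp')).2 hne)
  have hcop : Nat.Coprime q (∏ p ∈ P, p) := by
    apply Nat.Coprime.prod_right
    intro p hp
    have h3 := hPp p hp
    rw [hP, mem_filter] at hp
    exact ((Nat.Prime.coprime_iff_not_dvd h3).2 hp.2).symm
  obtain ⟨n, hn1, hn2⟩ := Nat.chineseRemainder hcop t0 x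
  have hprod : 0 < ∏ p ∈ P, p := prod_pos fun p hp => (hPp p hp).pos
  obtain ⟨W, hW⟩ : ∃ W : ℕ, W = q * ∏ p ∈ P, p := ⟨_, rfl⟩
  have hW0 : 1 ≤ W := by
    rw [hW]
    exact Nat.mul_pos hq hprod
  refine ⟨n + W * B, ?_, ?_, ?_⟩
  · have := Nat.mul_le_mul_right B hW0
    omega
  · have h3 : (q : ℤ) ∣ (n : ℤ) - t0 := (Nat.modEq_iff_dvd).1 hn1.symm
    have h4 : (q : ℤ) ∣ ((W * B : ℕ) : ℤ) := by
      have : q ∣ W * B := (hW ▸ dvd_mul_right q _ : q ∣ W).mul_right B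
      exact_mod_cast this
    have e : ((n + W * B : ℕ) : ℤ) - t = ((n : ℤ) - t0) + ((t0 : ℤ) - t) + ((W * B : ℕ) : ℤ) := by
      push_cast
      ring
    rw [e]
    exact dvd_add (dvd_add h3 ht0) h4
  · intro p hp hpw hdv
    by_cases hpq : p ∣ q
    · -- the residue class
      have h3 : (p : ℤ) ∣ ((n + W * B : ℕ) : ℤ) - t := by
        have h5 : (p : ℤ) ∣ (q : ℤ) := by exact_mod_cast hpq
        refine h5.trans ?_
        have h6 : (q : ℤ) ∣ (n : ℤ) - t0 := (Nat.modEq_iff_dvd).1 hn1.symm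
        have h4 : (q : ℤ) ∣ ((W * B : ℕ) : ℤ) := by
          have : q ∣ W * B := (hW ▸ dvd_mul_right q _ : q ∣ W).mul_right B
          exact_mod_cast this
        have e : ((n + W * B : ℕ) : ℤ) - t =
            ((n : ℤ) - t0) + ((t0 : ℤ) - t) + ((W * B : ℕ) : ℤ) := by
          push_cast
          ring
        rw [e]
        exact dvd_add (dvd_add h6 ht0) h4
      have h4 := gq_dvd h3 hdv
      obtain ⟨r, s, hrs⟩ := hc
      have h5 : (p : ℤ) ∣ 1 := by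
        rw [← hrs]
        exact dvd_add (h4.mul_left _) ((by exact_mod_cast hpq : (p : ℤ) ∣ (q : ℤ)).mul_left _)
      have h6 : p ∣ 1 := by exact_mod_cast h5
      exact hp.one_lt.ne' (Nat.dvd_one.1 h6)
    · have hpP : p ∈ P := by
        rw [hP, mem_filter]
        exact ⟨Nat.mem_primeFactors.2 ⟨hp, hpw, hw.ne'⟩, hpq⟩
      have h3 := hx p hpP
      simp only [dif_pos hp] at h3
      have hpd : p ∣ ∏ p ∈ P, p := dvd_prod_of_mem _ hpP
      have h4 : n ≡ a ⟨p, hp⟩ [MOD p] := (hn2.of_dvd hpd).trans h3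
      have h5 : n + W * B ≡ a ⟨p, hp⟩ [MOD p] := by
        have h6 : W * B ≡ 0 [MOD p] := (Nat.modEq_zero_iff_dvd).2
          ((hW ▸ hpd.mul_left q : p ∣ W).mul_right B)
        simpa using h4.add h6
      have h6 : (p : ℤ) ∣ ((n + W * B : ℕ) : ℤ) - (a ⟨p, hp⟩ : ℕ) :=
        (Nat.modEq_iff_dvd).1 h5.symm
      exact ha ⟨p, hp⟩ (gq_dvd h6 hdv)

/-- the base points -/
theorem base_general : ∃ R : ℕ, ∀ α β γ : ℤ, 0 < α → ¬ IsSquare (β ^ 2 - 4 * α * γ) →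
    (∀ p : ℕ, p.Prime → ¬ ((p : ℤ) ∣ α ∧ (p : ℤ) ∣ β ∧ (p : ℤ) ∣ γ)) →
    ¬ (2 ∣ α + β ∧ 2 ∣ γ) → ∀ (q : ℕ) (t : ℤ), 0 < q → IsCoprime (gq α β γ t) (q : ℤ) →
    ∀ M : ℕ, ∃ (w w1 tt S : ℕ) (n' : ℤ), 0 < w1 ∧ (w : ℤ) = 2 * α * w1 ∧ (q : ℤ) ∣ w1 ∧
      (tt : ℤ) = 2 * α * n' + β ∧ (q : ℤ) ∣ n' - t ∧
      ((vq ((β ^ 2 - 4 * α * γ) * (w : ℤ) ^ 2) (w * tt + 1) *
        vq ((β ^ 2 - 4 * α * γ) * (w : ℤ) ^ 2) (w * tt) : ℕ) : ℤ) = 4 * α * (w : ℤ) ^ 2 * S ∧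
      Squarefree S ∧ S.primeFactors.card ≤ R ∧ ∀ p : ℕ, p.Prime → p ∣ S → M < p := by
  classical
  obtain ⟨C1, -, hS⟩ := quad_sieve
  obtain ⟨K, -, hS⟩ := hS 2 (by norm_num)
  refine ⟨2 * (C1 * (Nat.log 2 2 + 1)), ?_⟩
  intro α β γ hα hD h1 h2 q t hq hc M
  obtain ⟨D, hDdef⟩ : ∃ D : ℤ, D = β ^ 2 - 4 * α * γ := ⟨_, rfl⟩
  rw [← hDdef] at hD ⊢
  obtain ⟨a, ha⟩ : ∃ a : ℕ, (a : ℤ) = α := ⟨α.toNat, Int.toNat_of_nonneg hα.le⟩
  have ha0 : 0 < a := by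
    rw [← ha] at hα
    exact_mod_cast hα
  obtain ⟨w1, hw1⟩ : ∃ w1 : ℕ, w1 = q * (210 * M.factorial) := ⟨_, rfl⟩
  have hw10 : 0 < w1 := by
    rw [hw1]
    have := M.factorial_pos
    positivity
  obtain ⟨w, hw⟩ : ∃ w : ℕ, w = 2 * a * w1 := ⟨_, rfl⟩
  have hw0 : 0 < w := by
    rw [hw]
    positivity
  obtain ⟨n0, hn0B, hn0t, hn0w⟩ := exists_n0 h1 h2 hq hc hw0 β.natAbs
  -- the argument
  obtain ⟨tf, htf⟩ : ∃ tf : ℕ → ℕ, ∀ m, ((tf m : ℕ) : ℤ) = 2 * α * (n0 + w * m) + β := by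
    have h3 : ∀ m : ℕ, 0 ≤ 2 * α * ((n0 : ℤ) + w * m) + β := by
      intro m
      have h4 : (β.natAbs : ℤ) ≤ n0 := by exact_mod_cast hn0B
      rw [Int.natCast_natAbs] at h4
      have h5 := neg_abs_le β
      have h6 : (0 : ℤ) ≤ (w : ℤ) * m := by positivity
      have h7 : (1 : ℤ) ≤ α := hα
      have h8 : (0 : ℤ) ≤ n0 := Int.natCast_nonneg _
      nlinarith
    exact ⟨fun m => (2 * α * ((n0 : ℤ) + w * m) + β).toNat, fun m => Int.toNat_of_nonneg (h3 m)⟩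
  obtain ⟨Q, hQ⟩ : ∃ Q : ℕ, Q = 2 * a * w ^ 2 := ⟨_, rfl⟩
  have hQ0 : 0 < Q := by
    rw [hQ]
    positivity
  have hx : ∀ m, w * tf m = Q * m + w * tf 0 := by
    intro m
    have h3 : ((w * tf m : ℕ) : ℤ) = ((Q * m + w * tf 0 : ℕ) : ℤ) := by
      push_cast
      rw [htf, htf, hQ, ← ha]
      push_cast
      ring
    exact_mod_cast h3
  obtain ⟨D', hD'⟩ : ∃ D' : ℤ, D' = D * (w : ℤ) ^ 2 := ⟨_, rfl⟩
  have hwz : (w : ℤ) ≠ 0 := by exact_mod_cast hw0.ne'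
  have hD'sq : ¬ IsSquare D' := by
    rintro ⟨y, hy⟩
    have h3 : (w : ℤ) ^ 2 ∣ y ^ 2 := ⟨D, by rw [sq y, ← hy, hD']; ring⟩
    obtain ⟨z, hz⟩ := (Int.pow_dvd_pow_iff (by norm_num)).1 h3
    apply hD
    refine ⟨z, ?_⟩
    have h4 : (w : ℤ) ^ 2 * D = (w : ℤ) ^ 2 * (z * z) := by
      rw [mul_comm ((w : ℤ) ^ 2) D, ← hD', hy, hz]
      ring
    exact mul_left_cancel₀ (pow_ne_zero 2 hwz) h4
  -- the first values
  have hg : ∀ m : ℕ, ((vq D' (w * tf m) : ℕ) : ℤ) =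
      4 * α * (w : ℤ) ^ 2 * |gq α β γ ((n0 : ℤ) + w * m)| := by
    intro m
    unfold vq
    rw [Int.natCast_natAbs]
    have e : ((w * tf m : ℕ) : ℤ) ^ 2 - D' =
        (4 * α * (w : ℤ) ^ 2) * gq α β γ ((n0 : ℤ) + w * m) := by
      push_cast
      rw [htf, hD', hDdef]
      unfold gq
      ring
    rw [e, abs_mul, abs_of_pos (by positivity)]
  have hgN : ∀ m : ℕ, vq D' (w * tf m) =
      4 * a * w ^ 2 * (gq α β γ ((n0 : ℤ) + w * m)).natAbs := by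
    intro m
    have h3 := hg m
    have h4 : ((vq D' (w * tf m) : ℕ) : ℤ) =
        ((4 * a * w ^ 2 * (gq α β γ ((n0 : ℤ) + w * m)).natAbs : ℕ) : ℤ) := by
      rw [h3]
      push_cast
      rw [ha]
    exact_mod_cast h4
  have hcpos : 0 < 4 * a * w ^ 2 := by positivity
  have hgw : ∀ m : ℕ, ∀ p : ℕ, p.Prime → p ∣ w →
      ¬ p ∣ (gq α β γ ((n0 : ℤ) + w * m)).natAbs := by
    intro m p hp hpw hdv
    have h3 : (p : ℤ) ∣ gq α β γ ((n0 : ℤ) + w * m) := Int.natCast_dvd.2 hdv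
    refine hn0w p hp hpw (gq_dvd (x := (n0 : ℤ) + w * m) (y := (n0 : ℤ)) ?_ h3)
    rw [add_sub_cancel_left]
    exact (by exact_mod_cast hpw : (p : ℤ) ∣ (w : ℤ)).mul_right _
  have hQw : ∀ p : ℕ, p.Prime → p ∣ Q → p ∣ w := by
    intro p hp hpQ
    rw [hQ] at hpQ
    rcases (Nat.Prime.dvd_mul hp).1 hpQ with h | h
    · rw [hw]
      exact h.mul_right _
    · exact hp.dvd_of_dvd_pow h
  have h1w : ∀ m : ℕ, ∀ p : ℕ, p.Prime → p ∣ w → ¬ p ∣ vq D' (w * tf m + 1) := by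
    intro m p hp hpw hdv
    rw [dvd_vq] at hdv
    have h3 : (p : ℤ) ∣ (w : ℤ) := by exact_mod_cast hpw
    have h4 : (p : ℤ) ∣ 1 := by
      have e : (1 : ℤ) = (((w * tf m + 1 : ℕ) : ℤ) ^ 2 - D') -
          (w : ℤ) * ((w : ℤ) * (tf m) ^ 2 + 2 * tf m - D * w) := by
        rw [hD']
        push_cast
        ring
      rw [e]
      exact dvd_sub hdv (h3.mul_right _)
    have h5 : p ∣ 1 := by exact_mod_cast h4
    exact hp.one_lt.ne' (Nat.dvd_one.1 h5)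
  have hev := hS (Fin 2) (by simp) (fun _ => D') Q ![w * tf 0, w * tf 0 + 1]
    ![4 * a * w ^ 2, 1] (fun _ => hD'sq) hQ0
    (by
      rw [Fin.forall_fin_two]
      refine ⟨fun m => ?_, fun m => ?_⟩
      · show 4 * a * w ^ 2 ∣ vq D' (Q * m + w * tf 0)
        rw [← hx, hgN]
        exact dvd_mul_right _ _
      · exact one_dvd _)
    (by
      rw [Fin.forall_fin_two]
      refine ⟨fun p hp hpd => ?_, fun p hp hpd => ?_⟩
      · change p ∣ 4 * a * w ^ 2 at hpd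
        rw [hQ]
        have e : 4 * a * w ^ 2 = 2 * (2 * a * w ^ 2) := by ring
        rw [e] at hpd
        rcases (Nat.Prime.dvd_mul hp).1 hpd with h | h
        · exact (h.mul_right a).mul_right _
        · exact h
      · exact absurd (Nat.dvd_one.1 hpd) hp.one_lt.ne')
    (by
      rw [Fin.forall_fin_two]
      refine ⟨fun m p hp hpQ => ?_, fun m p hp hpQ => ?_⟩
      · show ¬ p ∣ vq D' (Q * m + w * tf 0) / (4 * a * w ^ 2)
        rw [← hx, hgN, Nat.mul_div_cancel_left _ hcpos]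
        exact hgw m p hp (hQw p hp hpQ)
      · show ¬ p ∣ vq D' (Q * m + (w * tf 0 + 1)) / 1
        rw [← add_assoc, ← hx, Nat.div_one]
        exact h1w m p hp (hQw p hp hpQ))
    (fun p hp hle => by
      have h3 : p ≤ 8 := by omega
      have h4 : p ∣ 210 := by
        interval_cases p <;> first | (exfalso; revert hp; norm_num; done) | norm_num
      have h5 : p ∣ w := by
        rw [hw, hw1]
        exact ((h4.mul_right _).mul_left q).mul_left _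
      rw [hQ]
      exact (h5.trans (dvd_pow_self w (by norm_num))).mul_left _)
  obtain ⟨X, hX, hX3, hXD⟩ := (hev.and ((eventually_ge_atTop 3).and
    (eventually_ge_atTop ((1 - 4 * D').natAbs ^ K)))).exists
  have h3 : (3 : ℝ) ≤ X := by exact_mod_cast hX3
  have h4 : 0 < Real.log X := Real.log_pos (by linarith)
  have h5 : (0 : ℝ) < (X : ℝ) / Real.log X ^ K := by positivity
  have h6 := Nat.cast_pos.1 (h5.trans_le hX)
  obtain ⟨m, hm⟩ := Finset.card_pos.1 h6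
  obtain ⟨-, hsq, hsum, hrough⟩ := (@Finset.mem_filter _ _ (_) _ _).1 hm
  rw [Fin.forall_fin_two] at hsq hrough
  rw [Fin.sum_univ_two] at hsum
  obtain ⟨S0, hS0⟩ : ∃ S0 : ℕ, S0 = (gq α β γ ((n0 : ℤ) + w * m)).natAbs := ⟨_, rfl⟩
  obtain ⟨S1, hS1⟩ : ∃ S1 : ℕ, S1 = vq D' (w * tf m + 1) := ⟨_, rfl⟩
  have e0 : vq D' (Q * m + w * tf 0) / (4 * a * w ^ 2) = S0 := by
    rw [← hx, hgN, Nat.mul_div_cancel_left _ hcpos, hS0]
  have e1 : vq D' (Q * m + (w * tf 0 + 1)) / 1 = S1 := by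
    rw [← add_assoc, ← hx, Nat.div_one, hS1]
  change Squarefree (vq D' (Q * m + w * tf 0) / (4 * a * w ^ 2)) ∧
    Squarefree (vq D' (Q * m + (w * tf 0 + 1)) / 1) at hsq
  change (∀ p : ℕ, p.Prime → p ∣ vq D' (Q * m + w * tf 0) / (4 * a * w ^ 2) → X < p ^ K) ∧
    (∀ p : ℕ, p.Prime → p ∣ vq D' (Q * m + (w * tf 0 + 1)) / 1 → X < p ^ K) at hrough
  change (vq D' (Q * m + w * tf 0) / (4 * a * w ^ 2)).primeFactors.card +
    (vq D' (Q * m + (w * tf 0 + 1)) / 1).primeFactors.card ≤ _ at hsum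
  rw [e0, e1] at hsq hrough hsum
  have hDne : (1 - 4 * D').natAbs ≠ 0 := by
    rw [Int.natAbs_ne_zero]
    omega
  have hcop : S1.Coprime S0 := by
    by_contra hne
    obtain ⟨p, hp, hpa, hpb⟩ := Nat.Prime.not_coprime_iff_dvd.1 hne
    have h7 := hrough.1 p hp hpb
    have h8 : (p : ℤ) ∣ ((w * tf m : ℕ) : ℤ) ^ 2 - D' := by
      rw [← dvd_vq, hgN, ← hS0]
      exact hpb.mul_left _
    have h9 : (p : ℤ) ∣ ((w * tf m + 1 : ℕ) : ℤ) ^ 2 - D' := by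
      rw [← dvd_vq, ← hS1]
      exact hpa
    have h10 : (p : ℤ) ∣ 1 - 4 * D' := by
      obtain ⟨y, hy⟩ : ∃ y : ℤ, y = ((w * tf m : ℕ) : ℤ) := ⟨_, rfl⟩
      have hy1 : ((w * tf m + 1 : ℕ) : ℤ) = y + 1 := by
        rw [hy]
        push_cast
        ring
      rw [← hy] at h8
      rw [hy1] at h9
      obtain ⟨k1, hk1⟩ := h8
      obtain ⟨k2, hk2⟩ := h9
      refine ⟨4 * k1 - (k2 - k1) * (2 * y - 1), ?_⟩
      linear_combination (4 + (2 * y - 1)) * hk1 - (2 * y - 1) * hk2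
    have h11 : p ∣ (1 - 4 * D').natAbs := Int.natCast_dvd.1 h10
    have h12 := Nat.le_of_dvd (Nat.pos_of_ne_zero hDne) h11
    have h13 := Nat.pow_le_pow_left h12 K
    omega
  refine ⟨w, w1, tf m, S1 * S0, (n0 : ℤ) + w * m, hw10, ?_, ?_, htf m, ?_, ?_, ?_, ?_, ?_⟩
  · rw [hw]
    push_cast
    rw [ha]
  · rw [hw1]
    push_cast
    exact dvd_mul_right _ _
  · have h7 : (q : ℤ) ∣ (w : ℤ) := by
      rw [hw, hw1]
      push_cast
      exact (dvd_mul_right _ _).mul_left _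
    have e : (n0 : ℤ) + w * m - t = ((n0 : ℤ) - t) + w * m := by ring
    rw [e]
    exact dvd_add hn0t (h7.mul_right _)
  · rw [← hD', ← hS1, hgN, ← hS0]
    push_cast
    rw [ha]
    ring
  · exact (Nat.squarefree_mul hcop).2 ⟨hsq.2, hsq.1⟩
  · rw [Nat.Coprime.primeFactors_mul hcop]
    refine (card_union_le _ _).trans ?_
    omega
  · intro p hp hpd
    by_contra hle
    push Not at hle
    have h7 : p ∣ w := by
      rw [hw, hw1]
      exact ((((Nat.Prime.dvd_factorial hp).2 hle).mul_left 210).mul_left q).mul_left _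
    rcases (Nat.Prime.dvd_mul hp).1 hpd with h | h
    · exact h1w m p hp h7 (hS1 ▸ h)
    · exact hgw m p hp h7 (hS0 ▸ h)

end Pool.Agent.Y887.QKG
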