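import Mathlib
import Pool.Agent.Y887.QE.QSv

/-!
A base point `y0` for which `(y0 ^ 2 - D) * ((y0 + 1) ^ 2 - D)` has boundedly many prime factors,
the bound being independent of `D`.
-/

set_option autoImplicit false

namespace Pool.Agent.Y887.QKF

open Finset Filter Pool.Agent.Y887.QE

theorem vq_zmod {D : ℤ} {q x : ℕ} : q ∣ vq D x ↔ ((x : ZMod q)) ^ 2 - (D : ZMod q) = 0 := by
  rw [dvd_vq, ← ZMod.intCast_zmod_eq_zero_iff_dvd]
  push_cast
  rfl

set_option maxRecDepth 100000 in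
theorem base_class (D : ℤ) : ∃ u : ℕ, ∀ q ∈ ({16, 9, 5, 7} : Finset ℕ),
    ¬ q ∣ vq D u ∧ ¬ q ∣ vq D (u + 1) := by
  have h16 : ∀ D : ZMod 16, ∃ a : ZMod 16, a ^ 2 - D ≠ 0 ∧ (a + 1) ^ 2 - D ≠ 0 := by decide
  have h9 : ∀ D : ZMod 9, ∃ a : ZMod 9, a ^ 2 - D ≠ 0 ∧ (a + 1) ^ 2 - D ≠ 0 := by decide
  have h5 : ∀ D : ZMod 5, ∃ a : ZMod 5, a ^ 2 - D ≠ 0 ∧ (a + 1) ^ 2 - D ≠ 0 := by decide
  have h7 : ∀ D : ZMod 7, ∃ a : ZMod 7, a ^ 2 - D ≠ 0 ∧ (a + 1) ^ 2 - D ≠ 0 := by decide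
  obtain ⟨a, ha⟩ := h16 D
  obtain ⟨b, hb⟩ := h9 D
  obtain ⟨c, hc⟩ := h5 D
  obtain ⟨d, hd⟩ := h7 D
  refine ⟨945 * a.val + 2800 * b.val + 2016 * c.val + 4320 * d.val, ?_⟩
  intro q hq
  simp only [mem_insert, mem_singleton] at hq
  rw [vq_zmod, vq_zmod]
  rcases hq with rfl | rfl | rfl | rfl
  · have e : ((945 * a.val + 2800 * b.val + 2016 * c.val + 4320 * d.val : ℕ) : ZMod 16) = a := by
      push_cast
      rw [ZMod.natCast_zmod_val, show (945 : ZMod 16) = 1 by decide,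
        show (2800 : ZMod 16) = 0 by decide, show (2016 : ZMod 16) = 0 by decide,
        show (4320 : ZMod 16) = 0 by decide]
      ring
    rw [Nat.cast_add_one, e]
    exact ha
  · have e : ((945 * a.val + 2800 * b.val + 2016 * c.val + 4320 * d.val : ℕ) : ZMod 9) = b := by
      push_cast
      rw [ZMod.natCast_zmod_val, show (945 : ZMod 9) = 0 by decide,
        show (2800 : ZMod 9) = 1 by decide, show (2016 : ZMod 9) = 0 by decide,
        show (4320 : ZMod 9) = 0 by decide]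
      ring
    rw [Nat.cast_add_one, e]
    exact hb
  · have e : ((945 * a.val + 2800 * b.val + 2016 * c.val + 4320 * d.val : ℕ) : ZMod 5) = c := by
      push_cast
      rw [ZMod.natCast_zmod_val, show (945 : ZMod 5) = 0 by decide,
        show (2800 : ZMod 5) = 0 by decide, show (2016 : ZMod 5) = 1 by decide,
        show (4320 : ZMod 5) = 0 by decide]
      ring
    rw [Nat.cast_add_one, e]
    exact hc
  · have e : ((945 * a.val + 2800 * b.val + 2016 * c.val + 4320 * d.val : ℕ) : ZMod 7) = d := by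
      push_cast
      rw [ZMod.natCast_zmod_val, show (945 : ZMod 7) = 0 by decide,
        show (2800 : ZMod 7) = 0 by decide, show (2016 : ZMod 7) = 0 by decide,
        show (4320 : ZMod 7) = 1 by decide]
      ring
    rw [Nat.cast_add_one, e]
    exact hd

/-- the part of `V` with the primes up to `7`, when the powers are small -/
theorem gcd_part {V : ℕ} (hV : 0 < V) (h16 : ¬ 16 ∣ V) (h9 : ¬ 9 ∣ V) (h5 : ¬ 5 ∣ V)
    (h7 : ¬ 7 ∣ V) : (V.gcd 5040 ∣ 24) ∧ ∀ p : ℕ, p.Prime → p ∣ 5040 → ¬ p ∣ V / V.gcd 5040 := by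
  obtain ⟨g, hg⟩ : ∃ g : ℕ, g = V.gcd 5040 := ⟨_, rfl⟩
  have hgV : g ∣ V := by rw [hg]; exact Nat.gcd_dvd_left _ _
  have hgQ : g ∣ 5040 := by rw [hg]; exact Nat.gcd_dvd_right _ _
  have hg0 : 0 < g := Nat.pos_of_dvd_of_pos hgV hV
  have hle : g ≤ 5040 := Nat.le_of_dvd (by norm_num) hgQ
  have k16 : ¬ 16 ∣ g := fun h => h16 (h.trans hgV)
  have k9 : ¬ 9 ∣ g := fun h => h9 (h.trans hgV)
  have k5 : ¬ 5 ∣ g := fun h => h5 (h.trans hgV)
  have k7 : ¬ 7 ∣ g := fun h => h7 (h.trans hgV)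
  rw [← hg]
  constructor
  · have h1 : Nat.Coprime g 35 := by
      rw [show (35 : ℕ) = 5 * 7 by norm_num]
      exact Nat.Coprime.mul_right
        (((Nat.Prime.coprime_iff_not_dvd (by norm_num)).2 k5).symm)
        (((Nat.Prime.coprime_iff_not_dvd (by norm_num)).2 k7).symm)
    have h2 : g ∣ 144 := h1.dvd_of_dvd_mul_right (by
      rw [show (144 : ℕ) * 35 = 5040 by norm_num]
      exact hgQ)
    have h3 : g ∈ Nat.divisors 144 := Nat.mem_divisors.2 ⟨h2, by norm_num⟩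
    have h4 : ∀ x ∈ Nat.divisors 144, ¬ 16 ∣ x → ¬ 9 ∣ x → x ∣ 24 := by decide
    exact h4 g h3 k16 k9
  · have hco : Nat.Coprime (V / g) (5040 / g) := by
      rw [hg]
      exact Nat.coprime_div_gcd_div_gcd (by rw [← hg]; exact hg0)
    obtain ⟨e, he⟩ := hgQ
    have he' : 5040 / g = e := by rw [he]; exact Nat.mul_div_cancel_left _ hg0
    rw [he'] at hco
    intro p hp hpQ hpV
    have hpe : ¬ p ∣ e := fun h => by
      have := Nat.dvd_gcd hpV h
      rw [hco] at this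
      exact hp.one_lt.ne' (Nat.dvd_one.1 this)
    have h1 : p ∈ ({2, 3, 5, 7} : Finset ℕ) := by
      have h2 : p ∈ Nat.primeFactors 5040 := Nat.mem_primeFactors.2 ⟨hp, hpQ, by norm_num⟩
      have h3 : Nat.primeFactors 5040 = {2, 3, 5, 7} := by
        rw [show (5040 : ℕ) = 2 ^ 4 * 3 ^ 2 * 5 * 7 by norm_num]
        rw [Nat.primeFactors_mul (by norm_num) (by norm_num),
          Nat.primeFactors_mul (by norm_num) (by norm_num),
          Nat.primeFactors_mul (by norm_num) (by norm_num),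
          Nat.primeFactors_prime_pow (by norm_num) Nat.prime_two,
          Nat.primeFactors_prime_pow (by norm_num) Nat.prime_three,
          Nat.Prime.primeFactors (by norm_num), Nat.Prime.primeFactors (by norm_num)]
        rfl
      rwa [h3] at h2
    simp only [mem_insert, mem_singleton] at h1
    have key : ∀ k : ℕ, p ^ k ∣ 5040 → p ^ k ∣ g := fun k hk =>
      (Nat.Coprime.pow_left k ((Nat.Prime.coprime_iff_not_dvd hp).2 hpe)).dvd_of_dvd_mul_right
        (by rwa [← he])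
    rcases h1 with rfl | rfl | rfl | rfl
    · exact k16 (key 4 (by norm_num))
    · exact k9 (key 2 (by norm_num))
    · exact k5 (by simpa using key 1 (by norm_num))
    · exact k7 (by simpa using key 1 (by norm_num))

/-- the base point -/
theorem base_point : ∃ R : ℕ, ∀ D : ℤ, ¬ IsSquare D → ∃ y0 d S : ℕ,
    vq D (y0 + 1) * vq D y0 = d * S ∧ d ∣ 576 ∧ Squarefree S ∧ S.primeFactors.card ≤ R ∧
      d.Coprime S := by
  classical
  obtain ⟨C1, -, hS⟩ := quad_sieve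
  obtain ⟨K, -, hS⟩ := hS 2 (by norm_num)
  refine ⟨2 * (C1 * (Nat.log 2 2 + 1)), ?_⟩
  intro D hD
  obtain ⟨u, hu⟩ := base_class D
  have hcl : ∀ h : Fin 2, ∀ q ∈ ({16, 9, 5, 7} : Finset ℕ), ∀ m : ℕ,
      ¬ q ∣ vq D (5040 * m + (u + h)) := by
    intro h q hq m hdv
    have h1 : 5040 * m + (u + h) ≡ u + h [MOD q] := by
      have h2 : q ∣ 5040 := by
        simp only [mem_insert, mem_singleton] at hq
        rcases hq with rfl | rfl | rfl | rfl <;> norm_num
      have h3 : 5040 * m ≡ 0 [MOD q] := (Nat.modEq_zero_iff_dvd).2 (h2.mul_right m)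
      simpa using h3.add_right (u + h)
    rw [vq_congr h1] at hdv
    have h2 := hu q hq
    fin_cases h
    · exact h2.1 (by simpa using hdv)
    · exact h2.2 (by simpa using hdv)
  have hgc : ∀ (h : Fin 2) (m : ℕ),
      (vq D (u + h)).gcd 5040 = (vq D (5040 * m + (u + h))).gcd 5040 := by
    intro h m
    have h1 : 5040 * m + (u + h) ≡ u + h [MOD 5040] := by
      have h3 : 5040 * m ≡ 0 [MOD 5040] := (Nat.modEq_zero_iff_dvd).2 (dvd_mul_right _ _)
      simpa using h3.add_right (u + h)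
    apply Nat.dvd_antisymm
    · refine Nat.dvd_gcd ?_ (Nat.gcd_dvd_right _ _)
      have h2 : (vq D (u + h)).gcd 5040 ∣ 5040 := Nat.gcd_dvd_right _ _
      rw [vq_congr (h1.of_dvd h2)]
      exact Nat.gcd_dvd_left _ _
    · refine Nat.dvd_gcd ?_ (Nat.gcd_dvd_right _ _)
      have h2 : (vq D (5040 * m + (u + h))).gcd 5040 ∣ 5040 := Nat.gcd_dvd_right _ _
      rw [← vq_congr (h1.of_dvd h2)]
      exact Nat.gcd_dvd_left _ _
  have hparts : ∀ (h : Fin 2) (m : ℕ),
      ((vq D (5040 * m + (u + h))).gcd 5040 ∣ 24) ∧ ∀ p : ℕ, p.Prime → p ∣ 5040 →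
        ¬ p ∣ vq D (5040 * m + (u + h)) / (vq D (5040 * m + (u + h))).gcd 5040 := by
    intro h m
    exact gcd_part (vq_pos hD _) (hcl h 16 (by simp) m) (hcl h 9 (by simp) m)
      (hcl h 5 (by simp) m) (hcl h 7 (by simp) m)
  have hev := hS (Fin 2) (by simp) (fun _ => D) 5040 (fun h => u + h)
    (fun h => (vq D (u + h)).gcd 5040) (fun _ => hD) (by norm_num)
    (fun h m => by
      show (vq D (u + h)).gcd 5040 ∣ _
      rw [hgc h m]
      exact Nat.gcd_dvd_left _ _)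
    (fun h p _ hpd => hpd.trans (Nat.gcd_dvd_right _ _))
    (fun h m p hp hpQ => by
      show ¬ p ∣ vq D (5040 * m + (u + h)) / (vq D (u + h)).gcd 5040
      rw [hgc h m]
      exact (hparts h m).2 p hp hpQ)
    (fun p hp hle => by
      have h1 : p ≤ 8 := by omega
      interval_cases p <;> first | (exfalso; revert hp; norm_num; done) | norm_num)
  obtain ⟨X, hX, hX3, hXD⟩ := (hev.and ((eventually_ge_atTop 3).and
    (eventually_ge_atTop ((1 - 4 * D).natAbs ^ K)))).exists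
  have h3 : (3 : ℝ) ≤ X := by exact_mod_cast hX3
  have h4 : 0 < Real.log X := Real.log_pos (by linarith)
  have h5 : (0 : ℝ) < (X : ℝ) / Real.log X ^ K := by positivity
  have h6 := Nat.cast_pos.1 (h5.trans_le hX)
  obtain ⟨m, hm⟩ := Finset.card_pos.1 h6
  obtain ⟨-, hsq, hsum, hrough⟩ := (@Finset.mem_filter _ _ (_) _ _).1 hm
  obtain ⟨y0, hy0⟩ : ∃ y0 : ℕ, y0 = 5040 * m + u := ⟨_, rfl⟩
  obtain ⟨c, hc⟩ : ∃ c : Fin 2 → ℕ, ∀ h, c h = (vq D (u + h)).gcd 5040 := ⟨_, fun _ => rfl⟩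
  obtain ⟨s, hs⟩ : ∃ s : Fin 2 → ℕ, ∀ h, s h = vq D (5040 * m + (u + h)) /
      (vq D (u + h)).gcd 5040 := ⟨_, fun _ => rfl⟩
  simp only [← hs] at hsq hsum hrough
  have hval : ∀ h : Fin 2, vq D (5040 * m + (u + h)) = c h * s h := by
    intro h
    rw [hc, hs]
    refine (Nat.mul_div_cancel' ?_).symm
    rw [hgc h m]
    exact Nat.gcd_dvd_left _ _
  have hc24 : ∀ h, c h ∣ 24 := by
    intro h
    rw [hc, hgc h m]
    exact (hparts h m).1
  have hs5040 : ∀ h, ∀ p : ℕ, p.Prime → p ∣ 5040 → ¬ p ∣ s h := by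
    intro h p hp hpd
    rw [hs, hgc h m]
    exact (hparts h m).2 p hp hpd
  have e0 : vq D y0 = c 0 * s 0 := by
    have := hval 0
    rw [hy0]
    simpa using this
  have e1 : vq D (y0 + 1) = c 1 * s 1 := by
    have := hval 1
    rw [hy0]
    simpa [add_assoc] using this
  have hDne : (1 - 4 * D).natAbs ≠ 0 := by
    rw [Int.natAbs_ne_zero]
    omega
  have hcop : (s 1).Coprime (s 0) := by
    by_contra hne
    obtain ⟨p, hp, hpa, hpb⟩ := Nat.Prime.not_coprime_iff_dvd.1 hne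
    have h7 := hrough 0 p hp hpb
    have h8 : (p : ℤ) ∣ (y0 : ℤ) ^ 2 - D := by
      rw [← dvd_vq, e0]
      exact hpb.mul_left _
    have h9 : (p : ℤ) ∣ ((y0 + 1 : ℕ) : ℤ) ^ 2 - D := by
      rw [← dvd_vq, e1]
      exact hpa.mul_left _
    have h10 : (p : ℤ) ∣ 1 - 4 * D := by
      obtain ⟨k1, hk1⟩ := h8
      obtain ⟨k2, hk2⟩ := h9
      push_cast at hk2
      refine ⟨4 * k1 - (k2 - k1) * (2 * y0 - 1), ?_⟩
      linear_combination (4 + (2 * (y0 : ℤ) - 1)) * hk1 - (2 * (y0 : ℤ) - 1) * hk2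
    have h11 : p ∣ (1 - 4 * D).natAbs := Int.natCast_dvd.1 h10
    have h12 := Nat.le_of_dvd (Nat.pos_of_ne_zero hDne) h11
    have h13 := Nat.pow_le_pow_left h12 K
    omega
  refine ⟨y0, c 1 * c 0, s 1 * s 0, ?_, ?_, ?_, ?_, ?_⟩
  · rw [e0, e1]
    ring
  · have := mul_dvd_mul (hc24 1) (hc24 0)
    simpa using this
  · exact (Nat.squarefree_mul hcop).2 ⟨hsq 1, hsq 0⟩
  · rw [Nat.Coprime.primeFactors_mul hcop]
    refine (card_union_le _ _).trans ?_
    rw [Fin.sum_univ_two] at hsum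
    omega
  · apply Nat.Coprime.mul_right
    all_goals
      apply Nat.Coprime.symm
      by_contra hne
      obtain ⟨p, hp, hpa, hpb⟩ := Nat.Prime.not_coprime_iff_dvd.1 hne
      have h7 : p ∣ 5040 := by
        rcases (Nat.Prime.dvd_mul hp).1 hpb with h | h
        · exact (h.trans (hc24 1)).trans (by norm_num)
        · exact (h.trans (hc24 0)).trans (by norm_num)
      exact hs5040 _ p hp h7 hpa

end Pool.Agent.Y887.QKF
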