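import Mathlib

/-!
Sums of the additive characters modulo a prime over the integers of a residue class.
-/

set_option autoImplicit false

namespace Pool.Agent.Y887.QK

open Finset

/-- distance of a root of unity from `1` -/
theorem norm_char_ge {ℓ : ℕ} [NeZero ℓ] {j : ℕ} (hj : 0 < j) (hjl : j < ℓ) :
    1 / ‖(ZMod.stdAddChar ((j : ℕ) : ZMod ℓ) : ℂ) - 1‖ ≤ (ℓ : ℝ) / 4 * (1 / j + 1 / ((ℓ : ℝ) - j)) := by
  have hl0 : (0 : ℝ) < ℓ := by
    have : 0 < ℓ := by omega
    exact_mod_cast this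
  have hj0 : (0 : ℝ) < j := by exact_mod_cast hj
  have hjl' : (j : ℝ) < ℓ := by exact_mod_cast hjl
  have hlj : (0 : ℝ) < (ℓ : ℝ) - j := by linarith
  have h1 : (ZMod.stdAddChar ((j : ℕ) : ZMod ℓ) : ℂ) =
      Complex.exp (Complex.I * ((2 * Real.pi * j / ℓ : ℝ) : ℂ)) := by
    have := ZMod.stdAddChar_coe (N := ℓ) (j : ℤ)
    push_cast at this
    rw [this]
    congr 1
    push_cast
    ring
  rw [h1, Complex.norm_exp_I_mul_ofReal_sub_one]
  have h2 : ‖2 * Real.sin (2 * Real.pi * j / ℓ / 2)‖ = 2 * |Real.sin (Real.pi * j / ℓ)| := by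
    rw [norm_mul, Real.norm_eq_abs, Real.norm_eq_abs]
    congr 1
    · norm_num
    · congr 2
      ring
  rw [h2]
  -- sine is at least the product
  have h3 : 4 * (min (j : ℝ) (ℓ - j)) / ℓ ≤ 2 * |Real.sin (Real.pi * j / ℓ)| := by
    rcases le_total (j : ℝ) (ℓ - j) with h | h
    · rw [min_eq_left h]
      have h4 : Real.pi * j / ℓ ≤ Real.pi / 2 := by
        rw [div_le_div_iff₀ hl0 (by norm_num)]
        have := Real.pi_pos
        nlinarith
      have h5 := Real.mul_le_sin (x := Real.pi * j / ℓ) (by positivity) h4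
      have h6 : 2 / Real.pi * (Real.pi * j / ℓ) = 2 * j / ℓ := by
        field_simp
      rw [h6] at h5
      have h7 := le_abs_self (Real.sin (Real.pi * j / ℓ))
      calc 4 * (j : ℝ) / ℓ = 2 * (2 * j / ℓ) := by ring
        _ ≤ _ := by linarith
    · rw [min_eq_right h]
      have e : Real.sin (Real.pi * j / ℓ) = Real.sin (Real.pi * (ℓ - j) / ℓ) := by
        rw [← Real.sin_pi_sub]
        congr 1
        field_simp
      rw [e]
      have h4 : Real.pi * (ℓ - j) / ℓ ≤ Real.pi / 2 := by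
        rw [div_le_div_iff₀ hl0 (by norm_num)]
        have := Real.pi_pos
        nlinarith
      have h5 := Real.mul_le_sin (x := Real.pi * (ℓ - j) / ℓ) (by positivity) h4
      have h6 : 2 / Real.pi * (Real.pi * (ℓ - j) / ℓ) = 2 * (ℓ - j) / ℓ := by
        field_simp
      rw [h6] at h5
      have h7 := le_abs_self (Real.sin (Real.pi * (ℓ - j) / ℓ))
      calc 4 * ((ℓ : ℝ) - j) / ℓ = 2 * (2 * (ℓ - j) / ℓ) := by ring
        _ ≤ _ := by linarith
  have hmin : 0 < min (j : ℝ) (ℓ - j) := lt_min hj0 hlj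
  have h4 : 1 / (2 * |Real.sin (Real.pi * j / ℓ)|) ≤ 1 / (4 * (min (j : ℝ) (ℓ - j)) / ℓ) :=
    one_div_le_one_div_of_le (by positivity) h3
  refine h4.trans ?_
  have h5 : 1 / min (j : ℝ) (ℓ - j) ≤ 1 / j + 1 / (ℓ - j) := by
    rcases le_total (j : ℝ) (ℓ - j) with h | h
    · rw [min_eq_left h]
      have : 0 < 1 / ((ℓ : ℝ) - j) := by positivity
      linarith
    · rw [min_eq_right h]
      have : 0 < 1 / (j : ℝ) := by positivity
      linarith
  calc 1 / (4 * (min (j : ℝ) (ℓ - j)) / ℓ) = ℓ / 4 * (1 / min (j : ℝ) (ℓ - j)) := by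
        field_simp
    _ ≤ _ := mul_le_mul_of_nonneg_left h5 (by positivity)

/-- the sum over the integers of a class -/
theorem class_sum {z : ℂ} (hz : ‖z‖ = 1) {q r L : ℕ} (hq : 0 < q) (hqL : q ≤ L) :
    ‖(z ^ q - 1) * ∑ m ∈ (range L).filter (fun m => m % q = r), z ^ m‖ ≤ 2 := by
  have hzn : ∀ m : ℕ, ‖z ^ m‖ = 1 := fun m => by rw [norm_pow, hz, one_pow]
  have e1 : z ^ q * ∑ m ∈ (range L).filter (fun m => m % q = r), z ^ m =
      ∑ m ∈ (Ico q (L + q)).filter (fun m => m % q = r), z ^ m := by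
    rw [mul_sum]
    apply sum_nbij' (fun m => m + q) (fun m => m - q)
    · intro m hm
      rw [mem_filter, mem_range] at hm
      rw [mem_filter, mem_Ico, Nat.add_mod_right]
      exact ⟨⟨by omega, by omega⟩, hm.2⟩
    · intro m hm
      rw [mem_filter, mem_Ico] at hm
      rw [mem_filter, mem_range]
      refine ⟨by omega, ?_⟩
      have h1 : m = (m - q) + q := by omega
      have h2 : m % q = (m - q) % q := by
        conv_lhs => rw [h1, Nat.add_mod_right]
      rw [← h2]
      exact hm.2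
    · intro m hm
      omega
    · intro m hm
      rw [mem_filter, mem_Ico] at hm
      omega
    · intro m hm
      rw [← pow_add, add_comm]
  have e2 : ∑ m ∈ (Ico q (L + q)).filter (fun m => m % q = r), z ^ m =
      ∑ m ∈ (Ico q L).filter (fun m => m % q = r), z ^ m +
        ∑ m ∈ (Ico L (L + q)).filter (fun m => m % q = r), z ^ m := by
    rw [sum_filter, sum_filter, sum_filter, sum_Ico_consecutive _ hqL (by omega)]
  have e3 : ∑ m ∈ (range L).filter (fun m => m % q = r), z ^ m =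
      ∑ m ∈ (range q).filter (fun m => m % q = r), z ^ m +
        ∑ m ∈ (Ico q L).filter (fun m => m % q = r), z ^ m := by
    rw [sum_filter, sum_filter, sum_filter, range_eq_Ico, range_eq_Ico,
      sum_Ico_consecutive _ (Nat.zero_le _) hqL]
  have e4 : (z ^ q - 1) * ∑ m ∈ (range L).filter (fun m => m % q = r), z ^ m =
      ∑ m ∈ (Ico L (L + q)).filter (fun m => m % q = r), z ^ m -
        ∑ m ∈ (range q).filter (fun m => m % q = r), z ^ m := by
    rw [sub_mul, one_mul, e1, e2, e3]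
    ring
  rw [e4]
  have hc1 : ((range q).filter (fun m => m % q = r)).card ≤ 1 := by
    rw [card_le_one]
    intro a ha b hb
    rw [mem_filter, mem_range] at ha hb
    rw [Nat.mod_eq_of_lt ha.1] at ha
    rw [Nat.mod_eq_of_lt hb.1] at hb
    omega
  have hc2 : ((Ico L (L + q)).filter (fun m => m % q = r)).card ≤ 1 := by
    rw [card_le_one]
    intro a ha b hb
    rw [mem_filter, mem_Ico] at ha hb
    have h1 : a ≡ b [MOD q] := by
      show a % q = b % q
      rw [ha.2, hb.2]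
    rcases le_total a b with h | h
    · have h2 := (Nat.modEq_iff_dvd' h).1 h1
      have h3 := Nat.eq_zero_of_dvd_of_lt h2 (by omega)
      omega
    · have h2 := (Nat.modEq_iff_dvd' h).1 h1.symm
      have h3 := Nat.eq_zero_of_dvd_of_lt h2 (by omega)
      omega
  have hb : ∀ S : Finset ℕ, S.card ≤ 1 → ‖∑ m ∈ S, z ^ m‖ ≤ 1 := by
    intro S hS
    refine (norm_sum_le _ _).trans ?_
    simp only [hzn, sum_const, nsmul_eq_mul, mul_one]
    exact_mod_cast hS
  refine (norm_sub_le _ _).trans ?_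
  have := hb _ hc1
  have := hb _ hc2
  linarith

/-- the harmonic sum over the nonzero frequencies -/
theorem inv_sum {ℓ : ℕ} [Fact ℓ.Prime] :
    ∑ t ∈ (univ : Finset (ZMod ℓ)).erase 0, 1 / ‖(ZMod.stdAddChar t : ℂ) - 1‖ ≤
      (ℓ : ℝ) / 2 * (1 + Real.log ℓ) := by
  have hl := (Fact.out : ℓ.Prime)
  have hl2 := hl.two_le
  have h1 : ∑ t ∈ (univ : Finset (ZMod ℓ)).erase 0, 1 / ‖(ZMod.stdAddChar t : ℂ) - 1‖ =
      ∑ j ∈ Ico 1 ℓ, 1 / ‖(ZMod.stdAddChar ((j : ℕ) : ZMod ℓ) : ℂ) - 1‖ := by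
    apply sum_nbij' (fun t : ZMod ℓ => t.val) (fun j : ℕ => (j : ZMod ℓ))
    · intro t ht
      rw [mem_erase] at ht
      rw [mem_Ico]
      refine ⟨?_, ZMod.val_lt t⟩
      exact Nat.pos_of_ne_zero (fun h => ht.1 ((ZMod.val_eq_zero t).1 h))
    · intro j hj
      rw [mem_Ico] at hj
      rw [mem_erase]
      refine ⟨?_, mem_univ _⟩
      intro h
      have h2 := (ZMod.natCast_eq_zero_iff j ℓ).1 h
      have := Nat.le_of_dvd (by omega) h2
      omega
    · intro t _
      exact ZMod.natCast_zmod_val t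
    · intro j hj
      rw [mem_Ico] at hj
      exact ZMod.val_cast_of_lt hj.2
    · intro t _
      rw [ZMod.natCast_zmod_val]
  rw [h1]
  have h2 : ∑ j ∈ Ico 1 ℓ, 1 / ‖(ZMod.stdAddChar ((j : ℕ) : ZMod ℓ) : ℂ) - 1‖ ≤
      ∑ j ∈ Ico 1 ℓ, (ℓ : ℝ) / 4 * (1 / j + 1 / ((ℓ : ℝ) - j)) := by
    apply sum_le_sum
    intro j hj
    rw [mem_Ico] at hj
    exact norm_char_ge hj.1 hj.2
  refine h2.trans ?_
  rw [← mul_sum, sum_add_distrib]
  have h3 : ∑ j ∈ Ico 1 ℓ, (1 : ℝ) / ((ℓ : ℝ) - j) = ∑ j ∈ Ico 1 ℓ, (1 : ℝ) / j := by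
    apply sum_nbij' (fun j => ℓ - j) (fun j => ℓ - j)
    · intro j hj
      rw [mem_Ico] at hj ⊢
      omega
    · intro j hj
      rw [mem_Ico] at hj ⊢
      omega
    · intro j hj
      rw [mem_Ico] at hj
      omega
    · intro j hj
      rw [mem_Ico] at hj
      omega
    · intro j hj
      rw [mem_Ico] at hj
      rw [Nat.cast_sub hj.2.le]
  rw [h3]
  have h4 : ∑ j ∈ Ico 1 ℓ, (1 : ℝ) / j ≤ 1 + Real.log ℓ := by
    have h5 := harmonic_le_one_add_log (ℓ - 1)
    have h6 : ((harmonic (ℓ - 1) : ℚ) : ℝ) = ∑ j ∈ Ico 1 ℓ, (1 : ℝ) / j := by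
      unfold harmonic
      push_cast
      apply sum_nbij' (fun j => j + 1) (fun j => j - 1)
      · intro j hj
        rw [mem_range] at hj
        rw [mem_Ico]
        omega
      · intro j hj
        rw [mem_Ico] at hj
        rw [mem_range]
        omega
      · intro j _
        omega
      · intro j hj
        rw [mem_Ico] at hj
        omega
      · intro j _
        rw [one_div]
        push_cast
        rfl
    rw [← h6]
    refine h5.trans ?_
    have h7 : Real.log ((ℓ - 1 : ℕ) : ℝ) ≤ Real.log ℓ := by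
      apply Real.log_le_log
      · have : 0 < ℓ - 1 := by omega
        exact_mod_cast this
      · exact_mod_cast Nat.sub_le ℓ 1
    linarith
  have hl0 : (0 : ℝ) ≤ ℓ := Nat.cast_nonneg _
  nlinarith

end Pool.Agent.Y887.QK
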