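import Mathlib
import Pool.Agent.H498R2.KlWeil
import Pool.Agent.Y887.QK.Geo

/-!
Equidistribution of the points of the modular hyperbola modulo a prime in the classes to a second
modulus.
-/

set_option autoImplicit false

namespace Pool.Agent.Y887.QK

open Finset

/-- Weil's bound -/
theorem kl_prime (p : ℕ) [Fact p.Prime] (a b : ZMod p) (ha : a ≠ 0) (hb : b ≠ 0) :
    ‖∑ x : (ZMod p)ˣ, (ZMod.stdAddChar
      (a * (x : ZMod p) + b * ((x⁻¹ : (ZMod p)ˣ) : ZMod p)) : ℂ)‖ ≤ 2 * Real.sqrt p := by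
  by_cases h2 : p = 2
  · subst h2
    refine (norm_sum_le _ _).trans ?_
    have h1 : ∀ x : (ZMod 2)ˣ, ‖(ZMod.stdAddChar
        (a * (x : ZMod 2) + b * ((x⁻¹ : (ZMod 2)ˣ) : ZMod 2)) : ℂ)‖ ≤ 1 := by
      intro x
      exact (AddChar.norm_apply _ _).le
    refine (sum_le_sum fun x _ => h1 x).trans ?_
    rw [sum_const, card_univ, ZMod.card_units_eq_totient, Nat.totient_two]
    have : (1 : ℝ) ≤ Real.sqrt 2 := by
      rw [Real.one_le_sqrt]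
      norm_num
    simp
    linarith
  · have hF : ringChar (ZMod p) ≠ 2 := by
      rw [ZMod.ringChar_zmod_n]
      exact h2
    have h := Pool.Agent.H498R2.Kl.kloosterman_units_le hF (ZMod.isPrimitive_stdAddChar p) ha hb
    rw [ZMod.card] at h
    exact h

section

variable {ℓ : ℕ} [Fact ℓ.Prime]

/-- the Fourier transform -/
noncomputable def hat (φ : ZMod ℓ → ℂ) (t : ZMod ℓ) : ℂ :=
  ∑ m, φ m * (ZMod.stdAddChar (-(t * m)) : ℂ)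

theorem hat_inv (φ : ZMod ℓ → ℂ) (y : ZMod ℓ) :
    (ℓ : ℂ) * φ y = ∑ t, hat φ t * (ZMod.stdAddChar (t * y) : ℂ) := by
  unfold hat
  simp_rw [sum_mul]
  rw [sum_comm]
  have h1 : ∀ m : ZMod ℓ, ∑ t : ZMod ℓ, φ m * (ZMod.stdAddChar (-(t * m)) : ℂ) *
      (ZMod.stdAddChar (t * y) : ℂ) = φ m * (if y - m = 0 then (ℓ : ℂ) else 0) := by
    intro m
    have h2 := AddChar.sum_mulShift (ψ := ZMod.stdAddChar (N := ℓ)) (y - m)
      (ZMod.isPrimitive_stdAddChar ℓ)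
    rw [ZMod.card] at h2
    have h3 : (if y - m = 0 then (ℓ : ℂ) else 0) = ((if y - m = 0 then ℓ else 0 : ℕ) : ℂ) := by
      split_ifs <;> simp
    rw [h3, ← h2, mul_sum]
    apply sum_congr rfl
    intro t _
    rw [mul_assoc, ← AddChar.map_add_eq_mul]
    congr 2
    ring
  simp_rw [h1]
  rw [sum_eq_single y]
  · rw [sub_self, if_pos rfl, mul_comm]
  · intro m _ hm
    rw [if_neg (sub_ne_zero.2 (Ne.symm hm)), mul_zero]
  · intro h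
    exact absurd (mem_univ y) h

/-- the sum over the units -/
noncomputable def Kl (a b : ZMod ℓ) : ℂ :=
  ∑ x : (ZMod ℓ)ˣ, (ZMod.stdAddChar (a * (x : ZMod ℓ) + b * ((x⁻¹ : (ZMod ℓ)ˣ) : ZMod ℓ)) : ℂ)

theorem Kl_zero : Kl (0 : ZMod ℓ) 0 = (ℓ : ℂ) - 1 := by
  unfold Kl
  simp only [zero_mul, add_zero, AddChar.map_zero_eq_one, sum_const, card_univ, nsmul_eq_mul,
    mul_one]
  rw [ZMod.card_units_eq_totient, Nat.totient_prime Fact.out, Nat.cast_sub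
    (Fact.out : ℓ.Prime).one_le]
  simp

theorem sum_units (F : ZMod ℓ → ℂ) : ∑ x : (ZMod ℓ)ˣ, F (x : ZMod ℓ) = ∑ x ∈ univ.erase 0, F x := by
  apply sum_bij (fun (x : (ZMod ℓ)ˣ) _ => (x : ZMod ℓ))
  · intro x _
    exact mem_erase.2 ⟨x.ne_zero, mem_univ _⟩
  · intro x _ y _ h
    exact Units.ext h
  · intro x hx
    exact ⟨Units.mk0 x (mem_erase.1 hx).1, mem_univ _, rfl⟩
  · intro x _
    rfl

theorem Kl_left {a : ZMod ℓ} (ha : a ≠ 0) : Kl a 0 = -1 := by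
  unfold Kl
  simp only [zero_mul, add_zero]
  rw [sum_units (fun x => (ZMod.stdAddChar (a * x) : ℂ))]
  have h1 := AddChar.sum_mulShift (ψ := ZMod.stdAddChar (N := ℓ)) a (ZMod.isPrimitive_stdAddChar ℓ)
  rw [if_neg ha] at h1
  have h2 := add_sum_erase univ (fun x : ZMod ℓ => (ZMod.stdAddChar (x * a) : ℂ)) (mem_univ 0)
  rw [h1] at h2
  simp only [zero_mul, AddChar.map_zero_eq_one] at h2
  have h3 : ∑ x ∈ univ.erase 0, (ZMod.stdAddChar (a * x) : ℂ) =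
      ∑ x ∈ univ.erase (0 : ZMod ℓ), (ZMod.stdAddChar (x * a) : ℂ) :=
    sum_congr rfl fun x _ => by rw [mul_comm]
  rw [h3]
  linear_combination h2

theorem Kl_right {b : ZMod ℓ} (hb : b ≠ 0) : Kl 0 b = -1 := by
  have h1 : Kl (0 : ZMod ℓ) b = Kl b 0 := by
    unfold Kl
    simp only [zero_mul, zero_add, add_zero]
    apply Fintype.sum_equiv (Equiv.inv (ZMod ℓ)ˣ)
    intro x
    rfl
  rw [h1, Kl_left hb]

theorem hyp_sum (φ ψ : ZMod ℓ → ℂ) (c : (ZMod ℓ)ˣ) :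
    (ℓ : ℂ) ^ 2 * ∑ x : (ZMod ℓ)ˣ, φ x * ψ ((c * x⁻¹ : (ZMod ℓ)ˣ) : ZMod ℓ) =
      ∑ t, ∑ t', hat φ t * hat ψ t' * Kl t (t' * (c : ZMod ℓ)) := by
  have h1 : ∀ x : (ZMod ℓ)ˣ, (ℓ : ℂ) ^ 2 * (φ x * ψ ((c * x⁻¹ : (ZMod ℓ)ˣ) : ZMod ℓ)) =
      ∑ t, ∑ t', hat φ t * hat ψ t' * (ZMod.stdAddChar
        (t * (x : ZMod ℓ) + (t' * (c : ZMod ℓ)) * ((x⁻¹ : (ZMod ℓ)ˣ) : ZMod ℓ)) : ℂ) := by
    intro x
    have e1 : (ℓ : ℂ) ^ 2 * (φ x * ψ ((c * x⁻¹ : (ZMod ℓ)ˣ) : ZMod ℓ)) =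
      ((ℓ : ℂ) * φ x) * ((ℓ : ℂ) * ψ ((c * x⁻¹ : (ZMod ℓ)ˣ) : ZMod ℓ)) := by ring
    rw [e1, hat_inv φ, hat_inv ψ, sum_mul_sum]
    apply sum_congr rfl
    intro t _
    apply sum_congr rfl
    intro t' _
    rw [AddChar.map_add_eq_mul]
    have e2 : t' * (c : ZMod ℓ) * ((x⁻¹ : (ZMod ℓ)ˣ) : ZMod ℓ) = t' * ((c * x⁻¹ : (ZMod ℓ)ˣ) : ZMod ℓ) := by
      push_cast
      ring
    rw [e2]
    ring
  rw [mul_sum, sum_congr rfl fun x _ => h1 x, sum_comm]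
  apply sum_congr rfl
  intro t _
  rw [sum_comm]
  apply sum_congr rfl
  intro t' _
  unfold Kl
  rw [mul_sum]

theorem split_sum (F : ZMod ℓ → ZMod ℓ → ℂ) :
    ∑ t, ∑ t', F t t' = F 0 0 + (∑ t' ∈ univ.erase 0, F 0 t') + (∑ t ∈ univ.erase 0, F t 0) +
      ∑ t ∈ univ.erase 0, ∑ t' ∈ univ.erase 0, F t t' := by
  rw [← add_sum_erase univ (fun t => ∑ t', F t t') (mem_univ 0)]
  have h1 : ∀ t, ∑ t', F t t' = F t 0 + ∑ t' ∈ univ.erase 0, F t t' := fun t =>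
    (add_sum_erase univ (fun t' => F t t') (mem_univ 0)).symm
  simp only [h1, sum_add_distrib]
  ring

/-- the general estimate -/
theorem hyp_bound (φ ψ : ZMod ℓ → ℂ) (c : (ZMod ℓ)ˣ) (A : ℝ)
    (h0φ : ‖hat φ 0‖ ≤ ℓ) (h0ψ : ‖hat ψ 0‖ ≤ ℓ)
    (hφ : ∑ t ∈ univ.erase 0, ‖hat φ t‖ ≤ A) (hψ : ∑ t ∈ univ.erase 0, ‖hat ψ t‖ ≤ A) :
    ‖(ℓ : ℂ) ^ 2 * ∑ x : (ZMod ℓ)ˣ, φ x * ψ ((c * x⁻¹ : (ZMod ℓ)ˣ) : ZMod ℓ) -
      hat φ 0 * hat ψ 0 * ((ℓ : ℂ) - 1)‖ ≤ 2 * ℓ * A + 2 * Real.sqrt ℓ * A ^ 2 := by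
  have hA : 0 ≤ A := (sum_nonneg fun t _ => norm_nonneg _).trans hφ
  rw [hyp_sum, split_sum]
  have e0 : hat φ 0 * hat ψ 0 * Kl (0 : ZMod ℓ) (0 * (c : ZMod ℓ)) = hat φ 0 * hat ψ 0 * ((ℓ : ℂ) - 1) := by
    rw [zero_mul, Kl_zero]
  rw [e0]
  have e1 : ∀ B1 B2 B3 B4 : ℂ, B1 + B2 + B3 + B4 - B1 = B2 + B3 + B4 := fun _ _ _ _ => by ring
  rw [e1]
  have hc0 : ∀ t : ZMod ℓ, t ≠ 0 → t * (c : ZMod ℓ) ≠ 0 := fun t ht =>
    mul_ne_zero ht c.ne_zero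
  have b1 : ‖∑ t' ∈ univ.erase (0 : ZMod ℓ), hat φ 0 * hat ψ t' * Kl 0 (t' * (c : ZMod ℓ))‖ ≤ ℓ * A := by
    refine (norm_sum_le _ _).trans ?_
    calc ∑ t' ∈ univ.erase (0 : ZMod ℓ), ‖hat φ 0 * hat ψ t' * Kl 0 (t' * (c : ZMod ℓ))‖
        ≤ ∑ t' ∈ univ.erase (0 : ZMod ℓ), (ℓ : ℝ) * ‖hat ψ t'‖ := by
          apply sum_le_sum
          intro t ht
          rw [Kl_right (hc0 t (mem_erase.1 ht).1), norm_mul, norm_mul, norm_neg, norm_one, mul_one]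
          exact mul_le_mul_of_nonneg_right h0φ (norm_nonneg _)
      _ = ℓ * ∑ t' ∈ univ.erase (0 : ZMod ℓ), ‖hat ψ t'‖ := by rw [mul_sum]
      _ ≤ ℓ * A := mul_le_mul_of_nonneg_left hψ (Nat.cast_nonneg _)
  have b2 : ‖∑ t ∈ univ.erase (0 : ZMod ℓ), hat φ t * hat ψ 0 * Kl t (0 * (c : ZMod ℓ))‖ ≤ ℓ * A := by
    refine (norm_sum_le _ _).trans ?_
    calc ∑ t ∈ univ.erase (0 : ZMod ℓ), ‖hat φ t * hat ψ 0 * Kl t (0 * (c : ZMod ℓ))‖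
        ≤ ∑ t ∈ univ.erase (0 : ZMod ℓ), (ℓ : ℝ) * ‖hat φ t‖ := by
          apply sum_le_sum
          intro t ht
          rw [zero_mul, Kl_left (mem_erase.1 ht).1, norm_mul, norm_mul, norm_neg, norm_one, mul_one,
            mul_comm]
          exact mul_le_mul_of_nonneg_right h0ψ (norm_nonneg _)
      _ = ℓ * ∑ t' ∈ univ.erase (0 : ZMod ℓ), ‖hat φ t'‖ := by rw [mul_sum]
      _ ≤ ℓ * A := mul_le_mul_of_nonneg_left hφ (Nat.cast_nonneg _)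
  have b3 : ‖∑ t ∈ univ.erase (0 : ZMod ℓ), ∑ t' ∈ univ.erase (0 : ZMod ℓ),
      hat φ t * hat ψ t' * Kl t (t' * (c : ZMod ℓ))‖ ≤ 2 * Real.sqrt ℓ * A ^ 2 := by
    refine (norm_sum_le _ _).trans ?_
    calc ∑ t ∈ univ.erase (0 : ZMod ℓ), ‖∑ t' ∈ univ.erase (0 : ZMod ℓ),
          hat φ t * hat ψ t' * Kl t (t' * (c : ZMod ℓ))‖
        ≤ ∑ t ∈ univ.erase (0 : ZMod ℓ), ∑ t' ∈ univ.erase (0 : ZMod ℓ),
          ‖hat φ t‖ * ‖hat ψ t'‖ * (2 * Real.sqrt ℓ) := by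
          apply sum_le_sum
          intro t ht
          refine (norm_sum_le _ _).trans ?_
          apply sum_le_sum
          intro t' ht'
          rw [norm_mul, norm_mul]
          apply mul_le_mul_of_nonneg_left _ (by positivity)
          exact kl_prime ℓ t (t' * (c : ZMod ℓ)) (mem_erase.1 ht).1 (hc0 t' (mem_erase.1 ht').1)
      _ = (∑ t ∈ univ.erase (0 : ZMod ℓ), ‖hat φ t‖) * (∑ t' ∈ univ.erase (0 : ZMod ℓ), ‖hat ψ t'‖) *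
          (2 * Real.sqrt ℓ) := by
          rw [sum_mul_sum, sum_mul]
          apply sum_congr rfl
          intro t _
          rw [sum_mul]
      _ ≤ A * A * (2 * Real.sqrt ℓ) := by
          apply mul_le_mul_of_nonneg_right _ (by positivity)
          exact mul_le_mul hφ hψ (sum_nonneg fun t _ => norm_nonneg _) hA
      _ = _ := by ring
  refine (norm_add₃_le).trans ?_
  linarith

/-- the indicator function of a class -/
noncomputable def ind (q : ℕ) (β : ZMod q) (y : ZMod ℓ) : ℂ := if ((y.val : ℕ) : ZMod q) = β then 1 else 0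

theorem hat_ind (q : ℕ) [NeZero q] (β : ZMod q) (t : ZMod ℓ) :
    hat (ind q β) t = ∑ m ∈ (range ℓ).filter (fun m => m % q = β.val),
      (ZMod.stdAddChar (-t) : ℂ) ^ m := by
  unfold hat ind
  simp only [ite_mul, one_mul, zero_mul]
  rw [← sum_filter]
  apply sum_nbij' (fun y : ZMod ℓ => y.val) (fun m : ℕ => (m : ZMod ℓ))
  · intro y hy
    rw [mem_filter] at hy
    rw [mem_filter, mem_range]
    refine ⟨ZMod.val_lt y, ?_⟩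
    rw [← hy.2, ZMod.val_natCast]
  · intro m hm
    rw [mem_filter, mem_range] at hm
    rw [mem_filter]
    refine ⟨mem_univ _, ?_⟩
    rw [ZMod.val_cast_of_lt hm.1]
    apply ZMod.val_injective
    rw [ZMod.val_natCast]
    exact hm.2
  · intro y _
    exact ZMod.natCast_zmod_val y
  · intro m hm
    rw [mem_filter, mem_range] at hm
    exact ZMod.val_cast_of_lt hm.1
  · intro y _
    rw [← AddChar.map_nsmul_eq_pow]
    congr 1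
    rw [nsmul_eq_mul, ZMod.natCast_zmod_val]
    ring

theorem hat_ind_zero (q : ℕ) [NeZero q] (β : ZMod q) :
    hat (ind (ℓ := ℓ) q β) 0 = (((range ℓ).filter (fun m => m % q = β.val)).card : ℂ) := by
  rw [hat_ind]
  simp

theorem hat_ind_sum (q : ℕ) [NeZero q] (hq : q < ℓ) (β : ZMod q) :
    ∑ t ∈ univ.erase 0, ‖hat (ind (ℓ := ℓ) q β) t‖ ≤ ℓ * (1 + Real.log ℓ) := by
  have hl := (Fact.out : ℓ.Prime)
  have hq0 : 0 < q := Nat.pos_of_ne_zero (NeZero.ne q)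
  have hqu : ((q : ℕ) : ZMod ℓ) ≠ 0 := by
    intro h
    have h1 := (ZMod.natCast_eq_zero_iff q ℓ).1 h
    have := Nat.le_of_dvd hq0 h1
    omega
  have h1 : ∀ t ∈ univ.erase (0 : ZMod ℓ), ‖hat (ind (ℓ := ℓ) q β) t‖ ≤
      2 * (1 / ‖(ZMod.stdAddChar (-t * (q : ZMod ℓ)) : ℂ) - 1‖) := by
    intro t ht
    have ht0 := (mem_erase.1 ht).1
    rw [hat_ind]
    have h2 := class_sum (z := (ZMod.stdAddChar (-t) : ℂ)) (AddChar.norm_apply _ _) (q := q)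
      (r := β.val) (L := ℓ) hq0 hq.le
    rw [norm_mul] at h2
    have h3 : (ZMod.stdAddChar (-t) : ℂ) ^ q = (ZMod.stdAddChar (-t * (q : ZMod ℓ)) : ℂ) := by
      rw [← AddChar.map_nsmul_eq_pow]
      congr 1
      rw [nsmul_eq_mul]
      ring
    rw [h3] at h2
    have h4 : (0 : ℝ) < ‖(ZMod.stdAddChar (-t * (q : ZMod ℓ)) : ℂ) - 1‖ := by
      rw [norm_pos_iff, sub_ne_zero]
      intro h5
      have h6 : (-t * (q : ZMod ℓ) : ZMod ℓ) = 0 := by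
        apply ZMod.injective_stdAddChar
        rw [h5, AddChar.map_zero_eq_one]
      exact mul_ne_zero (neg_ne_zero.2 ht0) hqu h6
    rw [mul_one_div, le_div_iff₀ h4, mul_comm]
    exact h2
  refine (sum_le_sum h1).trans ?_
  rw [← mul_sum]
  have h2 : ∑ t ∈ univ.erase (0 : ZMod ℓ), 1 / ‖(ZMod.stdAddChar (-t * (q : ZMod ℓ)) : ℂ) - 1‖ =
      ∑ t ∈ univ.erase (0 : ZMod ℓ), 1 / ‖(ZMod.stdAddChar t : ℂ) - 1‖ := by
    apply sum_nbij' (fun t => -t * (q : ZMod ℓ)) (fun t => -t * (q : ZMod ℓ)⁻¹)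
    · intro t ht
      rw [mem_erase] at ht ⊢
      exact ⟨mul_ne_zero (neg_ne_zero.2 ht.1) hqu, mem_univ _⟩
    · intro t ht
      rw [mem_erase] at ht ⊢
      exact ⟨mul_ne_zero (neg_ne_zero.2 ht.1) (inv_ne_zero hqu), mem_univ _⟩
    · intro t _
      field_simp
    · intro t _
      field_simp
    · intro t _
      rfl
  rw [h2]
  have h3 := inv_sum (ℓ := ℓ)
  linarith

theorem class_card (q : ℕ) [NeZero q] (β : ZMod q) :
    |(((range ℓ).filter (fun m => m % q = β.val)).card : ℝ) - ℓ / q| ≤ 1 := by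
  have hq0 : 0 < q := Nat.pos_of_ne_zero (NeZero.ne q)
  have hqr : (0 : ℝ) < q := by exact_mod_cast hq0
  have hβ := ZMod.val_lt β
  have h1 : ((range ℓ).filter (fun m => m % q = β.val)).card = Nat.count (· ≡ β.val [MOD q]) ℓ := by
    rw [Nat.count_eq_card_filter_range]
    congr 1
    apply filter_congr
    intro m _
    show m % q = β.val ↔ m % q = β.val % q
    rw [Nat.mod_eq_of_lt hβ]
  rw [h1, Nat.count_modEq_card ℓ hq0]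
  have h2 : (ℓ : ℝ) = q * ((ℓ / q : ℕ) : ℝ) + ((ℓ % q : ℕ) : ℝ) := by
    exact_mod_cast (Nat.div_add_mod ℓ q).symm
  have h3 : ((ℓ % q : ℕ) : ℝ) < q := by exact_mod_cast Nat.mod_lt ℓ hq0
  have h4 : (0 : ℝ) ≤ ((ℓ % q : ℕ) : ℝ) := Nat.cast_nonneg _
  have h5 : (ℓ : ℝ) / q = ((ℓ / q : ℕ) : ℝ) + ((ℓ % q : ℕ) : ℝ) / q := by
    rw [h2]
    field_simp
  have h6 : ((ℓ % q : ℕ) : ℝ) / q ≤ 1 := by
    rw [div_le_one hqr]
    exact h3.le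
  have h7 : 0 ≤ ((ℓ % q : ℕ) : ℝ) / q := by positivity
  rw [h5, abs_le]
  push_cast
  split_ifs
  · push_cast
    constructor <;> linarith
  · push_cast
    constructor <;> linarith

/-- equidistribution of the modular hyperbola -/
theorem equid (q : ℕ) [NeZero q] (hq : q < ℓ) (c : (ZMod ℓ)ˣ) (β ν : ZMod q) :
    |(((univ : Finset (ZMod ℓ)ˣ).filter (fun x : (ZMod ℓ)ˣ => (((x : ZMod ℓ).val : ℕ) : ZMod q) = β ∧
      ((((c * x⁻¹ : (ZMod ℓ)ˣ) : ZMod ℓ).val : ℕ) : ZMod q) = ν)).card : ℝ) - ℓ / (q : ℝ) ^ 2| ≤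
      8 * Real.sqrt ℓ * (1 + Real.log ℓ) ^ 2 := by
  classical
  have hl := (Fact.out : ℓ.Prime)
  have hl1 : (1 : ℝ) ≤ ℓ := by exact_mod_cast hl.one_le
  have hl0 : (0 : ℝ) < ℓ := by linarith
  have hq0 : 0 < q := Nat.pos_of_ne_zero (NeZero.ne q)
  have hqr : (1 : ℝ) ≤ q := by exact_mod_cast hq0
  have hlog : 0 ≤ Real.log ℓ := Real.log_nonneg hl1
  have hsq : 1 ≤ Real.sqrt ℓ := by
    rw [Real.one_le_sqrt]
    exact hl1
  obtain ⟨N, hN⟩ : ∃ N : ℕ, N = ((univ : Finset (ZMod ℓ)ˣ).filter (fun x : (ZMod ℓ)ˣ =>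
      (((x : ZMod ℓ).val : ℕ) : ZMod q) = β ∧
      ((((c * x⁻¹ : (ZMod ℓ)ˣ) : ZMod ℓ).val : ℕ) : ZMod q) = ν)).card := ⟨_, rfl⟩
  obtain ⟨I, hI⟩ : ∃ I : ℕ, I = ((range ℓ).filter (fun m => m % q = β.val)).card := ⟨_, rfl⟩
  obtain ⟨J, hJ⟩ : ∃ J : ℕ, J = ((range ℓ).filter (fun m => m % q = ν.val)).card := ⟨_, rfl⟩
  have hIl : I ≤ ℓ := by
    rw [hI]
    exact (card_filter_le _ _).trans (by simp)
  have hJl : J ≤ ℓ := by
    rw [hJ]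
    exact (card_filter_le _ _).trans (by simp)
  have h1 := hyp_bound (ind (ℓ := ℓ) q β) (ind (ℓ := ℓ) q ν) c (ℓ * (1 + Real.log ℓ))
    (by
      rw [hat_ind_zero, ← hI, Complex.norm_natCast]
      exact_mod_cast hIl)
    (by
      rw [hat_ind_zero, ← hJ, Complex.norm_natCast]
      exact_mod_cast hJl)
    (hat_ind_sum q hq β) (hat_ind_sum q hq ν)
  rw [hat_ind_zero, hat_ind_zero, ← hI, ← hJ] at h1
  have h2 : ∑ x : (ZMod ℓ)ˣ, ind (ℓ := ℓ) q β (x : ZMod ℓ) * ind (ℓ := ℓ) q ν ((c * x⁻¹ : (ZMod ℓ)ˣ) : ZMod ℓ) =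
      (N : ℂ) := by
    rw [hN, card_filter, Nat.cast_sum]
    apply sum_congr rfl
    intro x _
    unfold ind
    by_cases ha : (((x : ZMod ℓ).val : ℕ) : ZMod q) = β
    · by_cases hb : ((((c * x⁻¹ : (ZMod ℓ)ˣ) : ZMod ℓ).val : ℕ) : ZMod q) = ν
      · simp only [ha, hb, if_true, and_self, mul_one, Nat.cast_one]
      · simp only [ha, hb, if_false, and_false, mul_zero, Nat.cast_zero]
    · simp only [ha, if_false, false_and, zero_mul, Nat.cast_zero]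
  rw [h2] at h1
  have h3 : ((ℓ : ℂ) ^ 2 * (N : ℂ) - (I : ℂ) * (J : ℂ) * ((ℓ : ℂ) - 1)) =
      (((ℓ : ℝ) ^ 2 * N - I * J * (ℓ - 1) : ℝ) : ℂ) := by
    push_cast
    ring
  rw [h3, Complex.norm_real, Real.norm_eq_abs] at h1
  rw [← hN]
  have hI1 := class_card (ℓ := ℓ) q β
  have hJ1 := class_card (ℓ := ℓ) q ν
  rw [← hI] at hI1
  rw [← hJ] at hJ1
  rw [abs_le] at hI1 hJ1
  obtain ⟨i, hi⟩ : ∃ i : ℝ, i = (I : ℝ) - ℓ / q := ⟨_, rfl⟩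
  obtain ⟨j, hj⟩ : ∃ j : ℝ, j = (J : ℝ) - ℓ / q := ⟨_, rfl⟩
  rw [← hi] at hI1
  rw [← hj] at hJ1
  -- the main terms
  have h4 : |(I : ℝ) * J * (ℓ - 1) - (ℓ : ℝ) ^ 2 * (ℓ / (q : ℝ) ^ 2)| ≤ 4 * (ℓ : ℝ) ^ 2 := by
    have eI : (I : ℝ) = ℓ / q + i := by linarith
    have eJ : (J : ℝ) = ℓ / q + j := by linarith
    have hx : (ℓ : ℝ) / q ≤ ℓ := div_le_self hl0.le hqr
    have hx0 : 0 ≤ (ℓ : ℝ) / q := by positivity
    obtain ⟨x, hxd⟩ : ∃ x : ℝ, x = (ℓ : ℝ) / q := ⟨_, rfl⟩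
    have e1 : (ℓ : ℝ) ^ 2 * (ℓ / (q : ℝ) ^ 2) = ℓ * x ^ 2 := by
      rw [hxd, div_pow]
      field_simp
    rw [e1, eI, eJ, ← hxd]
    rw [← hxd] at hx hx0
    have e2 : (x + i) * (x + j) * (ℓ - 1) - ℓ * x ^ 2 =
        -x ^ 2 + x * (ℓ - 1) * (i + j) + i * j * (ℓ - 1) := by ring
    rw [e2]
    have hx2 : x ^ 2 ≤ (ℓ : ℝ) ^ 2 := pow_le_pow_left₀ hx0 hx 2
    have hl10 : (0 : ℝ) ≤ ℓ - 1 := by linarith
    have b1 : |x * (ℓ - 1) * (i + j)| ≤ 2 * (ℓ : ℝ) ^ 2 := by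
      rw [abs_mul, abs_mul, abs_of_nonneg hx0, abs_of_nonneg hl10]
      have b2 : |i + j| ≤ 2 := by
        rw [abs_le]
        constructor <;> linarith [hI1.1, hI1.2, hJ1.1, hJ1.2]
      calc x * (ℓ - 1) * |i + j| ≤ ℓ * ℓ * 2 := by
            apply mul_le_mul _ b2 (abs_nonneg _) (by positivity)
            exact mul_le_mul hx (by linarith) hl10 hl0.le
        _ = _ := by ring
    have b3 : |i * j * (ℓ - 1)| ≤ (ℓ : ℝ) ^ 2 := by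
      rw [abs_mul, abs_mul, abs_of_nonneg hl10]
      have b4 : |i| * |j| ≤ 1 := mul_le_one₀ (abs_le.2 hI1) (abs_nonneg _) (abs_le.2 hJ1)
      calc |i| * |j| * (ℓ - 1) ≤ 1 * ℓ := mul_le_mul b4 (by linarith) hl10 (by norm_num)
        _ ≤ _ := by nlinarith
    have b5 : |-x ^ 2| ≤ (ℓ : ℝ) ^ 2 := by
      rw [abs_neg, abs_of_nonneg (by positivity)]
      exact hx2
    refine (abs_add_three _ _ _).trans ?_
    linarith
  have h5 : (ℓ : ℝ) ^ 2 * |(N : ℝ) - ℓ / (q : ℝ) ^ 2| ≤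
      (ℓ : ℝ) ^ 2 * (8 * Real.sqrt ℓ * (1 + Real.log ℓ) ^ 2) := by
    have e1 : (ℓ : ℝ) ^ 2 * |(N : ℝ) - ℓ / (q : ℝ) ^ 2| =
        |((ℓ : ℝ) ^ 2 * N - I * J * (ℓ - 1)) +
          ((I : ℝ) * J * (ℓ - 1) - (ℓ : ℝ) ^ 2 * (ℓ / (q : ℝ) ^ 2))| := by
      have : (ℓ : ℝ) ^ 2 = |(ℓ : ℝ) ^ 2| := (abs_of_pos (by positivity)).symm
      rw [this, ← abs_mul, ← this]
      congr 1
      ring
    rw [e1]
    refine (abs_add_le _ _).trans ((add_le_add h1 h4).trans ?_)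
    obtain ⟨g, hg⟩ : ∃ g : ℝ, g = 1 + Real.log ℓ := ⟨_, rfl⟩
    rw [← hg]
    have hg1 : 1 ≤ g := by linarith
    have hsg : 1 ≤ Real.sqrt ℓ * g ^ 2 := by
      have : 1 ≤ g ^ 2 := one_le_pow₀ hg1
      nlinarith
    have hgs : g ≤ Real.sqrt ℓ * g ^ 2 := by
      have h6 : g ≤ g ^ 2 := by nlinarith
      have h7 : g ^ 2 ≤ Real.sqrt ℓ * g ^ 2 := le_mul_of_one_le_left (by positivity) hsq
      linarith
    have hl2 : (0 : ℝ) ≤ (ℓ : ℝ) ^ 2 := by positivity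
    have k1 := mul_le_mul_of_nonneg_left hsg hl2
    have k2 := mul_le_mul_of_nonneg_left hgs hl2
    have e2 : 2 * (ℓ : ℝ) * (ℓ * g) + 2 * Real.sqrt ℓ * (ℓ * g) ^ 2 + 4 * (ℓ : ℝ) ^ 2 =
        2 * ((ℓ : ℝ) ^ 2 * g) + 2 * ((ℓ : ℝ) ^ 2 * (Real.sqrt ℓ * g ^ 2)) +
          4 * ((ℓ : ℝ) ^ 2 * 1) := by ring
    have e3 : (ℓ : ℝ) ^ 2 * (8 * Real.sqrt ℓ * g ^ 2) =
      8 * ((ℓ : ℝ) ^ 2 * (Real.sqrt ℓ * g ^ 2)) := by ring
    rw [e2, e3]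
    linarith
  exact le_of_mul_le_mul_left h5 (by positivity)

end

end Pool.Agent.Y887.QK
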