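import Mathlib
import Pool.Agent.Y887.QK.Eqd

/-!
Points of the modular hyperbola with prescribed classes modulo several primes; local densities of the
values of the forms.
-/

set_option autoImplicit false

namespace Pool.Agent.Y887.QK

open Finset

/-- Chinese remainder theorem for pairs -/
theorem exists_cls (Ω : (p : ℕ) → Finset (ZMod p × ZMod p)) (U : Finset ℕ)
    (hU : ∀ p ∈ U, p.Prime) : ∀ q : ℕ, q = ∏ p ∈ U, p → ∃ C : Finset (ZMod q × ZMod q),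
      C.card = ∏ p ∈ U, (Ω p).card ∧ ∀ y y' : ℕ,
        (((y : ZMod q), (y' : ZMod q)) ∈ C ↔ ∀ p ∈ U, ((y : ZMod p), (y' : ZMod p)) ∈ Ω p) := by
  classical
  induction U using Finset.induction_on with
  | empty =>
    intro q hq
    rw [prod_empty] at hq
    subst hq
    refine ⟨{(0, 0)}, by simp, ?_⟩
    intro y y'
    simp only [notMem_empty, false_imp_iff, implies_true, iff_true]
    rw [mem_singleton]
    exact Subsingleton.elim _ _
  | insert p U hp ih =>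
    intro q' hq'
    obtain ⟨q, hq⟩ : ∃ q, q = ∏ p ∈ U, p := ⟨_, rfl⟩
    obtain ⟨C, hC1, hC2⟩ := ih (fun p hp => hU p (mem_insert_of_mem hp)) q hq
    have hpp := hU p (mem_insert_self _ _)
    have hcop : Nat.Coprime p q := by
      rw [hq]
      apply Nat.Coprime.prod_right
      intro p' hp'
      rw [Nat.coprime_primes hpp (hU p' (mem_insert_of_mem hp'))]
      rintro rfl
      exact hp hp'
    rw [prod_insert hp, ← hq] at hq'
    subst hq'
    obtain ⟨e, he⟩ : ∃ e : ZMod (p * q) ≃+* ZMod p × ZMod q, e = ZMod.chineseRemainder hcop :=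
      ⟨_, rfl⟩
    have hinj : Function.Injective (fun z : (ZMod p × ZMod p) × (ZMod q × ZMod q) =>
        (e.symm (z.1.1, z.2.1), e.symm (z.1.2, z.2.2))) := by
      rintro ⟨⟨a, a'⟩, ⟨b, b'⟩⟩ ⟨⟨d, d'⟩, ⟨f, f'⟩⟩ h
      simp only [Prod.mk.injEq, EmbeddingLike.apply_eq_iff_eq] at h ⊢
      exact ⟨⟨h.1.1, h.2.1⟩, ⟨h.1.2, h.2.2⟩⟩
    refine ⟨(Ω p ×ˢ C).image (fun z : (ZMod p × ZMod p) × (ZMod q × ZMod q) =>
        (e.symm (z.1.1, z.2.1), e.symm (z.1.2, z.2.2))), ?_, ?_⟩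
    · rw [card_image_of_injective _ hinj, card_product, hC1, prod_insert hp]
    · intro y y'
      have hy : ∀ y : ℕ, ((y : ℕ) : ZMod (p * q)) = e.symm ((y : ZMod p), (y : ZMod q)) := by
        intro y
        rw [← map_natCast e.symm y]
        rfl
      rw [hy, hy, mem_image]
      constructor
      · rintro ⟨⟨⟨a, a'⟩, ⟨b, b'⟩⟩, hz, h⟩
        rw [mem_product] at hz
        simp only [Prod.mk.injEq, EmbeddingLike.apply_eq_iff_eq] at h hz
        obtain ⟨⟨rfl, rfl⟩, ⟨rfl, rfl⟩⟩ := h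
        intro p' hp'
        rcases mem_insert.1 hp' with rfl | h1
        · exact hz.1
        · exact (hC2 y y').1 hz.2 p' h1
      · intro h
        refine ⟨(((y : ZMod p), (y' : ZMod p)), ((y : ZMod q), (y' : ZMod q))), ?_, rfl⟩
        rw [mem_product]
        exact ⟨h p (mem_insert_self _ _),
          (hC2 y y').2 fun p' hp' => h p' (mem_insert_of_mem hp')⟩

section

variable {ℓ : ℕ} [Fact ℓ.Prime]

/-- first coordinate of a point of the hyperbola -/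
def bv (x : (ZMod ℓ)ˣ) : ℕ := (x : ZMod ℓ).val

/-- second coordinate of a point of the hyperbola -/
def vv (c : (ZMod ℓ)ˣ) (x : (ZMod ℓ)ˣ) : ℕ := ((c * x⁻¹ : (ZMod ℓ)ˣ) : ZMod ℓ).val

/-- the number of points in given classes -/
theorem cnt_cls (c : (ZMod ℓ)ˣ) (U : Finset ℕ) (hU : ∀ p ∈ U, p.Prime)
    (hq : ∏ p ∈ U, p < ℓ) (Ω : (p : ℕ) → Finset (ZMod p × ZMod p)) :
    |(((univ : Finset (ZMod ℓ)ˣ).filter (fun x : (ZMod ℓ)ˣ =>
      ∀ p ∈ U, ((bv x : ZMod p), (vv c x : ZMod p)) ∈ Ω p)).card : ℝ) -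
        ℓ * ∏ p ∈ U, ((Ω p).card / (p : ℝ) ^ 2)| ≤
      (∏ p ∈ U, ((Ω p).card : ℝ)) * (8 * Real.sqrt ℓ * (1 + Real.log ℓ) ^ 2) := by
  classical
  obtain ⟨q, hqd⟩ : ∃ q, q = ∏ p ∈ U, p := ⟨_, rfl⟩
  obtain ⟨C, hC1, hC2⟩ := exists_cls Ω U hU q hqd
  rw [← hqd] at hq
  have hq0 : 0 < q := by
    rw [hqd]
    exact prod_pos fun p hp => (hU p hp).pos
  have : NeZero q := ⟨hq0.ne'⟩
  obtain ⟨S, hS⟩ : ∃ S : Finset (ZMod ℓ)ˣ, S = (univ : Finset (ZMod ℓ)ˣ).filter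
      (fun x : (ZMod ℓ)ˣ => ∀ p ∈ U, ((bv x : ZMod p), (vv c x : ZMod p)) ∈ Ω p) := ⟨_, rfl⟩
  rw [← hS]
  obtain ⟨E, hE⟩ : ∃ E : ℝ, E = 8 * Real.sqrt ℓ * (1 + Real.log ℓ) ^ 2 := ⟨_, rfl⟩
  rw [← hE]
  have hmaps : ∀ x ∈ S, (((bv x : ℕ) : ZMod q), ((vv c x : ℕ) : ZMod q)) ∈ C := by
    intro x hx
    rw [hS, mem_filter] at hx
    exact (hC2 _ _).2 hx.2
  have h1 := card_eq_sum_card_fiberwise (f := fun x : (ZMod ℓ)ˣ =>
    (((bv x : ℕ) : ZMod q), ((vv c x : ℕ) : ZMod q))) (s := S) (t := C) hmaps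
  have h2 : ∀ z ∈ C, |(((S.filter (fun x : (ZMod ℓ)ˣ =>
      (((bv x : ℕ) : ZMod q), ((vv c x : ℕ) : ZMod q)) = z)).card : ℝ)) - ℓ / (q : ℝ) ^ 2| ≤ E := by
    rintro ⟨β, ν⟩ hz
    have h3 := equid (ℓ := ℓ) q hq c β ν
    rw [← hE] at h3
    have h4 : S.filter (fun x : (ZMod ℓ)ˣ =>
        (((bv x : ℕ) : ZMod q), ((vv c x : ℕ) : ZMod q)) = (β, ν)) =
        (univ : Finset (ZMod ℓ)ˣ).filter (fun x : (ZMod ℓ)ˣ => (((x : ZMod ℓ).val : ℕ) : ZMod q) = β ∧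
      ((((c * x⁻¹ : (ZMod ℓ)ˣ) : ZMod ℓ).val : ℕ) : ZMod q) = ν) := by
      ext x
      rw [mem_filter, mem_filter, Prod.mk.injEq, hS, mem_filter]
      constructor
      · rintro ⟨-, h5⟩
        exact ⟨mem_univ _, h5⟩
      · rintro ⟨-, h5⟩
        refine ⟨⟨mem_univ _, ?_⟩, h5⟩
        apply (hC2 _ _).1
        have h6 : (((bv x : ℕ) : ZMod q), ((vv c x : ℕ) : ZMod q)) = (β, ν) := by
          rw [Prod.mk.injEq]
          exact h5
        rw [h6]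
        exact hz
    rw [h4]
    exact h3
  have h3 : (S.card : ℝ) - C.card * (ℓ / (q : ℝ) ^ 2) =
      ∑ z ∈ C, ((((S.filter (fun x : (ZMod ℓ)ˣ =>
      (((bv x : ℕ) : ZMod q), ((vv c x : ℕ) : ZMod q)) = z)).card : ℝ)) - ℓ / (q : ℝ) ^ 2) := by
    rw [sum_sub_distrib, sum_const, nsmul_eq_mul, h1]
    push_cast
    rfl
  have h4 : (ℓ : ℝ) * ∏ p ∈ U, ((Ω p).card / (p : ℝ) ^ 2) = C.card * (ℓ / (q : ℝ) ^ 2) := by
    rw [hC1, prod_div_distrib, prod_pow, hqd]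
    push_cast
    ring
  rw [h4, h3]
  refine (abs_sum_le_sum_abs _ _).trans ((sum_le_sum h2).trans ?_)
  rw [sum_const, nsmul_eq_mul, hC1]
  push_cast
  exact le_rfl

end

/-- the pairs of classes for which a prime divides the value of the form at `x` -/
def Om (a q2 lam x p : ℕ) [NeZero p] : Finset (ZMod p × ZMod p) :=
  (univ : Finset (ZMod p × ZMod p)).filter (fun z =>
    ((lam : ZMod p) * ((lam : ZMod p) * x + q2 * z.1)) ^ 2 +
      (a : ZMod p) * ((q2 : ZMod p) * z.2 * ((lam : ZMod p) * x + q2 * z.1) + 1) ^ 2 = 0)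

theorem Om_card {a q2 lam x p : ℕ} [Fact p.Prime] (ha : ¬ p ∣ a) (hq : ¬ p ∣ q2) :
    (Om a q2 lam x p).card ≤ 2 * p := by
  classical
  have ha' : (a : ZMod p) ≠ 0 := fun h => ha ((ZMod.natCast_eq_zero_iff a p).1 h)
  have hq' : (q2 : ZMod p) ≠ 0 := fun h => hq ((ZMod.natCast_eq_zero_iff q2 p).1 h)
  have h1 : ∀ β ∈ (univ : Finset (ZMod p)), ((Om a q2 lam x p).filter (fun z => z.1 = β)).card ≤ 2 := by
    intro β _
    by_contra hcon
    push Not at hcon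
    obtain ⟨z1, h1, z2, h2, z3, h3, h12, h13, h23⟩ := two_lt_card.1 hcon
    unfold Om at h1 h2 h3
    rw [mem_filter, mem_filter] at h1 h2 h3
    obtain ⟨⟨-, e1⟩, f1⟩ := h1
    obtain ⟨⟨-, e2⟩, f2⟩ := h2
    obtain ⟨⟨-, e3⟩, f3⟩ := h3
    rw [f1] at e1
    rw [f2] at e2
    rw [f3] at e3
    obtain ⟨w, hw⟩ : ∃ w : ZMod p, w = (lam : ZMod p) * x + q2 * β := ⟨_, rfl⟩
    rw [← hw] at e1 e2 e3
    have hw0 : w ≠ 0 := by
      intro h0
      rw [h0] at e1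
      apply ha'
      have : (a : ZMod p) = ((lam : ZMod p) * 0) ^ 2 + a * ((q2 : ZMod p) * z1.2 * 0 + 1) ^ 2 := by
        ring
      rw [this, e1]
    have key : ∀ z z' : ZMod p × ZMod p, z.1 = β → z'.1 = β → z ≠ z' →
        ((lam : ZMod p) * w) ^ 2 + a * ((q2 : ZMod p) * z.2 * w + 1) ^ 2 = 0 →
        ((lam : ZMod p) * w) ^ 2 + a * ((q2 : ZMod p) * z'.2 * w + 1) ^ 2 = 0 →
        (q2 : ZMod p) * w * (z.2 + z'.2) + 2 = 0 := by
      intro z z' g1 g2 hne g3 g4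
      have g5 : (a : ZMod p) * (((q2 : ZMod p) * w) * ((z.2 - z'.2) *
          ((q2 : ZMod p) * w * (z.2 + z'.2) + 2))) = 0 := by
        have : (a : ZMod p) * (((q2 : ZMod p) * w) * ((z.2 - z'.2) *
          ((q2 : ZMod p) * w * (z.2 + z'.2) + 2))) =
          (((lam : ZMod p) * w) ^ 2 + a * ((q2 : ZMod p) * z.2 * w + 1) ^ 2) -
          (((lam : ZMod p) * w) ^ 2 + a * ((q2 : ZMod p) * z'.2 * w + 1) ^ 2) := by ring
        rw [this, g3, g4, sub_zero]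
      have g6 := (mul_eq_zero.1 g5).resolve_left ha'
      have g7 := (mul_eq_zero.1 g6).resolve_left (mul_ne_zero hq' hw0)
      refine (mul_eq_zero.1 g7).resolve_left ?_
      intro g8
      apply hne
      apply Prod.ext
      · rw [g1, g2]
      · exact sub_eq_zero.1 g8
    have k12 := key z1 z2 f1 f2 h12 e1 e2
    have k13 := key z1 z3 f1 f3 h13 e1 e3
    have k : (q2 : ZMod p) * w * (z2.2 - z3.2) = 0 := by
      have : (q2 : ZMod p) * w * (z2.2 - z3.2) = ((q2 : ZMod p) * w * (z1.2 + z2.2) + 2) -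
        ((q2 : ZMod p) * w * (z1.2 + z3.2) + 2) := by ring
      rw [this, k12, k13, sub_zero]
    have k' := (mul_eq_zero.1 k).resolve_left (mul_ne_zero hq' hw0)
    apply h23
    apply Prod.ext
    · rw [f2, f3]
    · exact sub_eq_zero.1 k'
  have h2 := card_eq_sum_card_fiberwise (f := fun z : ZMod p × ZMod p => z.1)
    (s := Om a q2 lam x p) (t := univ) (fun z _ => mem_univ _)
  rw [h2]
  refine (sum_le_sum h1).trans ?_
  rw [sum_const, card_univ, ZMod.card, smul_eq_mul, mul_comm]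

end Pool.Agent.Y887.QK
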