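import Mathlib

/-!
Statements for the sieve on the points of modular hyperbolas (project T2). Import: Mathlib only.
-/

set_option autoImplicit false

namespace Pool.Agent.Y887.QKS

open Finset

/-- first coordinate of a point of the hyperbola -/
def bv {ℓ : ℕ} (x : (ZMod ℓ)ˣ) : ℕ := (x : ZMod ℓ).val

/-- second coordinate of a point of the hyperbola -/
def vv {ℓ : ℕ} (c : (ZMod ℓ)ˣ) (x : (ZMod ℓ)ˣ) : ℕ := ((c * x⁻¹ : (ZMod ℓ)ˣ) : ZMod ℓ).val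

/-- primes up to `z` -/
def pz (z : ℕ) : Finset ℕ := (Icc 1 z).filter Nat.Prime

/-- PROVED (Cls.lean, Weil bound for Kloosterman sums): the number of points in given classes -/
def S_cnt : Prop := ∀ (ℓ : ℕ) [Fact ℓ.Prime] (c : (ZMod ℓ)ˣ) (U : Finset ℕ), (∀ p ∈ U, p.Prime) →
    ∏ p ∈ U, p < ℓ → ∀ Ω : (p : ℕ) → Finset (ZMod p × ZMod p),
    |(((univ : Finset (ZMod ℓ)ˣ).filter (fun x : (ZMod ℓ)ˣ =>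
      ∀ p ∈ U, ((bv x : ZMod p), (vv c x : ZMod p)) ∈ Ω p)).card : ℝ) -
        ℓ * ∏ p ∈ U, ((Ω p).card / (p : ℝ) ^ 2)| ≤
      (∏ p ∈ U, ((Ω p).card : ℝ)) * (8 * Real.sqrt ℓ * (1 + Real.log ℓ) ^ 2)

/-- PROVED (Flk.lean): the fundamental lemma in dimension `κ`, level `z ^ (B1 * κ)` -/
def S_FL (B1 : ℕ) : Prop := ∀ κ : ℕ, 1 ≤ κ → ∀ z : ℕ, 2 ≤ z → ∀ P : Finset ℕ,
    (∀ p ∈ P, p.Prime ∧ p ≤ z) → ∀ g : ℕ → ℝ,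
    (∀ p ∈ P, 0 ≤ g p ∧ g p ≤ 1 / 2 ∧ g p ≤ κ / (p : ℝ)) →
    ∀ {Ω : Type} (S : Finset Ω) (n : Ω → ℕ) (X : ℝ), 0 ≤ X →
    |((S.filter (fun ω => ∀ p ∈ P, ¬ p ∣ n ω)).card : ℝ) - X * ∏ p ∈ P, (1 - g p)| ≤
      1 / 4 * (X * ∏ p ∈ P, (1 - g p)) + (Nat.log 2 z + 2) *
        ∑ U ∈ P.powerset.filter (fun U => ∏ p ∈ U, p ≤ z ^ (B1 * κ)),
          |((S.filter (fun ω => ∀ p ∈ U, p ∣ n ω)).card : ℝ) - X * ∏ p ∈ U, g p|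

/-- PROVED: sums of reciprocals of primes -/
def S_rec (L : ℕ) : Prop := ∀ (J n : ℕ) (P : Finset ℕ),
    (∀ q ∈ P, q.Prime ∧ 2 ^ 2 ^ J < q ∧ q < 2 ^ 2 ^ (J + n)) →
    ∑ q ∈ P, (1 : ℝ) / q ≤ L * n

/-- PROVED (Vlo.lean): lower bound for the sieve product -/
def S_V : Prop := ∀ κ : ℕ, ∃ K N0 : ℕ, ∀ z : ℕ, N0 ≤ z → ∀ g : ℕ → ℝ,
    (∀ p : ℕ, p.Prime → 0 ≤ g p ∧ g p ≤ κ / (p : ℝ)) →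
    (∀ p : ℕ, p.Prime → p ≤ 2 * κ → g p = 0) →
    1 / Real.log z ^ K ≤ ∏ p ∈ pz z, (1 - g p)

/-- the hypotheses on a system of `κ` functions on the hyperbola -/
structure Sys (ℓ : ℕ) (c : (ZMod ℓ)ˣ) (κ Ex : ℕ) (ι : Type) [Fintype ι]
    (V : ι → (ZMod ℓ)ˣ → ℕ) (Ω : ι → (p : ℕ) → Finset (ZMod p × ZMod p)) : Prop where
  card : Fintype.card ι = κ
  pos : 1 ≤ κ
  iff : ∀ i p, p.Prime → p < ℓ → ∀ x,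
    (p ∣ V i x ↔ ((bv x : ZMod p), (vv c x : ZMod p)) ∈ Ω i p)
  two : ∀ i p, p.Prime → (Ω i p).card ≤ 2 * p
  small : ∀ i p, p.Prime → p ≤ 4 * κ → Ω i p = ∅
  size : ∀ i x, 1 ≤ V i x ∧ V i x ≤ ℓ ^ Ex

/-- union of the classes -/
def OU {ι : Type} [Fintype ι] (Ω : ι → (p : ℕ) → Finset (ZMod p × ZMod p)) (p : ℕ) :
    Finset (ZMod p × ZMod p) := (univ : Finset ι).biUnion (fun i => Ω i p)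

/-- the expected number of points without prime factors up to `z` -/
noncomputable def Wd {ι : Type} [Fintype ι] (Ω : ι → (p : ℕ) → Finset (ZMod p × ZMod p))
    (ℓ z : ℕ) : ℝ := ℓ * ∏ p ∈ pz z, (1 - ((OU Ω p).card : ℝ) / (p : ℝ) ^ 2)

/-- the error of one sieve -/
noncomputable def Del (ℓ z κ B1 : ℕ) : ℝ :=
  ((Nat.log 2 z : ℝ) + 2) * (2 * (z : ℝ) ^ (6 * κ * B1)) *
    (8 * Real.sqrt ℓ * (1 + Real.log ℓ) ^ 2)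

open Classical in
/-- JOB A1: the sieve, quantitative core -/
def S_core : Prop := ∀ (B1 L Ex κ ℓ J n s R1 : ℕ) [Fact ℓ.Prime] (c : (ZMod ℓ)ˣ) (ι : Type)
    [Fintype ι] (V : ι → (ZMod ℓ)ˣ → ℕ) (Ω : ι → (p : ℕ) → Finset (ZMod p × ZMod p)),
    Sys ℓ c κ Ex ι V Ω → 2 ^ 2 ^ J ≤ s → s ^ 16 ≤ ℓ → ℓ < (2 * s) ^ 16 → 2 ^ 16 ≤ s →
    ℓ < 2 ^ 2 ^ (J + n) → (2 ^ 2 ^ J) ^ (2 * κ * B1) ≤ s →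
    64 * (s : ℝ) ^ 2 * Del ℓ (2 ^ 2 ^ J) κ B1 ≤ Wd Ω ℓ (2 ^ 2 ^ J) →
    10 * (L * n) + 88 * Ex + 1 ≤ R1 →
    Wd Ω ℓ (2 ^ 2 ^ J) / 8 ≤
      (((univ : Finset (ZMod ℓ)ˣ).filter (fun x => ∑ i, (V i x).primeFactors.card ≤ κ * R1 ∧
        ∀ i, ∀ p : ℕ, p.Prime → p ∣ V i x → 2 ^ 2 ^ J < p)).card : ℝ)

open Classical in
/-- JOB A2: the sieve -/
def S_sieve : Prop := ∀ Ex : ℕ, ∃ C1 : ℕ, 1 ≤ C1 ∧ ∀ κ : ℕ, 1 ≤ κ → ∃ K L0 : ℕ,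
    ∀ (ℓ : ℕ) [Fact ℓ.Prime], L0 ≤ ℓ → ∀ (c : (ZMod ℓ)ˣ) (ι : Type) [Fintype ι]
      (V : ι → (ZMod ℓ)ˣ → ℕ) (Ω : ι → (p : ℕ) → Finset (ZMod p × ZMod p)),
      Sys ℓ c κ Ex ι V Ω →
      (ℓ : ℝ) / Real.log ℓ ^ K ≤
        (((univ : Finset (ZMod ℓ)ˣ).filter (fun x =>
          ∑ i, (V i x).primeFactors.card ≤ κ * (C1 * (Nat.log 2 κ + 1)) ∧
          ∀ i, ∀ p : ℕ, p.Prime → p ∣ V i x → ℓ < p ^ K)).card : ℝ)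

/-- the forms -/
def dK (Q2 ℓ b v : ℕ) : ℕ := (1 + (Q2 * v) * (Q2 * b)) / ℓ

def alK (a Q2 ℓ v : ℕ) : ℕ := ℓ ^ 2 + a * (Q2 * v) ^ 2

def kK (a Q2 ℓ b v : ℕ) : ℕ := ℓ * (Q2 * b) + a * (Q2 * v) * dK Q2 ℓ b v

def gaK (a Q2 ℓ b v : ℕ) : ℕ := (Q2 * b) ^ 2 + a * dK Q2 ℓ b v ^ 2

/-- the pairs of classes for which a prime divides the value of the form at `X` -/
def Om (a Q2 lam X p : ℕ) [NeZero p] : Finset (ZMod p × ZMod p) :=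
  (univ : Finset (ZMod p × ZMod p)).filter (fun z =>
    ((lam : ZMod p) * ((lam : ZMod p) * X + Q2 * z.1)) ^ 2 +
      (a : ZMod p) * ((Q2 : ZMod p) * z.2 * ((lam : ZMod p) * X + Q2 * z.1) + 1) ^ 2 = 0)

/-- JOB B1: the properties of the forms, for each point of the hyperbola -/
def S_form : Prop := ∀ (a Q2 ℓ : ℕ) [Fact ℓ.Prime] (c x : (ZMod ℓ)ˣ), 0 < a → 0 < Q2 → Q2 < ℓ →
    a < ℓ → ℓ ≡ 1 [MOD Q2] → (c : ZMod ℓ) * (Q2 : ZMod ℓ) ^ 2 = -1 → ∀ b v : ℕ, b = bv x →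
    v = vv c x →
    (0 < b ∧ b < ℓ ∧ 0 < v ∧ v < ℓ ∧ ℓ * dK Q2 ℓ b v = 1 + (Q2 * v) * (Q2 * b)) ∧
    (alK a Q2 ℓ v ≡ 1 [MOD Q2] ∧ kK a Q2 ℓ b v ≡ 0 [MOD Q2] ∧
      (Q2 : ℤ) ∣ (gaK a Q2 ℓ b v : ℤ) + (-(a : ℤ))) ∧
    (kK a Q2 ℓ b v : ℤ) ^ 2 - alK a Q2 ℓ v * gaK a Q2 ℓ b v = -(a : ℤ) ∧
    (0 < gaK a Q2 ℓ b v ∧ alK a Q2 ℓ v ≤ 16 * (a + 1) * Q2 ^ 4 * ℓ ^ 2 ∧
      kK a Q2 ℓ b v ≤ 16 * (a + 1) * Q2 ^ 4 * ℓ ^ 2 ∧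
      gaK a Q2 ℓ b v ≤ 16 * (a + 1) * Q2 ^ 4 * ℓ ^ 2) ∧
    ∀ X p : ℕ, (hp : p.Prime) → p < ℓ →
      haveI : NeZero p := ⟨hp.ne_zero⟩
      (p ∣ alK a Q2 ℓ v * X ^ 2 + 2 * kK a Q2 ℓ b v * X + gaK a Q2 ℓ b v ↔
        ((b : ZMod p), (v : ZMod p)) ∈ Om a Q2 ℓ X p)

/-- JOB B2: the form determines the prime and the point -/
def S_inj : Prop := ∀ (a Q2 ℓ ℓ' b v b' v' : ℕ), 0 < a → 0 < Q2 → ℓ.Prime → ℓ'.Prime →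
    Q2 < ℓ → a < ℓ → Q2 < ℓ' → a < ℓ' → 0 < b → b < ℓ → 0 < v → v < ℓ →
    0 < b' → b' < ℓ' → 0 < v' → v' < ℓ' →
    ℓ * dK Q2 ℓ b v = 1 + (Q2 * v) * (Q2 * b) →
    ℓ' * dK Q2 ℓ' b' v' = 1 + (Q2 * v') * (Q2 * b') →
    alK a Q2 ℓ v = alK a Q2 ℓ' v' →
    (alK a Q2 ℓ v : ℤ) ∣ (kK a Q2 ℓ b v : ℤ) - kK a Q2 ℓ' b' v' →
    ℓ = ℓ' ∧ v = v' ∧ b = b'

end Pool.Agent.Y887.QKS
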