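import Mathlib
import Pool.Agent.Y887.QK.Stm
import Pool.Agent.Y887.QK.Cls
import Pool.Agent.Y887.QF.Frm

/-!
The forms attached to one prime.
-/

set_option autoImplicit false

namespace Pool.Agent.Y887.QKF

open Finset Filter Pool.Agent.Y887.QE Pool.Agent.Y887.QF Pool.Agent.Y887.QKS

theorem bv_inj {ℓ : ℕ} [NeZero ℓ] : Function.Injective (bv (ℓ := ℓ)) := by
  intro x y h
  exact Units.ext (ZMod.val_injective ℓ h)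

theorem Om_two {a Q2 lam X p : ℕ} [Fact p.Prime] (ha : ¬ p ∣ a) (hq : ¬ p ∣ Q2) :
    (Om a Q2 lam X p).card ≤ 2 * p := by
  have h := Pool.Agent.Y887.QK.Om_card (a := a) (q2 := Q2) (lam := lam) (x := X) (p := p) ha hq
  exact h

open Classical in
/-- the forms of one prime -/
theorem one_l (hsieve : S_sieve) (hform : S_form) : ∃ C2 : ℕ, 1 ≤ C2 ∧ ∀ κ : ℕ, 1 ≤ κ → ∃ K : ℕ,
    ∀ a Q' : ℕ, 0 < a → 0 < Q' → (∀ p : ℕ, p.Prime → p ≤ 4 * κ → p ∣ Q') →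
    (∀ p : ℕ, p.Prime → p ∣ a → p ∣ Q') →
    ∀ (ι : Type) [Fintype ι], Fintype.card ι = κ → ∀ (X c : ι → ℕ), (∀ i, c i ∣ Q') →
    (∀ al k ga : ℕ, al ≡ 1 [MOD Q' ^ 2] → k ≡ 0 [MOD Q' ^ 2] →
      ((Q' ^ 2 : ℕ) : ℤ) ∣ ga + (-(a : ℤ)) → ∀ i, c i ∣ pv al k ga (X i) ∧
        ∀ p : ℕ, p.Prime → p ∣ Q' → ¬ p ∣ pv al k ga (X i) / c i) →
    ∃ L0 : ℕ, ∀ ℓ : ℕ, ℓ.Prime → L0 ≤ ℓ → ℓ ≡ 1 [MOD Q' ^ 2] → ∃ (G : Finset ℕ) (v : ℕ → ℕ),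
      (ℓ : ℝ) / Real.log ℓ ^ K ≤ (G.card : ℝ) ∧ ∀ b ∈ G,
       (0 < b ∧ b < ℓ ∧ 0 < v b ∧ v b < ℓ ∧
         ℓ * dK (Q' ^ 2) ℓ b (v b) = 1 + (Q' ^ 2 * v b) * (Q' ^ 2 * b)) ∧
       (alK a (Q' ^ 2) ℓ (v b) ≡ 1 [MOD Q' ^ 2] ∧ kK a (Q' ^ 2) ℓ b (v b) ≡ 0 [MOD Q' ^ 2] ∧
         ((Q' ^ 2 : ℕ) : ℤ) ∣ (gaK a (Q' ^ 2) ℓ b (v b) : ℤ) + (-(a : ℤ))) ∧
       (kK a (Q' ^ 2) ℓ b (v b) : ℤ) ^ 2 - alK a (Q' ^ 2) ℓ (v b) * gaK a (Q' ^ 2) ℓ b (v b) =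
         -(a : ℤ) ∧
       (0 < gaK a (Q' ^ 2) ℓ b (v b) ∧
         alK a (Q' ^ 2) ℓ (v b) ≤ 16 * (a + 1) * (Q' ^ 2) ^ 4 * ℓ ^ 2 ∧
         kK a (Q' ^ 2) ℓ b (v b) ≤ 16 * (a + 1) * (Q' ^ 2) ^ 4 * ℓ ^ 2 ∧
         gaK a (Q' ^ 2) ℓ b (v b) ≤ 16 * (a + 1) * (Q' ^ 2) ^ 4 * ℓ ^ 2) ∧
       (∑ i, (pv (alK a (Q' ^ 2) ℓ (v b)) (kK a (Q' ^ 2) ℓ b (v b)) (gaK a (Q' ^ 2) ℓ b (v b))
         (X i) / c i).primeFactors.card ≤ κ * (C2 * (Nat.log 2 κ + 1))) ∧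
       ∀ i, ∀ p : ℕ, p.Prime → p ∣ pv (alK a (Q' ^ 2) ℓ (v b)) (kK a (Q' ^ 2) ℓ b (v b))
         (gaK a (Q' ^ 2) ℓ b (v b)) (X i) / c i → ℓ < p ^ K := by
  obtain ⟨C2, hC2, hS⟩ := hsieve 3
  refine ⟨C2, hC2, ?_⟩
  intro κ hκ
  obtain ⟨K, L1, hS⟩ := hS κ hκ
  refine ⟨K, ?_⟩
  intro a Q' ha hQ' hsm haQ ι _ hcard X c hcQ hloc
  obtain ⟨Q2, hQ2⟩ : ∃ Q2 : ℕ, Q2 = Q' ^ 2 := ⟨_, rfl⟩
  have hQ2pos : 0 < Q2 := by rw [hQ2]; exact pow_pos hQ' 2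
  rw [← hQ2] at hloc ⊢
  obtain ⟨Sx, hSx⟩ : ∃ Sx : ℕ, Sx = ∑ i, X i := ⟨_, rfl⟩
  have hXle : ∀ i, X i ≤ Sx := by
    intro i
    rw [hSx]
    exact single_le_sum (f := fun i => X i) (fun _ _ => Nat.zero_le _) (mem_univ i)
  refine ⟨L1 + Q2 + a + 16 * (a + 1) * Q2 ^ 4 * (Sx + 1) ^ 2 + 2, ?_⟩
  intro ℓ hℓ hL hmod
  have : Fact ℓ.Prime := ⟨hℓ⟩
  have hQℓ : Q2 < ℓ := by omega
  have haℓ : a < ℓ := by omega
  have hQ0 : (Q2 : ZMod ℓ) ≠ 0 := by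
    intro h
    have := Nat.le_of_dvd hQ2pos ((ZMod.natCast_eq_zero_iff Q2 ℓ).1 h)
    omega
  obtain ⟨cu, hcu⟩ : ∃ cu : (ZMod ℓ)ˣ, (cu : ZMod ℓ) * (Q2 : ZMod ℓ) ^ 2 = -1 := by
    refine ⟨Units.mk0 (-((Q2 : ZMod ℓ) ^ 2)⁻¹) (neg_ne_zero.2 (inv_ne_zero (pow_ne_zero 2 hQ0))), ?_⟩
    rw [Units.val_mk0, neg_mul, inv_mul_cancel₀ (pow_ne_zero 2 hQ0)]
  obtain ⟨V, hV⟩ : ∃ V : ι → (ZMod ℓ)ˣ → ℕ, ∀ i x, V i x = pv (alK a Q2 ℓ (vv cu x))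
      (kK a Q2 ℓ (bv x) (vv cu x)) (gaK a Q2 ℓ (bv x) (vv cu x)) (X i) / c i :=
    ⟨_, fun _ _ => rfl⟩
  obtain ⟨Ω, hΩ⟩ : ∃ Ω : ι → (p : ℕ) → Finset (ZMod p × ZMod p), ∀ i p, Ω i p =
      if hp : p.Prime then (if p ∣ Q' then ∅ else
        (haveI : NeZero p := ⟨hp.ne_zero⟩; Om a Q2 ℓ (X i) p)) else ∅ := ⟨_, fun _ _ => rfl⟩
  have hf : ∀ x : (ZMod ℓ)ˣ, _ := fun x => hform a Q2 ℓ cu x ha hQ2pos hQℓ haℓ hmod hcu (bv x)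
    (vv cu x) rfl rfl
  have hcpos : ∀ i, 0 < c i := fun i => Nat.pos_of_dvd_of_pos (hcQ i) hQ'
  have hl : ∀ x i, c i ∣ pv (alK a Q2 ℓ (vv cu x)) (kK a Q2 ℓ (bv x) (vv cu x))
      (gaK a Q2 ℓ (bv x) (vv cu x)) (X i) ∧ ∀ p : ℕ, p.Prime → p ∣ Q' → ¬ p ∣ V i x := by
    intro x i
    obtain ⟨-, ⟨h1, h2, h3⟩, -⟩ := hf x
    rw [hV]
    exact hloc _ _ _ h1 h2 h3 i
  have hsys : Sys ℓ cu κ 3 ι V Ω := by
    refine ⟨hcard, hκ, ?_, ?_, ?_, ?_⟩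
    · intro i p hp hpℓ x
      rw [hΩ, dif_pos hp]
      split_ifs with hd
      · constructor
        · intro h
          exact absurd h ((hl x i).2 p hp hd)
        · intro h
          simp at h
      · obtain ⟨-, -, -, -, h5⟩ := hf x
        rw [← h5 (X i) p hp hpℓ]
        have h6 : pv (alK a Q2 ℓ (vv cu x)) (kK a Q2 ℓ (bv x) (vv cu x))
          (gaK a Q2 ℓ (bv x) (vv cu x)) (X i) = c i * V i x := by
          rw [hV, Nat.mul_div_cancel' (hl x i).1]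
        have h7 : alK a Q2 ℓ (vv cu x) * X i ^ 2 + 2 * kK a Q2 ℓ (bv x) (vv cu x) * X i +
          gaK a Q2 ℓ (bv x) (vv cu x) = c i * V i x := by
          rw [← h6]
          rfl
        rw [h7]
        constructor
        · intro h
          exact h.mul_left _
        · intro h
          rcases (hp.dvd_mul).1 h with h8 | h8
          · exact absurd (h8.trans (hcQ i)) hd
          · exact h8
    · intro i p hp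
      rw [hΩ, dif_pos hp]
      split_ifs with hd
      · simp
      · have : Fact p.Prime := ⟨hp⟩
        apply Om_two
        · intro h
          exact hd (haQ p hp h)
        · intro h
          rw [hQ2] at h
          exact hd (hp.dvd_of_dvd_pow h)
    · intro i p hp hle
      rw [hΩ, dif_pos hp, if_pos (hsm p hp hle)]
    · intro i x
      obtain ⟨-, -, -, ⟨h1, h2, h3, h4⟩, -⟩ := hf x
      have hpos : 0 < pv (alK a Q2 ℓ (vv cu x)) (kK a Q2 ℓ (bv x) (vv cu x))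
          (gaK a Q2 ℓ (bv x) (vv cu x)) (X i) := by
        unfold pv
        omega
      have hle : pv (alK a Q2 ℓ (vv cu x)) (kK a Q2 ℓ (bv x) (vv cu x))
          (gaK a Q2 ℓ (bv x) (vv cu x)) (X i) ≤ ℓ ^ 3 := by
        have h5 : X i + 1 ≤ Sx + 1 := by
          have := hXle i
          omega
        calc pv (alK a Q2 ℓ (vv cu x)) (kK a Q2 ℓ (bv x) (vv cu x))
              (gaK a Q2 ℓ (bv x) (vv cu x)) (X i)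
            = alK a Q2 ℓ (vv cu x) * X i ^ 2 + kK a Q2 ℓ (bv x) (vv cu x) * (2 * X i) +
              gaK a Q2 ℓ (bv x) (vv cu x) * 1 := by unfold pv; ring
          _ ≤ (16 * (a + 1) * Q2 ^ 4 * ℓ ^ 2) * X i ^ 2 + (16 * (a + 1) * Q2 ^ 4 * ℓ ^ 2) * (2 * X i) +
              (16 * (a + 1) * Q2 ^ 4 * ℓ ^ 2) * 1 :=
              Nat.add_le_add (Nat.add_le_add (Nat.mul_le_mul_right _ h2)
                (Nat.mul_le_mul_right _ h3)) (Nat.mul_le_mul_right _ h4)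
          _ = (16 * (a + 1) * Q2 ^ 4 * ℓ ^ 2) * (X i + 1) ^ 2 := by ring
          _ ≤ (16 * (a + 1) * Q2 ^ 4 * ℓ ^ 2) * (Sx + 1) ^ 2 :=
              Nat.mul_le_mul_left _ (Nat.pow_le_pow_left h5 2)
          _ = (16 * (a + 1) * Q2 ^ 4 * (Sx + 1) ^ 2) * ℓ ^ 2 := by ring
          _ ≤ ℓ * ℓ ^ 2 := Nat.mul_le_mul_right _ (by omega)
          _ = ℓ ^ 3 := by ring
      rw [hV]
      refine ⟨?_, (Nat.div_le_self _ _).trans hle⟩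
      exact Nat.div_pos (Nat.le_of_dvd hpos (hl x i).1) (hcpos i)
  have hmain := hS ℓ (by omega) cu ι V Ω hsys
  obtain ⟨F, hF⟩ : ∃ F : Finset (ZMod ℓ)ˣ, F = (univ : Finset (ZMod ℓ)ˣ).filter (fun x =>
          ∑ i, (V i x).primeFactors.card ≤ κ * (C2 * (Nat.log 2 κ + 1)) ∧
          ∀ i, ∀ p : ℕ, p.Prime → p ∣ V i x → ℓ < p ^ K) := ⟨_, rfl⟩
  rw [← hF] at hmain
  obtain ⟨v, hv⟩ : ∃ v : ℕ → ℕ, ∀ x : (ZMod ℓ)ˣ, v (bv x) = vv cu x := by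
    refine ⟨fun b => if h : ∃ x : (ZMod ℓ)ˣ, bv x = b then vv cu h.choose else 0, fun x => ?_⟩
    have h : ∃ y : (ZMod ℓ)ˣ, bv y = bv x := ⟨x, rfl⟩
    simp only [h, dite_true]
    rw [bv_inj h.choose_spec]
  refine ⟨F.image bv, v, ?_, ?_⟩
  · rw [card_image_of_injective _ bv_inj]
    exact hmain
  · intro b hb
    rw [mem_image] at hb
    obtain ⟨x, hx, rfl⟩ := hb
    rw [hF, mem_filter] at hx
    obtain ⟨-, h1, h2⟩ := hx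
    obtain ⟨g1, g2, g3, g4, -⟩ := hf x
    rw [hv]
    simp only [hV] at h1 h2
    exact ⟨g1, g2, g3, g4, h1, h2⟩

end Pool.Agent.Y887.QKF
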