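import Mathlib
import Pool.Agent.Y887.QK.Stm

/-!
Statements for the second part of project T2 (indefinite forms): the sieve on the points of modular
hyperbolas with a restricted second coordinate.
-/

set_option autoImplicit false

namespace Pool.Agent.Y887.QKS

open Finset

/-- (proved by helper887) the number of points in given classes with second coordinate `< Y` -/
def S_cntY : Prop := ∀ (ℓ : ℕ) [Fact ℓ.Prime] (c : (ZMod ℓ)ˣ) (Y : ℕ), Y ≤ ℓ → ∀ (U : Finset ℕ),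
    (∀ p ∈ U, p.Prime) → ∏ p ∈ U, p < ℓ → ∀ Ω : (p : ℕ) → Finset (ZMod p × ZMod p),
    |(((univ : Finset (ZMod ℓ)ˣ).filter (fun x : (ZMod ℓ)ˣ => vv c x < Y ∧
      ∀ p ∈ U, ((bv x : ZMod p), (vv c x : ZMod p)) ∈ Ω p)).card : ℝ) -
        Y * ∏ p ∈ U, ((Ω p).card / (p : ℝ) ^ 2)| ≤
      (∏ p ∈ U, ((Ω p).card : ℝ)) * (8 * Real.sqrt ℓ * (1 + Real.log ℓ) ^ 2)

/-- the hypotheses on a system of `κ` functions on the part `vv c x < Y` of the hyperbola -/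
structure SysY (ℓ : ℕ) (c : (ZMod ℓ)ˣ) (Y κ Ex : ℕ) (ι : Type) [Fintype ι]
    (V : ι → (ZMod ℓ)ˣ → ℕ) (Ω : ι → (p : ℕ) → Finset (ZMod p × ZMod p)) : Prop where
  card : Fintype.card ι = κ
  pos : 1 ≤ κ
  leY : Y ≤ ℓ
  iff : ∀ i p, p.Prime → p < ℓ → ∀ x, vv c x < Y →
    (p ∣ V i x ↔ ((bv x : ZMod p), (vv c x : ZMod p)) ∈ Ω i p)
  two : ∀ i p, p.Prime → (Ω i p).card ≤ 2 * p
  small : ∀ i p, p.Prime → p ≤ 4 * κ → Ω i p = ∅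
  size : ∀ i x, vv c x < Y → 1 ≤ V i x ∧ V i x ≤ ℓ ^ Ex

open Classical in
/-- JOB A1': the sieve, quantitative core (the main term is now `Wd Ω Y z`, that is
`Y * ∏ (1 - g p)`) -/
def S_coreY (B1 L : ℕ) : Prop := ∀ (Ex κ ℓ Y J n s R1 : ℕ) [Fact ℓ.Prime] (c : (ZMod ℓ)ˣ)
    (ι : Type) [Fintype ι] (V : ι → (ZMod ℓ)ˣ → ℕ) (Ω : ι → (p : ℕ) → Finset (ZMod p × ZMod p)),
    SysY ℓ c Y κ Ex ι V Ω → 2 ^ 2 ^ J ≤ s → s ^ 16 ≤ ℓ → ℓ < (2 * s) ^ 16 → 2 ^ 16 ≤ s →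
    ℓ < 2 ^ 2 ^ (J + n) → (2 ^ 2 ^ J) ^ (2 * κ * B1) ≤ s →
    64 * (s : ℝ) ^ 2 * Del ℓ (2 ^ 2 ^ J) κ B1 ≤ Wd Ω Y (2 ^ 2 ^ J) →
    10 * (L * n) + 88 * Ex + 1 ≤ R1 →
    Wd Ω Y (2 ^ 2 ^ J) / 8 ≤
      (((univ : Finset (ZMod ℓ)ˣ).filter (fun x => vv c x < Y ∧
        ∑ i, (V i x).primeFactors.card ≤ κ * R1 ∧
        ∀ i, ∀ p : ℕ, p.Prime → p ∣ V i x → 2 ^ 2 ^ J < p)).card : ℝ)

open Classical in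
/-- JOB A2': the sieve; `C1` and `K` do not depend on `E` -/
def S_sieveY : Prop := ∀ Ex : ℕ, ∃ C1 : ℕ, 1 ≤ C1 ∧ ∀ κ : ℕ, 1 ≤ κ → ∃ K : ℕ, ∀ E : ℕ, 1 ≤ E →
    ∃ L0 : ℕ, ∀ (ℓ : ℕ) [Fact ℓ.Prime], L0 ≤ ℓ → ∀ (c : (ZMod ℓ)ˣ) (ι : Type) [Fintype ι]
      (V : ι → (ZMod ℓ)ˣ → ℕ) (Ω : ι → (p : ℕ) → Finset (ZMod p × ZMod p)),
      SysY ℓ c (ℓ / E) κ Ex ι V Ω →
      (ℓ : ℝ) / Real.log ℓ ^ K ≤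
        (((univ : Finset (ZMod ℓ)ˣ).filter (fun x => vv c x < ℓ / E ∧
          ∑ i, (V i x).primeFactors.card ≤ κ * (C1 * (Nat.log 2 κ + 1)) ∧
          ∀ i, ∀ p : ℕ, p.Prime → p ∣ V i x → ℓ < p ^ K)).card : ℝ)

/-- the forms of discriminant `D` -/
def alD (D : ℤ) (Q2 ℓ v : ℕ) : ℕ := ((ℓ : ℤ) ^ 2 - D * ((Q2 * v : ℕ) : ℤ) ^ 2).toNat

def kD (D : ℤ) (Q2 ℓ b v : ℕ) : ℕ :=
  ((ℓ : ℤ) * ((Q2 * b : ℕ) : ℤ) - D * ((Q2 * v : ℕ) : ℤ) * (dK Q2 ℓ b v : ℤ)).toNat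

def gaD (D : ℤ) (Q2 ℓ b v : ℕ) : ℕ :=
  (((Q2 * b : ℕ) : ℤ) ^ 2 - D * (dK Q2 ℓ b v : ℤ) ^ 2).toNat

/-- the pairs of classes for which a prime divides the value of the form at `X` -/
def OmD (D : ℤ) (Q2 lam X p : ℕ) [NeZero p] : Finset (ZMod p × ZMod p) :=
  (univ : Finset (ZMod p × ZMod p)).filter (fun z =>
    ((lam : ZMod p) * ((lam : ZMod p) * X + Q2 * z.1)) ^ 2 -
      (D : ZMod p) * ((Q2 : ZMod p) * z.2 * ((lam : ZMod p) * X + Q2 * z.1) + 1) ^ 2 = 0)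

/-- JOB B1': the properties of the forms, for each point of the hyperbola with small `v` -/
def S_formD : Prop := ∀ (D : ℤ) (Q2 ℓ : ℕ) [Fact ℓ.Prime] (c x : (ZMod ℓ)ˣ), D ≠ 0 → 0 < Q2 →
    Q2 < ℓ → D.natAbs < ℓ → ℓ ≡ 1 [MOD Q2] → (c : ZMod ℓ) * (Q2 : ZMod ℓ) ^ 2 = -1 →
    ∀ b v : ℕ, b = bv x → v = vv c x → 2 * (D.natAbs + 1) * (Q2 * v) ≤ ℓ →
    (0 < b ∧ b < ℓ ∧ 0 < v ∧ v < ℓ ∧ ℓ * dK Q2 ℓ b v = 1 + (Q2 * v) * (Q2 * b)) ∧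
    (alD D Q2 ℓ v ≡ 1 [MOD Q2] ∧ kD D Q2 ℓ b v ≡ 0 [MOD Q2] ∧
      (Q2 : ℤ) ∣ (gaD D Q2 ℓ b v : ℤ) + D) ∧
    (kD D Q2 ℓ b v : ℤ) ^ 2 - alD D Q2 ℓ v * gaD D Q2 ℓ b v = D ∧
    (ℓ ≤ alD D Q2 ℓ v ∧ 0 < gaD D Q2 ℓ b v ∧
      alD D Q2 ℓ v ≤ 16 * (D.natAbs + 1) * Q2 ^ 4 * ℓ ^ 2 ∧
      kD D Q2 ℓ b v ≤ 16 * (D.natAbs + 1) * Q2 ^ 4 * ℓ ^ 2 ∧
      gaD D Q2 ℓ b v ≤ 16 * (D.natAbs + 1) * Q2 ^ 4 * ℓ ^ 2) ∧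
    ∀ X p : ℕ, (hp : p.Prime) → p < ℓ →
      haveI : NeZero p := ⟨hp.ne_zero⟩
      (p ∣ alD D Q2 ℓ v * X ^ 2 + 2 * kD D Q2 ℓ b v * X + gaD D Q2 ℓ b v ↔
        ((b : ZMod p), (v : ZMod p)) ∈ OmD D Q2 ℓ X p)

/-- JOB B2': the form determines the prime and the point -/
def S_injD : Prop := ∀ (D : ℤ) (Q2 ℓ ℓ' b v b' v' : ℕ), D ≠ 0 → 0 < Q2 → ℓ.Prime → ℓ'.Prime →
    Q2 < ℓ → D.natAbs < ℓ → Q2 < ℓ' → D.natAbs < ℓ' → 0 < b → b < ℓ → 0 < v →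
    2 * (D.natAbs + 1) * (Q2 * v) ≤ ℓ →
    0 < b' → b' < ℓ' → 0 < v' → 2 * (D.natAbs + 1) * (Q2 * v') ≤ ℓ' →
    ℓ * dK Q2 ℓ b v = 1 + (Q2 * v) * (Q2 * b) →
    ℓ' * dK Q2 ℓ' b' v' = 1 + (Q2 * v') * (Q2 * b') →
    alD D Q2 ℓ v = alD D Q2 ℓ' v' →
    (alD D Q2 ℓ v : ℤ) ∣ (kD D Q2 ℓ b v : ℤ) - kD D Q2 ℓ' b' v' →
    ℓ = ℓ' ∧ v = v' ∧ b = b'

end Pool.Agent.Y887.QKS
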