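import Mathlib
import Pool.Agent.Y887.QK.Cls
import Pool.Agent.Y887.QK.StmD

/-!
Equidistribution of the points of the modular hyperbola with restricted second coordinate.
-/

set_option autoImplicit false

namespace Pool.Agent.Y887.QK

open Finset

theorem class_sum' {z : ℂ} (hz : ‖z‖ = 1) {q r L : ℕ} (hq : 0 < q) :
    ‖(z ^ q - 1) * ∑ m ∈ (range L).filter (fun m => m % q = r), z ^ m‖ ≤ 2 := by
  rcases Nat.lt_or_ge L q with hL | hL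
  · have hc1 : ((range L).filter (fun m => m % q = r)).card ≤ 1 := by
      rw [card_le_one]
      intro a ha b hb
      rw [mem_filter, mem_range] at ha hb
      rw [Nat.mod_eq_of_lt (by omega)] at ha
      rw [Nat.mod_eq_of_lt (by omega)] at hb
      omega
    rw [norm_mul]
    have h1 : ‖z ^ q - 1‖ ≤ 2 := by
      refine (norm_sub_le _ _).trans ?_
      rw [norm_pow, hz, one_pow, norm_one]
      norm_num
    have h2 : ‖∑ m ∈ (range L).filter (fun m => m % q = r), z ^ m‖ ≤ 1 := by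
      refine (norm_sum_le _ _).trans ?_
      have : ∀ m : ℕ, ‖z ^ m‖ = 1 := fun m => by rw [norm_pow, hz, one_pow]
      simp only [this, sum_const, nsmul_eq_mul, mul_one]
      exact_mod_cast hc1
    calc ‖z ^ q - 1‖ * ‖∑ m ∈ (range L).filter (fun m => m % q = r), z ^ m‖ ≤ 2 * 1 :=
          mul_le_mul h1 h2 (norm_nonneg _) (by norm_num)
      _ = 2 := by norm_num
  · exact class_sum hz hq hL

section

variable {ℓ : ℕ} [Fact ℓ.Prime]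

/-- the indicator function of a class below `Y` -/
noncomputable def indY (Y q : ℕ) (β : ZMod q) (y : ZMod ℓ) : ℂ :=
  if y.val < Y ∧ ((y.val : ℕ) : ZMod q) = β then 1 else 0

theorem hat_indY (Y q : ℕ) (hY : Y ≤ ℓ) [NeZero q] (β : ZMod q) (t : ZMod ℓ) :
    hat (indY Y q β) t = ∑ m ∈ (range Y).filter (fun m => m % q = β.val),
      (ZMod.stdAddChar (-t) : ℂ) ^ m := by
  unfold hat indY
  simp only [ite_mul, one_mul, zero_mul]
  rw [← sum_filter]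
  apply sum_nbij' (fun y : ZMod ℓ => y.val) (fun m : ℕ => (m : ZMod ℓ))
  · intro y hy
    rw [mem_filter] at hy
    rw [mem_filter, mem_range]
    refine ⟨hy.2.1, ?_⟩
    rw [← hy.2.2, ZMod.val_natCast]
  · intro m hm
    rw [mem_filter, mem_range] at hm
    rw [mem_filter]
    refine ⟨mem_univ _, ?_⟩
    rw [ZMod.val_cast_of_lt (by omega)]
    refine ⟨hm.1, ?_⟩
    apply ZMod.val_injective
    rw [ZMod.val_natCast]
    exact hm.2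
  · intro y _
    exact ZMod.natCast_zmod_val y
  · intro m hm
    rw [mem_filter, mem_range] at hm
    exact ZMod.val_cast_of_lt (by omega)
  · intro y _
    rw [← AddChar.map_nsmul_eq_pow]
    congr 1
    rw [nsmul_eq_mul, ZMod.natCast_zmod_val]
    ring

theorem hat_indY_zero (Y q : ℕ) (hY : Y ≤ ℓ) [NeZero q] (β : ZMod q) :
    hat (indY (ℓ := ℓ) Y q β) 0 = (((range Y).filter (fun m => m % q = β.val)).card : ℂ) := by
  rw [hat_indY Y q hY]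
  simp

theorem hat_indY_sum (Y q : ℕ) (hY : Y ≤ ℓ) [NeZero q] (hq : q < ℓ) (β : ZMod q) :
    ∑ t ∈ univ.erase 0, ‖hat (indY (ℓ := ℓ) Y q β) t‖ ≤ ℓ * (1 + Real.log ℓ) := by
  have hl := (Fact.out : ℓ.Prime)
  have hq0 : 0 < q := Nat.pos_of_ne_zero (NeZero.ne q)
  have hqu : ((q : ℕ) : ZMod ℓ) ≠ 0 := by
    intro h
    have h1 := (ZMod.natCast_eq_zero_iff q ℓ).1 h
    have := Nat.le_of_dvd hq0 h1
    omega
  have h1 : ∀ t ∈ univ.erase (0 : ZMod ℓ), ‖hat (indY (ℓ := ℓ) Y q β) t‖ ≤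
      2 * (1 / ‖(ZMod.stdAddChar (-t * (q : ZMod ℓ)) : ℂ) - 1‖) := by
    intro t ht
    have ht0 := (mem_erase.1 ht).1
    rw [hat_indY Y q hY]
    have h2 := class_sum' (z := (ZMod.stdAddChar (-t) : ℂ)) (AddChar.norm_apply _ _) (q := q)
      (r := β.val) (L := Y) hq0
    rw [norm_mul] at h2
    have h3 : (ZMod.stdAddChar (-t) : ℂ) ^ q = (ZMod.stdAddChar (-t * (q : ZMod ℓ)) : ℂ) := by
      rw [← AddChar.map_nsmul_eq_pow]
      congr 1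
      rw [nsmul_eq_mul]
      ring
    rw [h3] at h2
    have h4 : (0 : ℝ) < ‖(ZMod.stdAddChar (-t * (q : ZMod ℓ)) : ℂ) - 1‖ := by
      rw [norm_pos_iff, sub_ne_zero]
      intro h5
      have h6 : (-t * (q : ZMod ℓ) : ZMod ℓ) = 0 := by
        apply ZMod.injective_stdAddChar
        rw [h5, AddChar.map_zero_eq_one]
      exact mul_ne_zero (neg_ne_zero.2 ht0) hqu h6
    rw [mul_one_div, le_div_iff₀ h4, mul_comm]
    exact h2
  refine (sum_le_sum h1).trans ?_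
  rw [← mul_sum]
  have h2 : ∑ t ∈ univ.erase (0 : ZMod ℓ), 1 / ‖(ZMod.stdAddChar (-t * (q : ZMod ℓ)) : ℂ) - 1‖ =
      ∑ t ∈ univ.erase (0 : ZMod ℓ), 1 / ‖(ZMod.stdAddChar t : ℂ) - 1‖ := by
    apply sum_nbij' (fun t => -t * (q : ZMod ℓ)) (fun t => -t * (q : ZMod ℓ)⁻¹)
    · intro t ht
      rw [mem_erase] at ht ⊢
      exact ⟨mul_ne_zero (neg_ne_zero.2 ht.1) hqu, mem_univ _⟩
    · intro t ht
      rw [mem_erase] at ht ⊢
      exact ⟨mul_ne_zero (neg_ne_zero.2 ht.1) (inv_ne_zero hqu), mem_univ _⟩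
    · intro t _
      field_simp
    · intro t _
      field_simp
    · intro t _
      rfl
  rw [h2]
  have h3 := inv_sum (ℓ := ℓ)
  linarith

theorem class_cardY (Y q : ℕ) [NeZero q] (β : ZMod q) :
    |(((range Y).filter (fun m => m % q = β.val)).card : ℝ) - Y / q| ≤ 1 := by
  have hq0 : 0 < q := Nat.pos_of_ne_zero (NeZero.ne q)
  have hqr : (0 : ℝ) < q := by exact_mod_cast hq0
  have hβ := ZMod.val_lt β
  have h1 : ((range Y).filter (fun m => m % q = β.val)).card = Nat.count (· ≡ β.val [MOD q]) Y := by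
    rw [Nat.count_eq_card_filter_range]
    congr 1
    apply filter_congr
    intro m _
    show m % q = β.val ↔ m % q = β.val % q
    rw [Nat.mod_eq_of_lt hβ]
  rw [h1, Nat.count_modEq_card Y hq0]
  have h2 : (Y : ℝ) = q * ((Y / q : ℕ) : ℝ) + ((Y % q : ℕ) : ℝ) := by
    exact_mod_cast (Nat.div_add_mod Y q).symm
  have h3 : ((Y % q : ℕ) : ℝ) < q := by exact_mod_cast Nat.mod_lt Y hq0
  have h4 : (0 : ℝ) ≤ ((Y % q : ℕ) : ℝ) := Nat.cast_nonneg _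
  have h5 : (Y : ℝ) / q = ((Y / q : ℕ) : ℝ) + ((Y % q : ℕ) : ℝ) / q := by
    rw [h2]
    field_simp
  have h6 : ((Y % q : ℕ) : ℝ) / q ≤ 1 := by
    rw [div_le_one hqr]
    exact h3.le
  have h7 : 0 ≤ ((Y % q : ℕ) : ℝ) / q := by positivity
  rw [h5, abs_le]
  push_cast
  split_ifs
  · constructor <;> linarith
  · constructor <;> linarith

/-- equidistribution of the modular hyperbola, second coordinate below `Y` -/
theorem equidY (Y q : ℕ) (hY : Y ≤ ℓ) [NeZero q] (hq : q < ℓ) (c : (ZMod ℓ)ˣ) (β ν : ZMod q) :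
    |(((univ : Finset (ZMod ℓ)ˣ).filter (fun x : (ZMod ℓ)ˣ => (((x : ZMod ℓ).val : ℕ) : ZMod q) = β ∧
      (((c * x⁻¹ : (ZMod ℓ)ˣ) : ZMod ℓ).val < Y ∧
      ((((c * x⁻¹ : (ZMod ℓ)ˣ) : ZMod ℓ).val : ℕ) : ZMod q) = ν))).card : ℝ) - Y / (q : ℝ) ^ 2| ≤
      8 * Real.sqrt ℓ * (1 + Real.log ℓ) ^ 2 := by
  classical
  have hl := (Fact.out : ℓ.Prime)
  have hl1 : (1 : ℝ) ≤ ℓ := by exact_mod_cast hl.one_le
  have hl0 : (0 : ℝ) < ℓ := by linarith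
  have hq0 : 0 < q := Nat.pos_of_ne_zero (NeZero.ne q)
  have hqr : (1 : ℝ) ≤ q := by exact_mod_cast hq0
  have hYr : (Y : ℝ) ≤ ℓ := by exact_mod_cast hY
  have hY0 : (0 : ℝ) ≤ Y := Nat.cast_nonneg _
  have hlog : 0 ≤ Real.log ℓ := Real.log_nonneg hl1
  have hsq : 1 ≤ Real.sqrt ℓ := by
    rw [Real.one_le_sqrt]
    exact hl1
  obtain ⟨N, hN⟩ : ∃ N : ℕ, N = ((univ : Finset (ZMod ℓ)ˣ).filter (fun x : (ZMod ℓ)ˣ =>
      (((x : ZMod ℓ).val : ℕ) : ZMod q) = β ∧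
      (((c * x⁻¹ : (ZMod ℓ)ˣ) : ZMod ℓ).val < Y ∧
      ((((c * x⁻¹ : (ZMod ℓ)ˣ) : ZMod ℓ).val : ℕ) : ZMod q) = ν))).card := ⟨_, rfl⟩
  obtain ⟨I, hI⟩ : ∃ I : ℕ, I = ((range ℓ).filter (fun m => m % q = β.val)).card := ⟨_, rfl⟩
  obtain ⟨J, hJ⟩ : ∃ J : ℕ, J = ((range Y).filter (fun m => m % q = ν.val)).card := ⟨_, rfl⟩
  have hIl : I ≤ ℓ := by
    rw [hI]
    exact (card_filter_le _ _).trans (by simp)
  have hJl : J ≤ ℓ := by
    rw [hJ]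
    exact (card_filter_le _ _).trans (by simpa using hY)
  have h1 := hyp_bound (ind (ℓ := ℓ) q β) (indY (ℓ := ℓ) Y q ν) c (ℓ * (1 + Real.log ℓ))
    (by
      rw [hat_ind_zero, ← hI, Complex.norm_natCast]
      exact_mod_cast hIl)
    (by
      rw [hat_indY_zero Y q hY, ← hJ, Complex.norm_natCast]
      exact_mod_cast hJl)
    (hat_ind_sum q hq β) (hat_indY_sum Y q hY hq ν)
  rw [hat_ind_zero, hat_indY_zero Y q hY, ← hI, ← hJ] at h1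
  have h2 : ∑ x : (ZMod ℓ)ˣ, ind (ℓ := ℓ) q β (x : ZMod ℓ) *
      indY (ℓ := ℓ) Y q ν ((c * x⁻¹ : (ZMod ℓ)ˣ) : ZMod ℓ) = (N : ℂ) := by
    rw [hN, card_filter, Nat.cast_sum]
    apply sum_congr rfl
    intro x _
    unfold ind indY
    by_cases ha : (((x : ZMod ℓ).val : ℕ) : ZMod q) = β
    · by_cases hb : ((c * x⁻¹ : (ZMod ℓ)ˣ) : ZMod ℓ).val < Y ∧
          ((((c * x⁻¹ : (ZMod ℓ)ˣ) : ZMod ℓ).val : ℕ) : ZMod q) = ν
      · have hab : (((x : ZMod ℓ).val : ℕ) : ZMod q) = β ∧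
          (((c * x⁻¹ : (ZMod ℓ)ˣ) : ZMod ℓ).val < Y ∧
          ((((c * x⁻¹ : (ZMod ℓ)ˣ) : ZMod ℓ).val : ℕ) : ZMod q) = ν) := ⟨ha, hb⟩
        rw [if_pos ha, if_pos hb, if_pos hab, mul_one, Nat.cast_one]
      · have hab : ¬ ((((x : ZMod ℓ).val : ℕ) : ZMod q) = β ∧
          (((c * x⁻¹ : (ZMod ℓ)ˣ) : ZMod ℓ).val < Y ∧
          ((((c * x⁻¹ : (ZMod ℓ)ˣ) : ZMod ℓ).val : ℕ) : ZMod q) = ν)) := fun h => hb h.2
        rw [if_neg hb, if_neg hab, mul_zero, Nat.cast_zero]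
    · have hab : ¬ ((((x : ZMod ℓ).val : ℕ) : ZMod q) = β ∧
          (((c * x⁻¹ : (ZMod ℓ)ˣ) : ZMod ℓ).val < Y ∧
          ((((c * x⁻¹ : (ZMod ℓ)ˣ) : ZMod ℓ).val : ℕ) : ZMod q) = ν)) := fun h => ha h.1
      rw [if_neg ha, if_neg hab, zero_mul, Nat.cast_zero]
  rw [h2] at h1
  have h3 : ((ℓ : ℂ) ^ 2 * (N : ℂ) - (I : ℂ) * (J : ℂ) * ((ℓ : ℂ) - 1)) =
      (((ℓ : ℝ) ^ 2 * N - I * J * (ℓ - 1) : ℝ) : ℂ) := by
    push_cast
    ring
  rw [h3, Complex.norm_real, Real.norm_eq_abs] at h1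
  rw [← hN]
  have hI1 := class_card (ℓ := ℓ) q β
  have hJ1 := class_cardY Y q ν
  rw [← hI] at hI1
  rw [← hJ] at hJ1
  rw [abs_le] at hI1 hJ1
  obtain ⟨i, hi⟩ : ∃ i : ℝ, i = (I : ℝ) - ℓ / q := ⟨_, rfl⟩
  obtain ⟨j, hj⟩ : ∃ j : ℝ, j = (J : ℝ) - Y / q := ⟨_, rfl⟩
  rw [← hi] at hI1
  rw [← hj] at hJ1
  -- the main terms
  have h4 : |(I : ℝ) * J * (ℓ - 1) - (ℓ : ℝ) ^ 2 * (Y / (q : ℝ) ^ 2)| ≤ 4 * (ℓ : ℝ) ^ 2 := by
    have eI : (I : ℝ) = ℓ / q + i := by linarith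
    have eJ : (J : ℝ) = Y / q + j := by linarith
    have hx : (ℓ : ℝ) / q ≤ ℓ := div_le_self hl0.le hqr
    have hx0 : 0 ≤ (ℓ : ℝ) / q := by positivity
    have hy : (Y : ℝ) / q ≤ ℓ := (div_le_self hY0 hqr).trans hYr
    have hy0 : 0 ≤ (Y : ℝ) / q := by positivity
    obtain ⟨x, hxd⟩ : ∃ x : ℝ, x = (ℓ : ℝ) / q := ⟨_, rfl⟩
    obtain ⟨y, hyd⟩ : ∃ y : ℝ, y = (Y : ℝ) / q := ⟨_, rfl⟩
    have e1 : (ℓ : ℝ) ^ 2 * (Y / (q : ℝ) ^ 2) = ℓ * (x * y) := by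
      rw [hxd, hyd]
      field_simp
    rw [e1, eI, eJ, ← hxd, ← hyd]
    rw [← hxd] at hx hx0
    rw [← hyd] at hy hy0
    have e2 : (x + i) * (y + j) * (ℓ - 1) - ℓ * (x * y) =
        -(x * y) + (ℓ - 1) * (i * y + j * x) + i * j * (ℓ - 1) := by ring
    rw [e2]
    have hx2 : x * y ≤ (ℓ : ℝ) ^ 2 := by
      rw [pow_two]
      exact mul_le_mul hx hy hy0 hl0.le
    have hl10 : (0 : ℝ) ≤ ℓ - 1 := by linarith
    have b1 : |(ℓ - 1) * (i * y + j * x)| ≤ 2 * (ℓ : ℝ) ^ 2 := by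
      rw [abs_mul, abs_of_nonneg hl10]
      have b2 : |i * y + j * x| ≤ 2 * ℓ := by
        refine (abs_add_le _ _).trans ?_
        rw [abs_mul, abs_mul, abs_of_nonneg hx0, abs_of_nonneg hy0]
        have b3 : |i| * y ≤ 1 * ℓ := mul_le_mul (abs_le.2 hI1) hy hy0 (by norm_num)
        have b4 : |j| * x ≤ 1 * ℓ := mul_le_mul (abs_le.2 hJ1) hx hx0 (by norm_num)
        linarith
      calc (ℓ - 1 : ℝ) * |i * y + j * x| ≤ ℓ * (2 * ℓ) := by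
            apply mul_le_mul (by linarith) b2 (abs_nonneg _) hl0.le
        _ = _ := by ring
    have b3 : |i * j * (ℓ - 1)| ≤ (ℓ : ℝ) ^ 2 := by
      rw [abs_mul, abs_mul, abs_of_nonneg hl10]
      have b4 : |i| * |j| ≤ 1 := mul_le_one₀ (abs_le.2 hI1) (abs_nonneg _) (abs_le.2 hJ1)
      calc |i| * |j| * (ℓ - 1) ≤ 1 * ℓ := mul_le_mul b4 (by linarith) hl10 (by norm_num)
        _ ≤ _ := by nlinarith
    have b5 : |-(x * y)| ≤ (ℓ : ℝ) ^ 2 := by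
      rw [abs_neg, abs_of_nonneg (by positivity)]
      exact hx2
    refine (abs_add_three _ _ _).trans ?_
    linarith
  have h5 : (ℓ : ℝ) ^ 2 * |(N : ℝ) - Y / (q : ℝ) ^ 2| ≤
      (ℓ : ℝ) ^ 2 * (8 * Real.sqrt ℓ * (1 + Real.log ℓ) ^ 2) := by
    have e1 : (ℓ : ℝ) ^ 2 * |(N : ℝ) - Y / (q : ℝ) ^ 2| =
        |((ℓ : ℝ) ^ 2 * N - I * J * (ℓ - 1)) +
          ((I : ℝ) * J * (ℓ - 1) - (ℓ : ℝ) ^ 2 * (Y / (q : ℝ) ^ 2))| := by
      have : (ℓ : ℝ) ^ 2 = |(ℓ : ℝ) ^ 2| := (abs_of_pos (by positivity)).symm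
      rw [this, ← abs_mul, ← this]
      congr 1
      ring
    rw [e1]
    refine (abs_add_le _ _).trans ((add_le_add h1 h4).trans ?_)
    obtain ⟨g, hg⟩ : ∃ g : ℝ, g = 1 + Real.log ℓ := ⟨_, rfl⟩
    rw [← hg]
    have hg1 : 1 ≤ g := by linarith
    have hsg : 1 ≤ Real.sqrt ℓ * g ^ 2 := by
      have : 1 ≤ g ^ 2 := one_le_pow₀ hg1
      nlinarith
    have hgs : g ≤ Real.sqrt ℓ * g ^ 2 := by
      have h6 : g ≤ g ^ 2 := by nlinarith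
      have h7 : g ^ 2 ≤ Real.sqrt ℓ * g ^ 2 := le_mul_of_one_le_left (by positivity) hsq
      linarith
    have hl2 : (0 : ℝ) ≤ (ℓ : ℝ) ^ 2 := by positivity
    have k1 := mul_le_mul_of_nonneg_left hsg hl2
    have k2 := mul_le_mul_of_nonneg_left hgs hl2
    have e2 : 2 * (ℓ : ℝ) * (ℓ * g) + 2 * Real.sqrt ℓ * (ℓ * g) ^ 2 + 4 * (ℓ : ℝ) ^ 2 =
        2 * ((ℓ : ℝ) ^ 2 * g) + 2 * ((ℓ : ℝ) ^ 2 * (Real.sqrt ℓ * g ^ 2)) +
          4 * ((ℓ : ℝ) ^ 2 * 1) := by ring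
    have e3 : (ℓ : ℝ) ^ 2 * (8 * Real.sqrt ℓ * g ^ 2) =
      8 * ((ℓ : ℝ) ^ 2 * (Real.sqrt ℓ * g ^ 2)) := by ring
    rw [e2, e3]
    linarith
  exact le_of_mul_le_mul_left h5 (by positivity)

/-- the number of points in given classes, second coordinate below `Y` -/
theorem cnt_clsY (c : (ZMod ℓ)ˣ) (Y : ℕ) (hY : Y ≤ ℓ) (U : Finset ℕ) (hU : ∀ p ∈ U, p.Prime)
    (hq : ∏ p ∈ U, p < ℓ) (Ω : (p : ℕ) → Finset (ZMod p × ZMod p)) :
    |(((univ : Finset (ZMod ℓ)ˣ).filter (fun x : (ZMod ℓ)ˣ => vv c x < Y ∧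
      ∀ p ∈ U, ((bv x : ZMod p), (vv c x : ZMod p)) ∈ Ω p)).card : ℝ) -
        Y * ∏ p ∈ U, ((Ω p).card / (p : ℝ) ^ 2)| ≤
      (∏ p ∈ U, ((Ω p).card : ℝ)) * (8 * Real.sqrt ℓ * (1 + Real.log ℓ) ^ 2) := by
  classical
  obtain ⟨q, hqd⟩ : ∃ q, q = ∏ p ∈ U, p := ⟨_, rfl⟩
  obtain ⟨C, hC1, hC2⟩ := exists_cls Ω U hU q hqd
  rw [← hqd] at hq
  have hq0 : 0 < q := by
    rw [hqd]
    exact prod_pos fun p hp => (hU p hp).pos
  have : NeZero q := ⟨hq0.ne'⟩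
  obtain ⟨S, hS⟩ : ∃ S : Finset (ZMod ℓ)ˣ, S = (univ : Finset (ZMod ℓ)ˣ).filter
      (fun x : (ZMod ℓ)ˣ => vv c x < Y ∧ ∀ p ∈ U, ((bv x : ZMod p), (vv c x : ZMod p)) ∈ Ω p) :=
    ⟨_, rfl⟩
  rw [← hS]
  obtain ⟨E, hE⟩ : ∃ E : ℝ, E = 8 * Real.sqrt ℓ * (1 + Real.log ℓ) ^ 2 := ⟨_, rfl⟩
  rw [← hE]
  have hmaps : ∀ x ∈ S, (((bv x : ℕ) : ZMod q), ((vv c x : ℕ) : ZMod q)) ∈ C := by
    intro x hx
    rw [hS, mem_filter] at hx
    exact (hC2 _ _).2 hx.2.2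
  have h1 := card_eq_sum_card_fiberwise (f := fun x : (ZMod ℓ)ˣ =>
    (((bv x : ℕ) : ZMod q), ((vv c x : ℕ) : ZMod q))) (s := S) (t := C) hmaps
  have h2 : ∀ z ∈ C, |(((S.filter (fun x : (ZMod ℓ)ˣ =>
      (((bv x : ℕ) : ZMod q), ((vv c x : ℕ) : ZMod q)) = z)).card : ℝ)) - Y / (q : ℝ) ^ 2| ≤ E := by
    rintro ⟨β, ν⟩ hz
    have h3 := equidY (ℓ := ℓ) Y q hY hq c β ν
    rw [← hE] at h3
    have h4 : S.filter (fun x : (ZMod ℓ)ˣ =>
        (((bv x : ℕ) : ZMod q), ((vv c x : ℕ) : ZMod q)) = (β, ν)) =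
        (univ : Finset (ZMod ℓ)ˣ).filter (fun x : (ZMod ℓ)ˣ => (((x : ZMod ℓ).val : ℕ) : ZMod q) = β ∧
      (((c * x⁻¹ : (ZMod ℓ)ˣ) : ZMod ℓ).val < Y ∧
      ((((c * x⁻¹ : (ZMod ℓ)ˣ) : ZMod ℓ).val : ℕ) : ZMod q) = ν)) := by
      ext x
      rw [mem_filter, mem_filter, Prod.mk.injEq, hS, mem_filter]
      constructor
      · rintro ⟨⟨-, h6, -⟩, h5⟩
        exact ⟨mem_univ _, h5.1, h6, h5.2⟩
      · rintro ⟨-, h5, h7, h8⟩
        refine ⟨⟨mem_univ _, h7, ?_⟩, h5, h8⟩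
        apply (hC2 _ _).1
        have h6 : (((bv x : ℕ) : ZMod q), ((vv c x : ℕ) : ZMod q)) = (β, ν) := by
          rw [Prod.mk.injEq]
          exact ⟨h5, h8⟩
        rw [h6]
        exact hz
    rw [h4]
    exact h3
  have h3 : (S.card : ℝ) - C.card * (Y / (q : ℝ) ^ 2) =
      ∑ z ∈ C, ((((S.filter (fun x : (ZMod ℓ)ˣ =>
      (((bv x : ℕ) : ZMod q), ((vv c x : ℕ) : ZMod q)) = z)).card : ℝ)) - Y / (q : ℝ) ^ 2) := by
    rw [sum_sub_distrib, sum_const, nsmul_eq_mul, h1]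
    push_cast
    rfl
  have h4 : (Y : ℝ) * ∏ p ∈ U, ((Ω p).card / (p : ℝ) ^ 2) = C.card * (Y / (q : ℝ) ^ 2) := by
    rw [hC1, prod_div_distrib, prod_pow, hqd]
    push_cast
    ring
  rw [h4, h3]
  refine (abs_sum_le_sum_abs _ _).trans ((sum_le_sum h2).trans ?_)
  rw [sum_const, nsmul_eq_mul, hC1]
  push_cast
  exact le_rfl

end

/-- the local sets of the forms of discriminant `D` -/
theorem OmD_card {D : ℤ} {q2 lam x p : ℕ} [Fact p.Prime] (ha : ¬ (p : ℤ) ∣ D) (hq : ¬ p ∣ q2) :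
    (Pool.Agent.Y887.QKS.OmD D q2 lam x p).card ≤ 2 * p := by
  classical
  have ha' : (D : ZMod p) ≠ 0 := fun h => ha ((ZMod.intCast_zmod_eq_zero_iff_dvd D p).1 h)
  have hq' : (q2 : ZMod p) ≠ 0 := fun h => hq ((ZMod.natCast_eq_zero_iff q2 p).1 h)
  have h1 : ∀ β ∈ (univ : Finset (ZMod p)),
      ((Pool.Agent.Y887.QKS.OmD D q2 lam x p).filter (fun z => z.1 = β)).card ≤ 2 := by
    intro β _
    by_contra hcon
    push Not at hcon
    obtain ⟨z1, h1, z2, h2, z3, h3, h12, h13, h23⟩ := two_lt_card.1 hcon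
    unfold Pool.Agent.Y887.QKS.OmD at h1 h2 h3
    rw [mem_filter, mem_filter] at h1 h2 h3
    obtain ⟨⟨-, e1⟩, f1⟩ := h1
    obtain ⟨⟨-, e2⟩, f2⟩ := h2
    obtain ⟨⟨-, e3⟩, f3⟩ := h3
    rw [f1] at e1
    rw [f2] at e2
    rw [f3] at e3
    obtain ⟨w, hw⟩ : ∃ w : ZMod p, w = (lam : ZMod p) * x + q2 * β := ⟨_, rfl⟩
    rw [← hw] at e1 e2 e3
    have hw0 : w ≠ 0 := by
      intro h0
      rw [h0] at e1
      apply ha'
      have : (D : ZMod p) = -(((lam : ZMod p) * 0) ^ 2 - D * ((q2 : ZMod p) * z1.2 * 0 + 1) ^ 2) := by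
        ring
      rw [this, e1, neg_zero]
    have key : ∀ z z' : ZMod p × ZMod p, z.1 = β → z'.1 = β → z ≠ z' →
        ((lam : ZMod p) * w) ^ 2 - D * ((q2 : ZMod p) * z.2 * w + 1) ^ 2 = 0 →
        ((lam : ZMod p) * w) ^ 2 - D * ((q2 : ZMod p) * z'.2 * w + 1) ^ 2 = 0 →
        (q2 : ZMod p) * w * (z.2 + z'.2) + 2 = 0 := by
      intro z z' g1 g2 hne g3 g4
      have g5 : (D : ZMod p) * (((q2 : ZMod p) * w) * ((z.2 - z'.2) *
          ((q2 : ZMod p) * w * (z.2 + z'.2) + 2))) = 0 := by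
        have : (D : ZMod p) * (((q2 : ZMod p) * w) * ((z.2 - z'.2) *
          ((q2 : ZMod p) * w * (z.2 + z'.2) + 2))) =
          (((lam : ZMod p) * w) ^ 2 - D * ((q2 : ZMod p) * z'.2 * w + 1) ^ 2) -
          (((lam : ZMod p) * w) ^ 2 - D * ((q2 : ZMod p) * z.2 * w + 1) ^ 2) := by ring
        rw [this, g3, g4, sub_zero]
      have g6 := (mul_eq_zero.1 g5).resolve_left ha'
      have g7 := (mul_eq_zero.1 g6).resolve_left (mul_ne_zero hq' hw0)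
      refine (mul_eq_zero.1 g7).resolve_left ?_
      intro g8
      apply hne
      apply Prod.ext
      · rw [g1, g2]
      · exact sub_eq_zero.1 g8
    have k12 := key z1 z2 f1 f2 h12 e1 e2
    have k13 := key z1 z3 f1 f3 h13 e1 e3
    have k : (q2 : ZMod p) * w * (z2.2 - z3.2) = 0 := by
      have : (q2 : ZMod p) * w * (z2.2 - z3.2) = ((q2 : ZMod p) * w * (z1.2 + z2.2) + 2) -
        ((q2 : ZMod p) * w * (z1.2 + z3.2) + 2) := by ring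
      rw [this, k12, k13, sub_zero]
    have k' := (mul_eq_zero.1 k).resolve_left (mul_ne_zero hq' hw0)
    apply h23
    apply Prod.ext
    · rw [f2, f3]
    · exact sub_eq_zero.1 k'
  have h2 := card_eq_sum_card_fiberwise (f := fun z : ZMod p × ZMod p => z.1)
    (s := Pool.Agent.Y887.QKS.OmD D q2 lam x p) (t := univ) (fun z _ => mem_univ _)
  rw [h2]
  refine (sum_le_sum h1).trans ?_
  rw [sum_const, card_univ, ZMod.card, smul_eq_mul, mul_comm]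

end Pool.Agent.Y887.QK
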