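import Mathlib
import Pool.Agent.Y887.QK.OnlD
import Pool.Agent.Y887.QK.Fmk
import Pool.Agent.Y887.QF.Mnq
import Pool.Agent.TH423.SH.PAIP

/-!
The family of the forms of discriminant `D` of all primes in an interval.
-/

set_option autoImplicit false

namespace Pool.Agent.Y887.QKF

open Finset Filter Pool.Agent.Y887.QE Pool.Agent.Y887.QF Pool.Agent.Y887.QKS

open Classical in
theorem famD (hsieve : S_sieveY) (hform : S_formD) (hinj : S_injD) : ∃ C2 : ℕ, 1 ≤ C2 ∧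
    ∀ κ : ℕ, 1 ≤ κ → ∃ K0 : ℕ,
    ∀ (D : ℤ) (Q' : ℕ), D ≠ 0 → 0 < Q' → (∀ p : ℕ, p.Prime → p ≤ 4 * κ → p ∣ Q') →
    (∀ p : ℕ, p.Prime → (p : ℤ) ∣ D → p ∣ Q') →
    ∀ (ι : Type) [Fintype ι], Fintype.card ι = κ → ∀ (X c : ι → ℕ), (∀ i, c i ∣ Q') →
    (∀ al k ga : ℕ, al ≡ 1 [MOD Q' ^ 2] → k ≡ 0 [MOD Q' ^ 2] →
      ((Q' ^ 2 : ℕ) : ℤ) ∣ ga + D → ∀ i, c i ∣ pv al k ga (X i) ∧
        ∀ p : ℕ, p.Prime → p ∣ Q' → ¬ p ∣ pv al k ga (X i) / c i) →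
    ∃ Cf : ℕ, 1 ≤ Cf ∧ ∀ᶠ R : ℕ in atTop,
      ∃ (S : Finset (Σ _ : ℕ, ℕ)) (al k ga : (Σ _ : ℕ, ℕ) → ℕ),
      R ^ 2 ≤ S.card * (Nat.log 2 R + 1) ^ K0 ∧
      (∀ g ∈ S, 0 < al g ∧ 0 < ga g ∧ al g ≡ 1 [MOD Q' ^ 2] ∧ k g ≡ 0 [MOD Q' ^ 2] ∧
        ((Q' ^ 2 : ℕ) : ℤ) ∣ ga g + D ∧ (k g : ℤ) ^ 2 - al g * ga g = D ∧
        R ≤ al g ∧ al g ≤ Cf * R ^ 2 ∧ k g ≤ Cf * R ^ 2 ∧ ga g ≤ Cf * R ^ 2 ∧
        ∑ i, (pv (al g) (k g) (ga g) (X i) / c i).primeFactors.card ≤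
          κ * (C2 * (Nat.log 2 κ + 1)) ∧
        ∀ i, ∀ p : ℕ, p.Prime → p ∣ pv (al g) (k g) (ga g) (X i) / c i → R < p ^ K0) ∧
      (∀ g ∈ S, ∀ g' ∈ S, al g = al g' → (al g : ℤ) ∣ (k g : ℤ) - k g' → g = g') := by
  obtain ⟨C2, hC2, hone⟩ := one_lD hsieve hform
  refine ⟨C2, hC2, ?_⟩
  intro κ hκ
  obtain ⟨K, hone⟩ := hone κ hκ
  refine ⟨K + 2, ?_⟩
  intro D Q' hD0 hQ' hsm haQ ι _ hcard X c hcQ hloc
  obtain ⟨L0, hone⟩ := hone D Q' hD0 hQ' hsm haQ ι hcard X c hcQ hloc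
  obtain ⟨a, ha⟩ : ∃ a : ℕ, a = D.natAbs := ⟨_, rfl⟩
  rw [← ha] at hone
  obtain ⟨Q2, hQ2⟩ : ∃ Q2 : ℕ, Q2 = Q' ^ 2 := ⟨_, rfl⟩
  have hQ2pos : 0 < Q2 := by rw [hQ2]; exact pow_pos hQ' 2
  rw [← hQ2] at hone ⊢
  have hone' := fun (ℓ : ℕ) (h : ℓ.Prime ∧ L0 ≤ ℓ ∧ ℓ ≡ 1 [MOD Q2]) => hone ℓ h.1 h.2.1 h.2.2
  choose! G v hG using hone'
  obtain ⟨x0, hx0⟩ := Pool.Agent.TH423.SH.pai Q2 hQ2pos (1 / 2) 1 (by norm_num) (by norm_num)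
  obtain ⟨φ, hφ⟩ : ∃ φ : ℕ, φ = Nat.totient Q2 := ⟨_, rfl⟩
  rw [← hφ] at hx0
  have hφ1 : 1 ≤ φ := by
    rw [hφ]
    exact Nat.totient_pos.2 hQ2pos
  refine ⟨64 * (a + 1) * Q2 ^ 4, Nat.mul_pos (by omega) (pow_pos hQ2pos 4), ?_⟩
  have hlog : Tendsto (fun R : ℕ => Nat.log 2 R) atTop atTop := by
    rw [tendsto_atTop]
    intro b
    filter_upwards [eventually_ge_atTop (2 ^ b)] with n hn
    exact Nat.le_log_of_pow_le (by norm_num) hn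
  filter_upwards [eventually_ge_atTop (L0 + Q2 + a + 3), eventually_ge_atTop ⌈x0⌉₊,
    hlog.eventually_ge_atTop (2 * φ * 2 ^ K)] with R hR1 hR2 hR3
  obtain ⟨P, hP⟩ : ∃ P : Finset ℕ, P = (Ioc R (2 * R)).filter
      (fun q => q.Prime ∧ q % Q2 = 1 % Q2) := ⟨_, rfl⟩
  have hPm : ∀ ℓ ∈ P, ℓ.Prime ∧ R < ℓ ∧ ℓ ≤ 2 * R ∧ ℓ ≡ 1 [MOD Q2] := by
    intro ℓ hℓ
    rw [hP, mem_filter, mem_Ioc] at hℓ
    exact ⟨hℓ.2.1, hℓ.1.1, hℓ.1.2, hℓ.2.2⟩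
  have hPG := fun (ℓ : ℕ) (hℓ : ℓ ∈ P) => hG ℓ ⟨(hPm ℓ hℓ).1, by
    have := (hPm ℓ hℓ).2.1
    omega, (hPm ℓ hℓ).2.2.2⟩
  refine ⟨P.sigma G, fun g => alD D Q2 g.1 (v g.1 g.2), fun g => kD D Q2 g.1 g.2 (v g.1 g.2),
    fun g => gaD D Q2 g.1 g.2 (v g.1 g.2), ?_, ?_, ?_⟩
  · -- counting
    have hRr : (3 : ℝ) ≤ R := by
      have : 3 ≤ R := by omega
      exact_mod_cast this
    have hRpos : (0 : ℝ) < R := by linarith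
    have hxR : x0 ≤ (R : ℝ) := (Nat.le_ceil x0).trans (by exact_mod_cast hR2)
    have h1 := hx0 R hxR R (2 * R) 1 (by linarith) (by push_cast; linarith) (by
      push_cast
      linarith) (Nat.coprime_one_left Q2)
    rw [← hP] at h1
    have hlogR : 0 < Real.log R := Real.log_pos (by linarith)
    obtain ⟨l, hl⟩ : ∃ l : ℕ, l = Nat.log 2 R + 1 := ⟨_, rfl⟩
    have hlR : Real.log R ≤ (l : ℝ) := by
      rw [hl]
      exact log2_ge R (by omega)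
    have hl1 : (1 : ℝ) ≤ l := by
      have : 1 ≤ l := by omega
      exact_mod_cast this
    have hlog2R : Real.log (2 * R) ≤ 2 * l := by
      rw [Real.log_mul (by norm_num) hRpos.ne']
      have := Real.log_two_lt_d9
      linarith
    have hφr : (1 : ℝ) ≤ φ := by exact_mod_cast hφ1
    obtain ⟨mm, hmm⟩ : ∃ mm : ℝ, mm = (((2 * R : ℕ) : ℝ) - R) / (φ * Real.log R) := ⟨_, rfl⟩
    rw [← hmm] at h1
    have hmm1 : (R : ℝ) / (φ * l) ≤ mm := by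
      rw [hmm]
      have e : (((2 * R : ℕ) : ℝ) - R) = R := by push_cast; ring
      rw [e]
      apply div_le_div_of_nonneg_left hRpos.le (by positivity)
      exact mul_le_mul_of_nonneg_left hlR (by linarith)
    have hPc : (R : ℝ) / (φ * l) / 2 ≤ P.card := by
      have := (abs_le.1 h1).1
      linarith
    have hGc : ∀ ℓ ∈ P, (R : ℝ) / (2 * l) ^ K ≤ ((G ℓ).card : ℝ) := by
      intro ℓ hℓ
      obtain ⟨h2, h3, h4, -⟩ := hPm ℓ hℓ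
      refine le_trans ?_ (hPG ℓ hℓ).1
      have h3r : (R : ℝ) ≤ ℓ := by exact_mod_cast h3.le
      have h4r : (ℓ : ℝ) ≤ 2 * R := by exact_mod_cast h4
      have h5 : Real.log ℓ ≤ 2 * l := (Real.log_le_log (by linarith) h4r).trans hlog2R
      have h6 : 0 < Real.log ℓ := Real.log_pos (by linarith)
      calc (R : ℝ) / (2 * l) ^ K ≤ (R : ℝ) / Real.log ℓ ^ K := by
            apply div_le_div_of_nonneg_left hRpos.le (by positivity)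
            exact pow_le_pow_left₀ h6.le h5 K
        _ ≤ _ := div_le_div_of_nonneg_right h3r (by positivity)
    have hSc : ((P.sigma G).card : ℝ) = ∑ ℓ ∈ P, ((G ℓ).card : ℝ) := by
      rw [card_sigma]
      push_cast
      rfl
    have hS1 : (P.card : ℝ) * ((R : ℝ) / (2 * l) ^ K) ≤ ((P.sigma G).card : ℝ) := by
      rw [hSc, ← nsmul_eq_mul, ← sum_const]
      exact sum_le_sum hGc
    have hS2 : (R : ℝ) / (φ * l) / 2 * ((R : ℝ) / (2 * l) ^ K) ≤ ((P.sigma G).card : ℝ) :=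
      le_trans (mul_le_mul_of_nonneg_right hPc (by positivity)) hS1
    have hS3 : (R : ℝ) ^ 2 ≤ ((P.sigma G).card : ℝ) * (2 * φ * 2 ^ K * l ^ (K + 1)) := by
      have e : (R : ℝ) / (φ * l) / 2 * ((R : ℝ) / (2 * l) ^ K) =
          (R : ℝ) ^ 2 / (2 * φ * 2 ^ K * l ^ (K + 1)) := by
        rw [mul_pow]
        field_simp
        ring
      rw [e, div_le_iff₀ (by positivity)] at hS2
      exact hS2
    have hl3 : (2 * φ * 2 ^ K : ℝ) ≤ l := by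
      have : 2 * φ * 2 ^ K ≤ l := by omega
      exact_mod_cast this
    have hS4 : (R : ℝ) ^ 2 ≤ ((P.sigma G).card : ℝ) * (l : ℝ) ^ (K + 2) := by
      refine hS3.trans ?_
      apply mul_le_mul_of_nonneg_left _ (Nat.cast_nonneg _)
      calc (2 * φ * 2 ^ K * (l : ℝ) ^ (K + 1)) ≤ l * (l : ℝ) ^ (K + 1) :=
            mul_le_mul_of_nonneg_right hl3 (by positivity)
        _ = _ := by ring
    rw [← hl]
    exact_mod_cast hS4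
  · intro g hg
    rw [mem_sigma] at hg
    obtain ⟨h1, h2, h3, -⟩ := hPm g.1 hg.1
    obtain ⟨⟨g0, g1, g2, g3, g4⟩, ⟨g5, g6, g7⟩, g8, ⟨g9', g9, g10, g11, g12⟩, g13, g14⟩ :=
      (hPG g.1 hg.1).2 g.2 hg.2
    have hsz : 16 * (a + 1) * Q2 ^ 4 * g.1 ^ 2 ≤ 64 * (a + 1) * Q2 ^ 4 * R ^ 2 := by
      calc 16 * (a + 1) * Q2 ^ 4 * g.1 ^ 2 ≤ 16 * (a + 1) * Q2 ^ 4 * (2 * R) ^ 2 :=
            Nat.mul_le_mul_left _ (Nat.pow_le_pow_left h3 2)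
        _ = _ := by ring
    have hal : R ≤ alD D Q2 g.1 (v g.1 g.2) := h2.le.trans g9'
    refine ⟨lt_of_lt_of_le (by omega : 0 < R) hal, g9, g5, g6, g7, g8, hal, g10.trans hsz, g11.trans hsz, g12.trans hsz,
      g13, ?_⟩
    intro i p hp hd
    calc R < g.1 := h2
      _ < p ^ K := g14 i p hp hd
      _ ≤ p ^ (K + 2) := Nat.pow_le_pow_right hp.pos (by omega)
  · intro g hg g' hg' h1 h2
    rw [mem_sigma] at hg hg'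
    obtain ⟨p1, p2, p3, -⟩ := hPm g.1 hg.1
    obtain ⟨p1', p2', p3', -⟩ := hPm g'.1 hg'.1
    obtain ⟨⟨g0, g1, g2, g3, g4⟩, -⟩ := (hPG g.1 hg.1).2 g.2 hg.2
    obtain ⟨⟨g0', g1', g2', g3', g4'⟩, -⟩ := (hPG g'.1 hg'.1).2 g'.2 hg'.2
    rw [ha] at g3 g3'
    obtain ⟨e1, e2, e3⟩ := hinj D Q2 g.1 g'.1 g.2 (v g.1 g.2) g'.2 (v g'.1 g'.2) hD0 hQ2pos p1 p1'
      (by omega) (by omega) (by omega) (by omega) g0 g1 g2 g3 g0' g1' g2' g3' g4 g4' h1 h2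
    exact Sigma.ext e1 (heq_of_eq e3)

end Pool.Agent.Y887.QKF
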