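import Mathlib
import Pool.Agent.H446R2.ED_T1
import Pool.Agent.Y887.QK.Fmk
import Pool.Agent.Y887.QK.Ptg
import Pool.Agent.Y887.QE.Fin
import Pool.Agent.Y887.QF.Cnq

/-!
Almost the true number of arguments at which a prime independent multiplicative function takes an
exact value at `N ^ 2 + a`.
-/

set_option autoImplicit false

namespace Pool.Agent.Y887.QKF

open Finset Filter Pool.Agent.Y887.DK Pool.Agent.Y887.QE Pool.Agent.Y887.QF
open Pool.Agent.Y887.DE (kap)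
open Pool.Agent.H410R2.ED (Ln Pt pt Comb params)

/-- composition at a line, without hypotheses on the rough parts -/
theorem comp0 {Γ : Type} [CommGroup Γ] {f : ℕ → Γ} {D : ℤ} (hD : ¬ IsSquare D)
    {y0 B0 b T : ℕ} {ρ : Ln 1 b → Fin (1 + 1) → ℕ}
    {val : Γ} {MB : ℕ} {h : Ln 1 b → ℕ} {s c A c' : Pt 1 b → ℕ} {Q' X' M0 : ℕ}
    {w : Ln 1 b → ℕ → ℕ} (H : Cfg f D y0 B0 b T ρ val MB h s c A c' Q' X' M0 w)
    {al k ga : ℕ} (hga : 0 < ga) (h1 : al ≡ 1 [MOD Q' ^ 2]) (h2 : k ≡ 0 [MOD Q' ^ 2])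
    (h3 : ((Q' ^ 2 : ℕ) : ℤ) ∣ ga + D) (hdisc : (k : ℤ) ^ 2 - al * ga = D) (n : ℕ)
    (e : Ln 1 b) :
    ∃ N : ℕ, N = pv al k ga (Q' * n + (X' + s (pt 1 e))) / h e +
        al * (Q' * n + (X' + s (pt 1 e))) + k ∧
      vq D N * h e ^ 2 = pv al k ga (Q' * n + (X' + s (pt 0 e))) *
        pv al k ga (Q' * n + (X' + s (pt 1 e))) := by
  obtain ⟨x, hx⟩ : ∃ x, x = Q' * n + (X' + s (pt 0 e)) := ⟨_, rfl⟩
  obtain ⟨y, hy⟩ : ∃ y, y = Q' * n + (X' + s (pt 1 e)) := ⟨_, rfl⟩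
  have hxy : x = y + h e := by
    rw [hx, hy, H.line e]
    ring
  have hhpos : 0 < h e := Nat.pos_of_ne_zero (H.sq e).ne_zero
  have hpy0 : pv al k ga y ≠ 0 := (pv_pos hga).ne'
  obtain ⟨hq1, hq2⟩ := quot h1 h2 h3 (H.cQ (pt 1 e)) (H.cd (pt 1 e) n) (H.cq (pt 1 e) n)
  rw [← hy] at hq1 hq2
  have hpy : ∀ p : ℕ, p.Prime → p ∣ h e → (pv al k ga y).factorization p = 1 := by
    intro p hp hd
    have h5 := H.fy e n p hp hd
    rw [fac_c (H.cd _ n) (vq_pos hD _).ne' (H.cq _ n p hp (hd.trans (H.hQ e)))] at h5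
    rw [fac_c hq1 hpy0 (hq2 p hp (hd.trans (H.hQ e))), h5]
  have hdy : h e ∣ pv al k ga y := by
    apply sqf_dvd (H.sq e) hpy0
    intro p hp hd
    exact Nat.dvd_of_factorization_pos (by rw [hpy p hp hd]; norm_num)
  obtain ⟨N, hN, hcomp⟩ := pv_comp hdisc hhpos hxy hdy
  refine ⟨N, ?_, ?_⟩
  · rw [hN, hy]
  · rw [hcomp, hx, hy]

theorem not_sq_neg {a : ℕ} (ha : 0 < a) : ¬ IsSquare (-(a : ℤ)) := by
  rintro ⟨x, hx⟩
  have h1 : (0 : ℤ) < a := by exact_mod_cast ha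
  nlinarith [mul_self_nonneg x]

set_option maxHeartbeats 8000000 in
theorem mainK (hsieve : QKS.S_sieve) (hform : QKS.S_form) (hinj : QKS.S_inj)
    {Γ : Type} [CommGroup Γ] (f : ℕ → Γ) (hf0 : f 0 = 1) (Lp Lm : List ℕ)
    (hrel : (Lp.map (kap f)).prod = f 1 * (Lm.map (kap f)).prod) :
    ∃ (Φ : Γ) (K : ℕ), ∀ a : ℕ, 0 < a → ∀ y0 MB : ℕ, 0 < MB →
      ∀ ex : List ℕ, (∀ m ∈ ex, 1 ≤ m) → ∀ M : ℕ, ∃ C : ℕ, ∀ᶠ X : ℕ in atTop,
        (X : ℝ) / Real.log X ^ K ≤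
          ({N : ℕ | N ≤ X ∧ GoodN f (-(a : ℤ)) y0 MB M K C X (Φ * (ex.map f).prod) N}.ncard : ℝ) := by
  classical
  obtain ⟨C2, hC20, hfam⟩ := famK hsieve hform hinj
  have hC2r : (0 : ℝ) < 3 * C2 := by
    have : (1 : ℝ) ≤ C2 := by exact_mod_cast hC20
    linarith
  obtain ⟨b, T, hb2, hbT, hCT⟩ := params (3 * C2) hC2r 1
  obtain ⟨ρ, hρ, hcomb⟩ := Pool.Agent.H446R2.comb 1 b T hbT
  have hκ2 : 2 ≤ (1 + 1) * b ^ 1 := by rw [pow_one]; omega
  obtain ⟨K0, hfam⟩ := hfam ((1 + 1) * b ^ 1) (by omega)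
  have hcardP : Fintype.card (Pt 1 b) = (1 + 1) * b ^ 1 := by simp [Pt]
  have hsumbd : 2 * ((1 + 1) * b ^ 1 * (C2 * (Nat.log 2 ((1 + 1) * b ^ 1) + 1))) ≤ T * b ^ 1 := by
    have h1 := natlog_le2 hκ2
    have h2 : (2 : ℝ) * ((((1 + 1) * b ^ 1 : ℕ) : ℝ) * (C2 *
        ((Nat.log 2 ((1 + 1) * b ^ 1) + 1 : ℕ) : ℝ))) ≤
        2 * (3 * C2 * (((1 + 1) * b ^ 1 : ℕ) : ℝ) * Real.log (((1 + 1) * b ^ 1 : ℕ) : ℝ)) := by
      have h3 : (0 : ℝ) ≤ (((1 + 1) * b ^ 1 : ℕ) : ℝ) * C2 := by positivity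
      have h4 := mul_le_mul_of_nonneg_left h1 h3
      calc (2 : ℝ) * ((((1 + 1) * b ^ 1 : ℕ) : ℝ) * (C2 *
            ((Nat.log 2 ((1 + 1) * b ^ 1) + 1 : ℕ) : ℝ)))
          = 2 * ((((1 + 1) * b ^ 1 : ℕ) : ℝ) * C2 *
            ((Nat.log 2 ((1 + 1) * b ^ 1) + 1 : ℕ) : ℝ)) := by ring
        _ ≤ 2 * ((((1 + 1) * b ^ 1 : ℕ) : ℝ) * C2 *
            (3 * Real.log (((1 + 1) * b ^ 1 : ℕ) : ℝ))) := by linarith
        _ = _ := by ring
    have h4 := h2.trans hCT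
    exact_mod_cast h4
  obtain ⟨Φ, hcfg⟩ := config f hf0 Lp Lm hrel b T hb2 ρ hρ
  refine ⟨Φ, 3 * K0 + 3, ?_⟩
  intro a ha y0 MB hMB ex hex M
  obtain ⟨D, hDd⟩ : ∃ D : ℤ, D = -(a : ℤ) := ⟨_, rfl⟩
  have hD : ¬ IsSquare D := by rw [hDd]; exact not_sq_neg ha
  have hDa : D.natAbs = a := by rw [hDd, Int.natAbs_neg, Int.natAbs_natCast]
  obtain ⟨h, s, c, A, c', Q', X', M0, w, H⟩ := hcfg D hD y0 MB hMB ex hex M
  obtain ⟨B0, hB0⟩ : ∃ B0 : ℕ, B0 = 4 * (b * b) + 8 * b + M + D.natAbs + 5 := ⟨_, rfl⟩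
  rw [← hB0] at H
  obtain ⟨val, hval⟩ : ∃ val : Γ, val = Φ * (ex.map f).prod := ⟨_, rfl⟩
  rw [← hval] at H ⊢
  have hQpos := H.Qpos
  obtain ⟨xx, hxx⟩ : ∃ xx : Pt 1 b → ℕ, ∀ P, xx P = Q' * 0 + (X' + s P) := ⟨_, fun _ => rfl⟩
  obtain ⟨Cf, hCf, hfam⟩ := hfam a Q' ha hQpos
    (fun p hp hle => (H.small p hp (by rw [pow_one] at hle; omega)).trans H.hMQ)
    (fun p hp hd => (H.small p hp (by
      have := Nat.le_of_dvd ha hd
      omega)).trans H.hMQ) (Pt 1 b) hcardP xx c H.cQ (by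
    intro al k ga h1 h2 h3 P
    rw [hxx]
    rw [← hDd] at h3
    exact quot h1 h2 h3 (H.cQ P) (H.cd P 0) (H.cq P 0))
  rw [← hDd] at hfam ⊢
  have : Nonempty (Ln 1 b) := ⟨fun _ => ⟨0, by omega⟩⟩
  have hE1 : 1 ≤ Fintype.card (Ln 1 b) := Fintype.card_pos
  obtain ⟨nE, hnE⟩ : ∃ nE : ℕ, nE = Fintype.card (Ln 1 b) := ⟨_, rfl⟩
  obtain ⟨Ss, hSs⟩ : ∃ Ss : ℕ, Ss = ∑ P, xx P + 1 := ⟨_, rfl⟩
  have hxle : ∀ P, xx P + 1 ≤ Ss := by
    intro P
    have h1 := single_le_sum (f := fun P => xx P) (fun _ _ => Nat.zero_le _) (mem_univ P)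
    rw [hSs]
    exact Nat.add_le_add_right h1 1
  obtain ⟨W, hW⟩ : ∃ W : ℕ, W = 2 * (Cf * Ss ^ 2) := ⟨_, rfl⟩
  have hW1 : 1 ≤ W := by
    have h1 : 1 ≤ Cf * Ss ^ 2 := Nat.mul_pos (by omega) (pow_pos (by omega) 2)
    omega
  obtain ⟨Cb, hCb⟩ : ∃ Cb : ℕ, Cb = (∑ P, c' P) * (∑ P, c' P) := ⟨_, rfl⟩
  refine ⟨Cb, ?_⟩
  obtain ⟨Z, hZ⟩ : ∃ Z : ℕ, Z = nE * 2 ^ (6 * K0) := ⟨_, rfl⟩
  -- the parameter
  obtain ⟨Rf, hRf⟩ : ∃ Rf : ℕ → ℕ, ∀ X, Rf X = Nat.sqrt (X / W) := ⟨_, fun _ => rfl⟩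
  have hRt : Tendsto Rf atTop atTop := by
    rw [tendsto_atTop]
    intro B
    filter_upwards [eventually_ge_atTop (W * B ^ 2)] with X hX
    rw [hRf, Nat.le_sqrt']
    exact (Nat.le_div_iff_mul_le (by omega)).2 (by rw [mul_comm]; exact hX)
  have hlogX : Tendsto (fun X : ℕ => Real.log (X : ℝ)) atTop atTop :=
    Real.tendsto_log_atTop.comp tendsto_natCast_atTop_atTop
  have hXlog : ∀ᶠ X : ℕ in atTop, (M : ℝ) ≤ X / Real.log X ^ (K0 + 1) := by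
    have h1 : Tendsto (fun x : ℝ => Real.log x ^ (K0 + 1) / x) atTop (nhds 0) :=
      (Real.isLittleO_pow_log_id_atTop (n := K0 + 1)).tendsto_div_nhds_zero
    have h2 := (h1.comp tendsto_natCast_atTop_atTop).eventually_lt_const
      (show (0 : ℝ) < 1 / ((M : ℝ) + 1) by positivity)
    filter_upwards [h2, eventually_ge_atTop 3] with X hX1 hX2
    have h3 : (3 : ℝ) ≤ X := by exact_mod_cast hX2
    have h4 : 0 < Real.log (X : ℝ) := Real.log_pos (by linarith)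
    simp only [Function.comp_apply] at hX1
    rw [div_lt_div_iff₀ (by linarith) (by positivity)] at hX1
    rw [le_div_iff₀ (by positivity)]
    have h5 : (0 : ℝ) ≤ Real.log (X : ℝ) ^ (K0 + 1) := by positivity
    nlinarith
  have hfew := sqf_few hD 1 (3 * K0 + 3) (K0 + 1) le_rfl (by omega)
  filter_upwards [hRt.eventually hfam, hRt.eventually_ge_atTop (4 * W + 3), hfew, hXlog,
    hlogX.eventually_ge_atTop (4 * (4 * W * Z * 2 ^ K0) + 3), eventually_ge_atTop 3]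
    with X hX1 hX2 hX3 hX4 hX5 hX6
  obtain ⟨R, hR⟩ : ∃ R, R = Rf X := ⟨_, rfl⟩
  rw [← hR] at hX1 hX2
  have hRX : W * R ^ 2 ≤ X := by
    rw [hR, hRf]
    calc W * Nat.sqrt (X / W) ^ 2 ≤ W * (X / W) :=
          Nat.mul_le_mul_left _ (by rw [pow_two]; exact Nat.sqrt_le _)
      _ ≤ X := Nat.mul_div_le X W
  have hXR : X < 4 * W * R ^ 2 := by
    have h1 : X / W < (R + 1) ^ 2 := by
      rw [hR, hRf, pow_two]
      exact Nat.lt_succ_sqrt (X / W)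
    have h2 : X < W * (R + 1) ^ 2 := by
      have := (Nat.div_lt_iff_lt_mul (by omega : 0 < W)).1 h1
      rwa [mul_comm] at this
    refine h2.trans_le ?_
    calc W * (R + 1) ^ 2 ≤ W * (2 * R) ^ 2 :=
          Nat.mul_le_mul_left _ (Nat.pow_le_pow_left (by omega) 2)
      _ = _ := by ring
  have hXR3 : X < R ^ 3 := by
    refine hXR.trans_le ?_
    calc 4 * W * R ^ 2 ≤ R * R ^ 2 := Nat.mul_le_mul_right _ (by omega)
      _ = R ^ 3 := by ring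
  obtain ⟨S, al, k, ga, hScard, hmem, hinj'⟩ := hX1
  -- the values
  obtain ⟨V, hV⟩ : ∃ V : (Σ _ : ℕ, ℕ) → Pt 1 b → ℕ, ∀ g P,
      V g P = pv (al g) (k g) (ga g) (xx P) / c P := ⟨_, fun _ _ => rfl⟩
  have hq : ∀ g ∈ S, ∀ P, c P ∣ pv (al g) (k g) (ga g) (xx P) ∧
      ∀ p : ℕ, p.Prime → p ∣ Q' → ¬ p ∣ V g P := by
    intro g hg P
    obtain ⟨-, -, h1, h2, h3, -⟩ := hmem g hg
    rw [hV, hxx]
    exact quot h1 h2 h3 (H.cQ P) (H.cd P 0) (H.cq P 0)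
  have hpvle : ∀ g ∈ S, ∀ P, pv (al g) (k g) (ga g) (xx P) ≤ Cf * Ss ^ 2 * R ^ 2 := by
    intro g hg P
    obtain ⟨-, -, -, -, -, -, -, h5, h6, h7, -⟩ := hmem g hg
    calc pv (al g) (k g) (ga g) (xx P)
        = al g * (xx P) ^ 2 + k g * (2 * xx P) + ga g * 1 := by unfold pv; ring
      _ ≤ (Cf * R ^ 2) * (xx P) ^ 2 + (Cf * R ^ 2) * (2 * xx P) + (Cf * R ^ 2) * 1 :=
          Nat.add_le_add (Nat.add_le_add (Nat.mul_le_mul_right _ h5) (Nat.mul_le_mul_right _ h6))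
            (Nat.mul_le_mul_right _ h7)
      _ = (Cf * R ^ 2) * (xx P + 1) ^ 2 := by ring
      _ ≤ (Cf * R ^ 2) * Ss ^ 2 := Nat.mul_le_mul_left _ (Nat.pow_le_pow_left (hxle P) 2)
      _ = _ := by ring
  have hVpos : ∀ g ∈ S, ∀ P, 0 < V g P := by
    intro g hg P
    obtain ⟨-, h0, -⟩ := hmem g hg
    rw [hV]
    exact Nat.div_pos (Nat.le_of_dvd (pv_pos h0) (hq g hg P).1) (H.cpos P)
  have hVle : ∀ g ∈ S, ∀ P, V g P ≤ R ^ 3 := by
    intro g hg P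
    rw [hV]
    refine (Nat.div_le_self _ _).trans ((hpvle g hg P).trans ?_)
    have : Cf * Ss ^ 2 * R ^ 2 ≤ W * R ^ 2 := Nat.mul_le_mul_right _ (by omega)
    omega
  -- the points
  have hpt : ∀ g : (Σ _ : ℕ, ℕ), g ∈ S → ∃ (e : Ln 1 b) (N : ℕ),
      (∀ l, ρ e l + (V g (pt l e)).primeFactors.card = T + 1) ∧
      N = pv (al g) (k g) (ga g) (xx (pt 1 e)) / h e + al g * xx (pt 1 e) + k g ∧
      vq D N * h e ^ 2 = (c (pt 0 e) * c (pt 1 e)) * (V g (pt 0 e) * V g (pt 1 e)) := by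
    intro g hg
    obtain ⟨h0, h1, h2, h3, h4, h5, -, -, -, -, hsum, -⟩ := hmem g hg
    simp only [← hV] at hsum
    obtain ⟨e, he⟩ := hcomb (fun P => (V g P).primeFactors.card) (by omega)
    obtain ⟨N, hN, hcmp⟩ := comp0 hD H h1 h2 h3 h4 h5 0 e
    rw [← hxx, ← hxx] at hcmp
    rw [← hxx] at hN
    refine ⟨e, N, he, hN, ?_⟩
    rw [hcmp, ← Nat.mul_div_cancel' (hq g hg (pt 0 e)).1, ← hV,
      ← Nat.mul_div_cancel' (hq g hg (pt 1 e)).1, ← hV]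
    ring
  choose! eF NF hF using hpt
  -- the fibres
  have hfib : ∀ q ∈ S.image (fun g => (eF g, NF g)),
      (S.filter (fun g => (eF g, NF g) = q)).card ≤ 2 ^ (6 * K0) := by
    intro q hq'
    rw [mem_image] at hq'
    obtain ⟨g0, hg0, rfl⟩ := hq'
    obtain ⟨-, h1, h2⟩ := hF g0 hg0
    obtain ⟨s0, hs0⟩ : ∃ s0, s0 = V g0 (pt 0 (eF g0)) * V g0 (pt 1 (eF g0)) := ⟨_, rfl⟩
    have hs00 : s0 ≠ 0 := by
      rw [hs0]
      exact (Nat.mul_pos (hVpos _ hg0 _) (hVpos _ hg0 _)).ne'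
    have hr0 := (hmem g0 hg0).2.2.2.2.2.2.2.2.2.2.2
    simp only [← hV] at hr0
    have hdivs : s0.divisors.card ≤ 2 ^ (6 * K0) := by
      apply div_rough (by omega : 2 ≤ R) hs00
      · rw [hs0, show 6 = 3 + 3 by norm_num, pow_add]
        exact Nat.mul_le_mul (hVle _ hg0 _) (hVle _ hg0 _)
      · intro p hp hd
        rw [hs0] at hd
        rcases (hp.dvd_mul).1 hd with h7 | h7
        · exact hr0 _ p hp h7
        · exact hr0 _ p hp h7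
    refine le_trans ?_ hdivs
    apply card_le_card_of_injOn (fun g => V g (pt 1 (eF g)))
    · intro g hg
      rw [mem_coe, mem_filter] at hg
      obtain ⟨hg, heq⟩ := hg
      rw [Prod.mk.injEq] at heq
      obtain ⟨he, hNe⟩ := heq
      obtain ⟨-, k1, k2⟩ := hF g hg
      rw [mem_coe, Nat.mem_divisors]
      refine ⟨?_, hs00⟩
      have hss : V g (pt 0 (eF g)) * V g (pt 1 (eF g)) = s0 := by
        rw [hNe, he] at k2
        have h7 : 0 < c (pt 0 (eF g0)) * c (pt 1 (eF g0)) := Nat.mul_pos (H.cpos _) (H.cpos _)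
        rw [he, hs0]
        exact Nat.eq_of_mul_eq_mul_left h7 (k2.symm.trans h2)
      rw [← hss]
      exact dvd_mul_left _ _
    · intro g hg g' hg' hVV
      rw [mem_coe, mem_filter] at hg hg'
      obtain ⟨hg, heq⟩ := hg
      obtain ⟨hg', heq'⟩ := hg'
      rw [Prod.mk.injEq] at heq heq'
      obtain ⟨he, hNe⟩ := heq
      obtain ⟨he', hNe'⟩ := heq'
      obtain ⟨-, k1, -⟩ := hF g hg
      obtain ⟨-, k1', -⟩ := hF g' hg'
      obtain ⟨-, g3, -, -, -, g7, -⟩ := hmem g hg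
      obtain ⟨-, -, -, -, -, g7', -⟩ := hmem g' hg'
      simp only at hVV
      rw [he, he'] at hVV
      have hZ : pv (al g) (k g) (ga g) (xx (pt 1 (eF g0))) =
          pv (al g') (k g') (ga g') (xx (pt 1 (eF g0))) := by
        rw [← Nat.mul_div_cancel' (hq g hg (pt 1 (eF g0))).1,
          ← Nat.mul_div_cancel' (hq g' hg' (pt 1 (eF g0))).1, ← hV, ← hV, hVV]
      rw [he, hNe] at k1
      rw [he', hNe'] at k1'
      obtain ⟨r1, r2⟩ := recon g3 g7 g7' hZ (k1.symm.trans k1')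
      exact hinj' g hg g' hg' r1 r2
  have hcard1 := card_le_mul_card_image S (2 ^ (6 * K0)) hfib
  have hcard2 : (S.image (fun g => (eF g, NF g))).card ≤ nE * (S.image NF).card := by
    have hsub : S.image (fun g => (eF g, NF g)) ⊆ (univ : Finset (Ln 1 b)) ×ˢ (S.image NF) := by
      intro q hq'
      rw [mem_image] at hq'
      obtain ⟨g, hg, rfl⟩ := hq'
      exact mem_product.2 ⟨mem_univ _, mem_image_of_mem _ hg⟩
    have := card_le_card hsub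
    rwa [card_product, card_univ, ← hnE] at this
  -- the exceptional arguments
  obtain ⟨Bd, hBd⟩ : ∃ Bd : Finset ℕ, Bd = (range (1 * X + 1)).filter (fun n : ℕ =>
      ∃ p : ℕ, p.Prime ∧ X < p ^ (3 * K0 + 3) ∧ (p : ℤ) ^ 2 ∣ (n : ℤ) ^ 2 - D) := ⟨_, rfl⟩
  rw [← hBd] at hX3
  obtain ⟨Gd, hGd⟩ : ∃ Gd : Finset ℕ, Gd = ((S.image NF) \ Bd) \ range M := ⟨_, rfl⟩
  have hGc : (S.image NF).card ≤ Gd.card + Bd.card + M := by
    have h1 := card_le_card_sdiff_add_card (s := S.image NF) (t := Bd)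
    have h2 := card_le_card_sdiff_add_card (s := (S.image NF) \ Bd) (t := range M)
    rw [card_range] at h2
    rw [hGd]
    omega
  have hNle : ∀ g ∈ S, NF g ≤ X := by
    intro g hg
    obtain ⟨-, k1, -⟩ := hF g hg
    obtain ⟨-, -, -, -, -, -, -, h5, h6, -⟩ := hmem g hg
    obtain ⟨y, hy⟩ : ∃ y, y = xx (pt 1 (eF g)) := ⟨_, rfl⟩
    have h1 := hpvle g hg (pt 1 (eF g))
    have hys : y + 1 ≤ Ss := by rw [hy]; exact hxle _
    rw [← hy] at k1 h1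
    have h2 : pv (al g) (k g) (ga g) y / h (eF g) ≤ pv (al g) (k g) (ga g) y := Nat.div_le_self _ _
    have h3 : al g * y + k g ≤ Cf * Ss ^ 2 * R ^ 2 := by
      calc al g * y + k g ≤ (Cf * R ^ 2) * y + (Cf * R ^ 2) * 1 :=
            Nat.add_le_add (Nat.mul_le_mul_right _ h5) (by rw [mul_one]; exact h6)
        _ = (Cf * R ^ 2) * (y + 1) := by ring
        _ ≤ (Cf * R ^ 2) * Ss ^ 2 :=
            Nat.mul_le_mul_left _ (hys.trans (Nat.le_self_pow (by norm_num) _))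
        _ = _ := by ring
    have h4 : 2 * (Cf * Ss ^ 2 * R ^ 2) = W * R ^ 2 := by rw [hW]; ring
    rw [k1]
    omega
  have hGsub : ((Gd : Finset ℕ) : Set ℕ) ⊆
      {N : ℕ | N ≤ X ∧ GoodN f D y0 MB M (3 * K0 + 3) Cb X val N} := by
    intro N hN
    rw [mem_coe, hGd, Finset.mem_sdiff, Finset.mem_sdiff, mem_image, mem_range] at hN
    obtain ⟨⟨⟨g, hg, rfl⟩, hNB⟩, hNM⟩ := hN
    obtain ⟨k0, k1, k2⟩ := hF g hg
    obtain ⟨g1, g2, g3, g4, g5, g6, g7, g8, g9, g10, -, hr⟩ := hmem g hg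
    simp only [← hV] at hr
    have hrX : ∀ P, ∀ p : ℕ, p.Prime → p ∣ V g P → X < p ^ (3 * K0 + 3) := by
      intro P p hp hd
      calc X < R ^ 3 := hXR3
        _ ≤ (p ^ K0) ^ 3 := Nat.pow_le_pow_left (hr P p hp hd).le 3
        _ = p ^ (3 * K0) := by rw [← pow_mul, mul_comm]
        _ ≤ p ^ (3 * K0 + 3) := Nat.pow_le_pow_right hp.pos (by omega)
    have hsq : Squarefree (V g (pt 0 (eF g)) * V g (pt 1 (eF g))) := by
      rw [Nat.squarefree_iff_prime_squarefree]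
      intro p hp hpp
      have hpd : p ∣ V g (pt 0 (eF g)) ∨ p ∣ V g (pt 1 (eF g)) :=
        (hp.dvd_mul).1 ((dvd_mul_right p p).trans hpp)
      have hpQ : ¬ p ∣ Q' := by
        intro hpQ
        rcases hpd with h7 | h7
        · exact (hq g hg _).2 p hp hpQ h7
        · exact (hq g hg _).2 p hp hpQ h7
      have hpX : X < p ^ (3 * K0 + 3) := by
        rcases hpd with h7 | h7
        · exact hrX _ p hp h7
        · exact hrX _ p hp h7
      apply hNB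
      rw [hBd, mem_filter, mem_range]
      refine ⟨by have := hNle g hg; omega, p, hp, hpX, ?_⟩
      have h8 : p * p ∣ vq D (NF g) * h (eF g) ^ 2 := by
        rw [k2]
        exact hpp.mul_left _
      have h9 : Nat.Coprime (p * p) (h (eF g) ^ 2) := by
        have h10 : Nat.Coprime p (h (eF g)) :=
          (Nat.Prime.coprime_iff_not_dvd hp).2 fun h11 => hpQ (h11.trans (H.hQ _))
        exact (Nat.Coprime.mul_left h10 h10).pow_right 2
      have h10 : p * p ∣ vq D (NF g) := h9.dvd_of_dvd_mul_right h8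
      rw [dvd_vq] at h10
      rw [pow_two]
      exact_mod_cast h10
    simp only [hV, hxx] at hsq k0
    obtain ⟨N', cc, j1, j2, j3, j4, j5, j6⟩ := pointG (f := f) (by assumption) hD H g2 g3 g4 g5 g6 0
      (eF g) hsq k0
    rw [← hxx] at j1
    have hNN : NF g = N' := k1.trans j1.symm
    rw [← hNN] at j2 j6
    simp only [← hxx, ← hV] at j2 j4 j5 hsq
    refine ⟨hNle g hg, by omega, j6, cc, _, j2, ?_, hsq, ?_, ?_, j5⟩
    · have hh2 : 1 ≤ h (eF g) ^ 2 := Nat.one_le_pow _ _ (Nat.pos_of_ne_zero (H.sq _).ne_zero)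
      calc cc ≤ h (eF g) ^ 2 * cc := Nat.le_mul_of_pos_left _ hh2
        _ = _ := j3
        _ ≤ Cb := by
            rw [hCb]
            exact Nat.mul_le_mul
              (single_le_sum (f := fun P => c' P) (fun _ _ => Nat.zero_le _) (mem_univ _))
              (single_le_sum (f := fun P => c' P) (fun _ _ => Nat.zero_le _) (mem_univ _))
    · intro p hp hd
      rcases (hp.dvd_mul).1 hd with h7 | h7
      · exact hrX _ p hp h7
      · exact hrX _ p hp h7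
    · intro p hp hd
      have h1 := j4 p hp hd
      by_contra hle
      exact h1 (H.small p hp (by omega))
  have hfin : {N : ℕ | N ≤ X ∧ GoodN f D y0 MB M (3 * K0 + 3) Cb X val N}.Finite :=
    (Set.finite_Iic X).subset fun n hn => hn.1
  have hcard3 := Set.ncard_le_ncard hGsub hfin
  rw [Set.ncard_coe_finset] at hcard3
  have hcard3r : (Gd.card : ℝ) ≤
      ({N : ℕ | N ≤ X ∧ GoodN f D y0 MB M (3 * K0 + 3) Cb X val N}.ncard : ℝ) := by
    exact_mod_cast hcard3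
  refine le_trans ?_ hcard3r
  -- the arithmetic
  obtain ⟨n1, hn1⟩ : ∃ n1, n1 = (S.image NF).card := ⟨_, rfl⟩
  rw [← hn1] at hcard2 hGc
  have hZ1 : 1 ≤ Z := by
    rw [hZ]
    exact Nat.mul_pos (by omega) (by positivity)
  obtain ⟨l, hl⟩ : ∃ l : ℕ, l = Nat.log 2 R + 1 := ⟨_, rfl⟩
  rw [← hl] at hScard
  have hn2 : R ^ 2 ≤ Z * n1 * l ^ K0 := by
    calc R ^ 2 ≤ S.card * l ^ K0 := hScard
      _ ≤ (2 ^ (6 * K0) * (nE * n1)) * l ^ K0 :=
          Nat.mul_le_mul_right _ (hcard1.trans (Nat.mul_le_mul_left _ hcard2))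
      _ = _ := by rw [hZ]; ring
  have hn3 : X ≤ 4 * W * Z * n1 * l ^ K0 := by
    calc X ≤ 4 * W * R ^ 2 := hXR.le
      _ ≤ 4 * W * (Z * n1 * l ^ K0) := Nat.mul_le_mul_left _ hn2
      _ = _ := by ring
  obtain ⟨LX, hLX⟩ : ∃ LX : ℝ, LX = Real.log X := ⟨_, rfl⟩
  rw [← hLX] at hX3 hX4 hX5 ⊢
  have hl2 : (l : ℝ) ≤ 2 * LX := by
    have h1 : R ≤ X := by
      have h2 : R ≤ R ^ 2 := Nat.le_self_pow (by norm_num) R
      have h3 : R ^ 2 ≤ W * R ^ 2 := Nat.le_mul_of_pos_left _ (by omega)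
      omega
    have h2 : (2 : ℝ) ^ Nat.log 2 R ≤ X := by
      have := (Nat.pow_log_le_self 2 (by omega : R ≠ 0)).trans h1
      exact_mod_cast this
    have h3 := Real.log_le_log (by positivity) h2
    rw [Real.log_pow, ← hLX] at h3
    have h4 := Real.log_two_gt_d9
    have h5 : (0 : ℝ) ≤ (Nat.log 2 R : ℝ) := Nat.cast_nonneg _
    have h6 : (3 : ℝ) ≤ LX := by
      have : (0 : ℝ) ≤ 4 * (4 * W * Z * 2 ^ K0) := by positivity
      linarith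
    have h7 : ((l : ℕ) : ℝ) = (Nat.log 2 R : ℝ) + 1 := by rw [hl]; push_cast; ring
    rw [h7]
    have h8 : (Nat.log 2 R : ℝ) * 0.6931471803 ≤ LX :=
      (mul_le_mul_of_nonneg_left h4.le h5).trans h3
    linarith
  have hLX0 : (3 : ℝ) ≤ LX := by
    have : (0 : ℝ) ≤ 4 * (4 * W * Z * 2 ^ K0) := by positivity
    linarith
  obtain ⟨Cc, hCc⟩ : ∃ Cc : ℝ, Cc = 4 * W * Z * 2 ^ K0 := ⟨_, rfl⟩
  rw [← hCc] at hX5
  have hCc0 : 0 < Cc := by
    rw [hCc]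
    have h1 : (0 : ℝ) < W := by exact_mod_cast (by omega : 0 < W)
    have h2 : (0 : ℝ) < Z := by exact_mod_cast (by omega : 0 < Z)
    positivity
  have hn4 : (X : ℝ) ≤ Cc * LX ^ K0 * n1 := by
    have h1 : (X : ℝ) ≤ 4 * W * Z * n1 * (l : ℝ) ^ K0 := by exact_mod_cast hn3
    refine h1.trans ?_
    have h2 : (l : ℝ) ^ K0 ≤ (2 * LX) ^ K0 := pow_le_pow_left₀ (Nat.cast_nonneg _) hl2 K0
    calc 4 * (W : ℝ) * Z * n1 * (l : ℝ) ^ K0 ≤ 4 * (W : ℝ) * Z * n1 * (2 * LX) ^ K0 :=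
          mul_le_mul_of_nonneg_left h2 (by positivity)
      _ = _ := by rw [hCc, mul_pow]; ring
  obtain ⟨v, hv⟩ : ∃ v : ℝ, v = X / LX ^ (K0 + 1) := ⟨_, rfl⟩
  rw [← hv] at hX3 hX4
  have hv0 : 0 ≤ v := by rw [hv]; positivity
  have hvX : v * LX ≤ Cc * n1 := by
    have h1 : v * LX = X / LX ^ K0 := by
      rw [hv, pow_succ]
      field_simp
    rw [h1, div_le_iff₀ (by positivity)]
    calc (X : ℝ) ≤ Cc * LX ^ K0 * n1 := hn4
      _ = _ := by ring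
  have hGr : (n1 : ℝ) ≤ Gd.card + Bd.card + M := by exact_mod_cast hGc
  have hfinal : v ≤ (Gd.card : ℝ) := by
    have h1 : Cc * n1 ≤ Cc * (Gd.card + v + v) := by
      apply mul_le_mul_of_nonneg_left _ hCc0.le
      linarith
    have h2 : v * (4 * Cc + 3) ≤ v * LX := mul_le_mul_of_nonneg_left hX5 hv0
    have h3 : Cc * v ≤ Cc * Gd.card := by nlinarith
    exact le_of_mul_le_mul_left h3 hCc0
  refine le_trans ?_ hfinal
  rw [hv]
  apply div_le_div_of_nonneg_left (Nat.cast_nonneg _) (by positivity)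
  exact pow_le_pow_right₀ (by linarith) (by omega)

end Pool.Agent.Y887.QKF
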