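import Mathlib
import Pool.Agent.Y855.A2

/-!
The fundamental lemma of the sieve for arbitrary finite sets, with a level linear in the dimension.
-/

set_option autoImplicit false

open Finset

namespace Pool.Agent.Y887.QK

open Pool.Agent.W308.PL.FLW hiding blk
open Pool.Agent.Y855

/-- the fundamental lemma in dimension `κ` -/
theorem FLk : ∃ B1 : ℕ, 1 ≤ B1 ∧ ∀ κ : ℕ, 1 ≤ κ → ∀ z : ℕ, 2 ≤ z → ∀ P : Finset ℕ,
    (∀ p ∈ P, p.Prime ∧ p ≤ z) → ∀ g : ℕ → ℝ,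
    (∀ p ∈ P, 0 ≤ g p ∧ g p ≤ 1 / 2 ∧ g p ≤ κ / (p : ℝ)) →
    ∀ {Ω : Type} (S : Finset Ω) (n : Ω → ℕ) (X : ℝ), 0 ≤ X →
    |((S.filter (fun ω => ∀ p ∈ P, ¬ p ∣ n ω)).card : ℝ) - X * ∏ p ∈ P, (1 - g p)| ≤
      1 / 4 * (X * ∏ p ∈ P, (1 - g p)) + (Nat.log 2 z + 2) *
        ∑ U ∈ P.powerset.filter (fun U => ∏ p ∈ U, p ≤ z ^ (B1 * κ)),
          |((S.filter (fun ω => ∀ p ∈ U, p ∣ n ω)).card : ℝ) - X * ∏ p ∈ U, g p| := by
  obtain ⟨L1, hL1, hLb⟩ := block_bd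
  obtain ⟨δ, hδ⟩ : ∃ δ : ℝ, δ = 1 / 24 := ⟨_, rfl⟩
  obtain ⟨b1, hb1⟩ : ∃ b1 : ℕ, b1 = ⌈2 * L1 + L1 * Real.exp 1 + |Real.log δ|⌉₊ := ⟨_, rfl⟩
  have hb1K : 2 * L1 + L1 * Real.exp 1 + |Real.log δ| ≤ b1 := by
    rw [hb1]
    exact Nat.le_ceil _
  refine ⟨4 * b1 + 6, by omega, ?_⟩
  intro κ hκ z hz P hP g hg Ω S n X hX
  have hκr : (1 : ℝ) ≤ κ := by exact_mod_cast hκ
  obtain ⟨L, hL⟩ : ∃ L : ℝ, L = κ * L1 := ⟨_, rfl⟩
  have hL0 : 0 < L := by rw [hL]; positivity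
  have hδ0 : 0 < δ := by rw [hδ]; norm_num
  have hδ1 : δ ≤ 1 := by rw [hδ]; norm_num
  obtain ⟨b, hb⟩ : ∃ b : ℕ, b = κ * b1 := ⟨_, rfl⟩
  have hbK : 2 * L + L * Real.exp 1 + |Real.log δ| ≤ b := by
    rw [hb, hL]
    push_cast
    have h1 := mul_le_mul_of_nonneg_left hb1K (by linarith : (0 : ℝ) ≤ κ)
    have h2 : |Real.log δ| ≤ κ * |Real.log δ| := le_mul_of_one_le_left (abs_nonneg _) hκr
    have e : (κ : ℝ) * (2 * L1 + L1 * Real.exp 1 + |Real.log δ|) =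
      2 * (κ * L1) + κ * L1 * Real.exp 1 + κ * |Real.log δ| := by ring
    rw [e] at h1
    linarith
  set J : ℕ := Nat.log 2 z + 1 with hJ
  have hdisj : ∀ i j : Fin J, i ≠ j → Disjoint (blk P z i) (blk P z j) := by
    intro i j hij
    rcases lt_or_gt_of_ne (fun h => hij (Fin.ext h) : (i : ℕ) ≠ j) with h | h
    · exact blk_disj P (fun p hp => (hP p hp).1) z i j h
    · exact (blk_disj P (fun p hp => (hP p hp).1) z j i h).symm
  have hsub : ∀ j : Fin J, ∀ p ∈ blk P z j, p ∈ P := fun j p hp => (mem_filter.1 hp).1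
  have hLj : ∀ j : Fin J, ∑ p ∈ blk P z j, g p ≤ L := by
    intro j
    have h1 : ∑ p ∈ blk P z j, (1 : ℝ) / p ≤ L1 := by
      apply hLb _ (fun p hp => (hP p (hsub j p hp)).1)
      intro p hp q hq
      unfold blk at hp hq
      rw [mem_filter] at hp hq
      have h2 : q ^ 2 ^ (j : ℕ) < (p ^ 2) ^ 2 ^ (j : ℕ) := by
        rw [← pow_mul, ← pow_succ']
        exact lt_of_le_of_lt hq.2.1 hp.2.2
      exact lt_of_pow_lt_pow_left₀ _ (Nat.zero_le _) h2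
    calc ∑ p ∈ blk P z j, g p ≤ ∑ p ∈ blk P z j, κ * ((1 : ℝ) / p) := by
          apply sum_le_sum
          intro p hp
          have := (hg p (hsub j p hp)).2.2
          rw [mul_one_div]
          exact this
      _ = κ * ∑ p ∈ blk P z j, (1 : ℝ) / p := by rw [mul_sum]
      _ ≤ L := by rw [hL]; exact mul_le_mul_of_nonneg_left h1 (by linarith)
  have hρ : ∑ j : Fin J, Real.exp (2 * L) *
      (L ^ (2 * (b + (j : ℕ)) + 1) / ((2 * (b + (j : ℕ)) + 1).factorial : ℝ)) ≤ δ := by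
    rw [← mul_sum, Fin.sum_univ_eq_sum_range
      (fun j => L ^ (2 * (b + j) + 1) / ((2 * (b + j) + 1).factorial : ℝ))]
    have h1 := tail_sum L 1 hL0 (by norm_num) b J
    have h2 := mul_le_mul_of_nonneg_left h1 (Real.exp_pos (2 * L)).le
    refine h2.trans ?_
    rw [← Real.exp_add]
    have h3 : δ = Real.exp (Real.log δ) := (Real.exp_log hδ0).symm
    rw [h3]
    apply Real.exp_le_exp.2
    have h4 := neg_abs_le (Real.log δ)
    have h5 : (0 : ℝ) ≤ b := Nat.cast_nonneg b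
    linarith
  have h := core_count (fun j : Fin J => blk P z j) b hdisj P (blk_cover P z hP) g
    (fun j p hp => ⟨(hg p (hsub j p hp)).1, (hg p (hsub j p hp)).2.1⟩) L hLj δ hδ1 hρ S n X hX
  refine h.trans ?_
  have h6 : 6 * δ = 1 / 4 := by rw [hδ]; norm_num
  rw [h6]
  have h8 : ∑ U ∈ P.powerset.filter (fun U => ∀ j : Fin J, (U ∩ blk P z j).card ≤ 2 * (b + j) + 1),
      |((S.filter (fun ω => ∀ p ∈ U, p ∣ n ω)).card : ℝ) - X * ∏ p ∈ U, g p| ≤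
      ∑ U ∈ P.powerset.filter (fun U => ∏ p ∈ U, p ≤ z ^ ((4 * b1 + 6) * κ)),
      |((S.filter (fun ω => ∀ p ∈ U, p ∣ n ω)).card : ℝ) - X * ∏ p ∈ U, g p| := by
    apply sum_le_sum_of_subset_of_nonneg
    · intro U hU
      rw [mem_filter, mem_powerset] at hU ⊢
      refine ⟨hU.1, (level P z b hz hP U hU.1 hU.2).trans ?_⟩
      apply Nat.pow_le_pow_right (by omega)
      rw [hb]
      calc 4 * (κ * b1) + 6 ≤ 4 * (κ * b1) + 6 * κ := by omega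
        _ = _ := by ring
    · intro _ _ _
      exact abs_nonneg _
  have h9 : ((J : ℝ) + 1) = (Nat.log 2 z : ℝ) + 2 := by
    rw [hJ]; push_cast; ring
  rw [h9]
  have h10 : (0 : ℝ) ≤ (Nat.log 2 z : ℝ) + 2 := by positivity
  have h11 := mul_le_mul_of_nonneg_left h8 h10
  linarith

end Pool.Agent.Y887.QK
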