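import Mathlib
import Pool.Agent.Y887.QK.Stm
import Pool.Agent.Y887.TD.SieveB

/-!
Lower bound for the sieve product; sums of reciprocals.
-/

set_option autoImplicit false

namespace Pool.Agent.Y887.QK

open Finset Pool.Agent.H373R2.T7 Pool.Agent.Y887.TD

theorem t_V : Pool.Agent.Y887.QKS.S_V := by
  intro κ
  obtain ⟨C, N0, h⟩ := Vz_low
  refine ⟨C * (2 * κ), max N0 3, fun y hy g hg h0 => ?_⟩
  have h1 := h y ((le_max_left _ _).trans hy)
  have hy3 : 3 ≤ y := (le_max_right _ _).trans hy
  have hlog : 0 < Real.log y := Real.log_pos (by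
    have : (3 : ℝ) ≤ y := by exact_mod_cast hy3
    linarith)
  have h2 : 1 / Real.log y ^ (C * (2 * κ)) = (1 / Real.log y ^ C) ^ (2 * κ) := by
    rw [div_pow, one_pow, pow_mul]
  rw [h2]
  have hpz : Pool.Agent.Y887.QKS.pz y = pz y := by
    ext p
    rw [mem_pz]
    unfold Pool.Agent.Y887.QKS.pz
    rw [mem_filter, mem_Icc]
    constructor
    · rintro ⟨⟨-, h2⟩, h3⟩
      exact ⟨h2, h3⟩
    · rintro ⟨h2, h3⟩
      exact ⟨⟨h3.one_lt.le, h2⟩, h3⟩
  rw [hpz]
  calc (1 / Real.log y ^ C) ^ (2 * κ) ≤ (Vz y) ^ (2 * κ) :=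
        pow_le_pow_left₀ (by positivity) h1 _
    _ = ∏ p ∈ pz y, (1 - 1 / (p : ℝ)) ^ (2 * κ) := by
        unfold Vz
        rw [prod_pow]
    _ ≤ _ := by
        apply prod_le_prod
        · intro p hp
          have hp1 : (1 : ℝ) ≤ p := by exact_mod_cast (mem_pz.1 hp).2.one_lt.le
          have : 1 / (p : ℝ) ≤ 1 := by rw [div_le_one (by linarith)]; exact hp1
          exact pow_nonneg (by linarith) _
        · intro p hp
          have hpp := (mem_pz.1 hp).2
          have hp1 : (1 : ℝ) ≤ p := by exact_mod_cast hpp.one_lt.le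
          rcases Nat.lt_or_ge (2 * κ) p with hlt | hge
          · have h4 : (1 - 1 / (p : ℝ)) ^ (2 * κ) ≤ 1 - (κ : ℝ) / p :=
              one_sub_pow_le (by push_cast; ring) (Nat.cast_nonneg _) hp1 (by
                have : ((2 * κ : ℕ) : ℝ) ≤ p := by exact_mod_cast hlt.le
                push_cast at this
                exact this)
            refine h4.trans ?_
            have := (hg p hpp).2
            linarith
          · rw [h0 p hpp hge]
            have h5 : 1 / (p : ℝ) ≤ 1 := by rw [div_le_one (by linarith)]; exact hp1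
            have h6 : 0 ≤ 1 / (p : ℝ) := by positivity
            have : (1 - 1 / (p : ℝ)) ^ (2 * κ) ≤ 1 := pow_le_one₀ (by linarith) (by linarith)
            simpa using this

theorem t_rec : ∃ L : ℕ, Pool.Agent.Y887.QKS.S_rec L := by
  obtain ⟨L, hL⟩ := sum_recip
  exact ⟨L, hL⟩

end Pool.Agent.Y887.QK
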