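import Mathlib
import Pool.Agent.Y887.QK.Vlo
import Pool.Agent.Y887.QK.Cls
import Pool.Agent.Y887.QK.Flk
import Pool.Agent.Y15.T2.Sieve
import Pool.Agent.Y394.T2.Core

/-!
The sieve on modular hyperbolas (cores by helper15 and helper394).
-/

set_option autoImplicit false

namespace Pool.Agent.Y887.QKF

open Finset Pool.Agent.Y887.QKS

theorem t_cnt : S_cnt := by
  intro ℓ _ c U hU hq Ω
  exact Pool.Agent.Y887.QK.cnt_cls c U hU hq Ω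

theorem t_FL : ∃ B1 : ℕ, 1 ≤ B1 ∧ S_FL B1 := by
  obtain ⟨B1, h1, h2⟩ := Pool.Agent.Y887.QK.FLk
  exact ⟨B1, h1, h2⟩

theorem sieve_all : S_sieve :=
  Pool.Agent.Y15.T2.t_sieve t_FL Pool.Agent.Y887.QK.t_rec Pool.Agent.Y887.QK.t_V
    (fun B1 L h1 h2 Ex κ ℓ J n s R1 _ c ι _ V Ω => Pool.Agent.Y394.T2.t_core t_cnt B1 L h1 h2 Ex κ ℓ J n s R1 c ι V Ω)

end Pool.Agent.Y887.QKF
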