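import Mathlib
import Pool.Agent.Y887.QK.FnkD
import Pool.Agent.Y887.QK.Svd
import Pool.Agent.Y141.T2.CoreY
import Pool.Agent.Y590.T2.SieveY
import Pool.Agent.Y929.T2.FormD
import Pool.Agent.Y155.T2.InjD

/-!
Prescribed values of prime independent multiplicative functions at the values of all irreducible
quadratic polynomials: assembly (parts by helpers 141, 590, 929, 155).
-/

set_option autoImplicit false

namespace Pool.Agent.Y887.QKF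

open Finset Filter Pool.Agent.Y887.DK Pool.Agent.Y887.QKS

theorem t_cntY : S_cntY := by
  intro ℓ _ c Y hY U hU hq Ω
  exact Pool.Agent.Y887.QK.cnt_clsY c Y hY U hU hq Ω

theorem sieveY_all : S_sieveY :=
  Pool.Agent.Y590.T2.t_sieveY t_FL Pool.Agent.Y887.QK.t_rec Pool.Agent.Y887.QK.t_V
    (fun B1 L h1 h2 => Pool.Agent.Y141.T2.t_coreY t_cntY B1 L h1 h2)

theorem quadratic_all {Γ : Type} [CommGroup Γ] (f : ℕ → Γ) (u v : Multiset ℕ)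
    (hu : ∀ j ∈ u, 1 ≤ j) (hv : ∀ j ∈ v, 1 ≤ j) (hsum : u.sum = v.sum + 1)
    (huv : (u.map f).prod = (v.map f).prod) :
    ∃ (Φ : Γ) (K : ℕ), ∀ α β γ : ℤ, 0 < α → ¬ IsSquare (β ^ 2 - 4 * α * γ) →
      ∃ m0 : ℕ, 0 < m0 ∧ ∀ δ ∈ Submonoid.closure (f '' {j | 1 ≤ j}), ∀ M : ℕ, ∃ C : ℕ,
        ∀ᶠ X : ℕ in atTop, (X : ℝ) / Real.log X ^ K ≤
          ({n : ℕ | n ≤ X ∧ ∃ c s : ℕ, α * n ^ 2 + β * n + γ = ((m0 * (c * s) : ℕ) : ℤ) ∧
            Fm f (c * s) = Φ * δ ∧ (∀ p : ℕ, p.Prime → p ∣ c * s → M < p) ∧ c ≤ C ∧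
            Squarefree s ∧ ∀ p : ℕ, p.Prime → p ∣ s → X < p ^ K}.ncard : ℝ) :=
  quadraticD2 sieveY_all Pool.Agent.Y929.T2.t_formD Pool.Agent.Y155.T2.t_injD f u v hu hv hsum huv

end Pool.Agent.Y887.QKF
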