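import Mathlib
import Pool.Agent.Y887.QK.FnkAll
import Pool.Agent.Y887.QK.Bas

/-!
Prescribed values of prime independent multiplicative functions at `n ^ 2 - D`, with constants
independent of `D`.
-/

set_option autoImplicit false

namespace Pool.Agent.Y887.QKF

open Finset Filter Pool.Agent.Y887.DK Pool.Agent.Y887.QE
open Pool.Agent.Y887.DE (kap kap_gadget)

theorem Fm_mem {Γ : Type} [CommGroup Γ] (f : ℕ → Γ) (n : ℕ) :
    Fm f n ∈ Submonoid.closure (f '' {j | 1 ≤ j}) := by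
  unfold Fm
  apply Submonoid.prod_mem
  intro p hp
  apply Submonoid.subset_closure
  refine ⟨n.factorization p, ?_, rfl⟩
  exact ((Nat.prime_of_mem_primeFactors hp).dvd_iff_one_le_factorization (by
    rintro rfl
    simp at hp)).1 (Nat.dvd_of_mem_primeFactors hp)

theorem shiftE {Γ : Type} [CommGroup Γ] (f : ℕ → Γ) (hf0 : f 0 = 1) (u v : Multiset ℕ)
    (hu : ∀ j ∈ u, 1 ≤ j) (hv : ∀ j ∈ v, 1 ≤ j) (hsum : u.sum = v.sum + 1)
    (huv : (u.map f).prod = (v.map f).prod) :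
    ∃ (Φ : Γ) (K : ℕ), ∀ D : ℤ, ¬ IsSquare D →
      ∀ δ ∈ Submonoid.closure (f '' {j | 1 ≤ j}), ∃ C : ℕ,
        ∀ᶠ X : ℕ in atTop, (X : ℝ) / Real.log X ^ K ≤
          ({n : ℕ | n ≤ X ∧ ∃ k s : ℕ, (n : ℤ) ^ 2 - D = ((k * s : ℕ) : ℤ) ∧
            Fm f (k * s) = Φ * δ ∧ k ≤ C ∧
            Squarefree s ∧ ∀ p : ℕ, p.Prime → p ∣ s → X < p ^ K}.ncard : ℝ) := by
  classical
  obtain ⟨Lp, Lm, -, -, hrel⟩ := kap_gadget f u v hu hv hsum huv
  obtain ⟨Φ, K, hmain⟩ := mainD sieveY_all Pool.Agent.Y929.T2.t_formD Pool.Agent.Y155.T2.t_injD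
    f hf0 Lp Lm hrel
  obtain ⟨R, hR⟩ := base_point
  obtain ⟨T, hT⟩ : ∃ T : Finset (ℕ × ℕ), T = (Nat.divisors 576) ×ˢ range (R + 1) := ⟨_, rfl⟩
  obtain ⟨w, hw⟩ : ∃ w : ℕ × ℕ → Γ, ∀ x, w x = Fm f x.1 * f 1 ^ x.2 := ⟨_, fun _ => rfl⟩
  have hwm : ∀ x, w x ∈ Submonoid.closure (f '' {j | 1 ≤ j}) := by
    intro x
    rw [hw]
    refine mul_mem (Fm_mem f _) (pow_mem (Submonoid.subset_closure ?_) _)
    exact Set.mem_image_of_mem f (by simp : (1 : ℕ) ∈ {j : ℕ | 1 ≤ j})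
  refine ⟨Φ * ∏ x ∈ T, w x, K, ?_⟩
  intro D hD δ hδ
  obtain ⟨y0, d, S, hval, hd, hSs, hSR, hdS⟩ := hR D hD
  have hd0 : d ≠ 0 := by
    rintro rfl
    norm_num at hd
  obtain ⟨x0, hx0⟩ : ∃ x0 : ℕ × ℕ, x0 = (d, S.primeFactors.card) := ⟨_, rfl⟩
  have hx0T : x0 ∈ T := by
    rw [hT, hx0, mem_product]
    exact ⟨Nat.mem_divisors.2 ⟨hd, by norm_num⟩, mem_range.2 (by
      show S.primeFactors.card < R + 1
      omega)⟩
  obtain ⟨m0, hm0⟩ : ∃ m0 : ℕ, m0 = vq D (y0 + 1) * vq D y0 := ⟨_, rfl⟩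
  have hm00 : 0 < m0 := by
    rw [hm0]
    exact Nat.mul_pos (vq_pos hD _) (vq_pos hD _)
  have hFm0 : Fm f m0 = w x0 := by
    rw [hm0, hval, Fm_mul f hd0 hSs.ne_zero hdS, Fm_sqfree f hSs, hw, hx0]
  obtain ⟨P, hP⟩ : ∃ P : Γ, P = ∏ x ∈ T.erase x0, w x := ⟨_, rfl⟩
  have hPm : P ∈ Submonoid.closure (f '' {j | 1 ≤ j}) := by
    rw [hP]
    exact Submonoid.prod_mem _ fun x _ => hwm x
  have hPT : ∏ x ∈ T, w x = w x0 * P := by
    rw [hP, mul_prod_erase T w hx0T]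
  obtain ⟨ex, hex1, hex2⟩ := monoid_list f (P * δ) (mul_mem hPm hδ)
  obtain ⟨M, hM⟩ : ∃ M : ℕ, M = m0 + D.natAbs + 1 := ⟨_, rfl⟩
  obtain ⟨C, hC⟩ := hmain D hD y0 1 one_pos ex hex1 M
  refine ⟨m0 * C, hC.mono fun X hX => hX.trans ?_⟩
  refine Nat.cast_le.2 (Set.ncard_le_ncard ?_ ((Set.finite_Iic X).subset fun n hn => hn.1))
  rintro N ⟨hNX, hMN, -, c, s, hv, hcC, hss, hrough, hMp, hF⟩
  rw [← hm0] at hv
  have hvN0 : 0 < vq D N := vq_pos hD N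
  have hcs0 : c * s ≠ 0 := by
    intro h0
    rw [hv, h0] at hvN0
    simp at hvN0
  have hco : m0.Coprime (c * s) := by
    by_contra hne
    obtain ⟨p, hp, hpa, hpb⟩ := Nat.Prime.not_coprime_iff_dvd.1 hne
    have h9 := hMp p hp hpb
    have h10 := Nat.le_of_dvd hm00 hpa
    omega
  refine ⟨hNX, m0 * c, s, ?_, ?_, Nat.mul_le_mul_left _ hcC, hss, hrough⟩
  · rw [mul_assoc, ← hv]
    have hND : (D.natAbs : ℤ) + 1 ≤ N := by
      have : D.natAbs + 1 ≤ N := by omega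
      exact_mod_cast this
    rw [Int.natCast_natAbs] at hND
    have hpos : 0 < (N : ℤ) ^ 2 - D := by
      have h2 := le_abs_self D
      have h3 := abs_nonneg D
      nlinarith
    unfold vq
    rw [Int.natCast_natAbs, abs_of_pos hpos]
  · rw [mul_assoc, Fm_mul f hm00.ne' hcs0 hco, hFm0, hF, hex2, hPT]
    simp only [mul_assoc, mul_left_comm]

/-- the same without the normalisation `f 0 = 1` -/
theorem shift_all {Γ : Type} [CommGroup Γ] (f : ℕ → Γ) (u v : Multiset ℕ)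
    (hu : ∀ j ∈ u, 1 ≤ j) (hv : ∀ j ∈ v, 1 ≤ j) (hsum : u.sum = v.sum + 1)
    (huv : (u.map f).prod = (v.map f).prod) :
    ∃ (Φ : Γ) (K : ℕ), ∀ D : ℤ, ¬ IsSquare D →
      ∀ δ ∈ Submonoid.closure (f '' {j | 1 ≤ j}), ∃ C : ℕ,
        ∀ᶠ X : ℕ in atTop, (X : ℝ) / Real.log X ^ K ≤
          ({n : ℕ | n ≤ X ∧ ∃ k s : ℕ, (n : ℤ) ^ 2 - D = ((k * s : ℕ) : ℤ) ∧
            Fm f (k * s) = Φ * δ ∧ k ≤ C ∧
            Squarefree s ∧ ∀ p : ℕ, p.Prime → p ∣ s → X < p ^ K}.ncard : ℝ) := by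
  classical
  obtain ⟨f', hf'0, hf'⟩ : ∃ f' : ℕ → Γ, f' 0 = 1 ∧ ∀ k, 1 ≤ k → f' k = f k := by
    refine ⟨fun k => if k = 0 then 1 else f k, by simp, fun k hk => ?_⟩
    have : k ≠ 0 := by omega
    simp [this]
  have hp' : (u.map f').prod = (v.map f').prod := by
    rw [Multiset.map_congr rfl (fun k hk => hf' k (hu k hk)), huv,
      Multiset.map_congr rfl (fun k hk => hf' k (hv k hk))]
  have himg : f '' {j | 1 ≤ j} = f' '' {j | 1 ≤ j} := by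
    apply Set.image_congr
    intro j hj
    exact (hf' j hj).symm
  have hFm : ∀ n, Fm f n = Fm f' n := by
    intro n
    unfold Fm
    apply prod_congr rfl
    intro p hp
    rw [hf']
    exact ((Nat.prime_of_mem_primeFactors hp).dvd_iff_one_le_factorization (by
      rintro rfl
      simp at hp)).1 (Nat.dvd_of_mem_primeFactors hp)
  rw [himg]
  simp only [hFm]
  exact shiftE f' hf'0 u v hu hv hsum hp'

end Pool.Agent.Y887.QKF
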