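import Mathlib
import Pool.Agent.Y887.QK.Shf
import Pool.Agent.Y887.QK.Gen

/-!
Prescribed values of prime independent multiplicative functions at the values of all admissible
quadratic polynomials in all reduced residue classes, with absolute constants.
-/

set_option autoImplicit false

namespace Pool.Agent.Y887.QKG

open Finset Filter Pool.Agent.Y887.DK Pool.Agent.Y887.QE Pool.Agent.Y887.QKF
open Pool.Agent.Y887.DE (kap kap_gadget)

set_option maxHeartbeats 4000000 in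
theorem progE {Γ : Type} [CommGroup Γ] (f : ℕ → Γ) (hf0 : f 0 = 1) (u v : Multiset ℕ)
    (hu : ∀ j ∈ u, 1 ≤ j) (hv : ∀ j ∈ v, 1 ≤ j) (hsum : u.sum = v.sum + 1)
    (huv : (u.map f).prod = (v.map f).prod) :
    ∃ (Φ : Γ) (K : ℕ), ∀ α β γ : ℤ, 0 < α → ¬ IsSquare (β ^ 2 - 4 * α * γ) →
      (∀ p : ℕ, p.Prime → ¬ ((p : ℤ) ∣ α ∧ (p : ℤ) ∣ β ∧ (p : ℤ) ∣ γ)) →
      ¬ (2 ∣ α + β ∧ 2 ∣ γ) → ∀ (q : ℕ) (t : ℤ), 0 < q → IsCoprime (gq α β γ t) (q : ℤ) →
      ∀ δ ∈ Submonoid.closure (f '' {j | 1 ≤ j}), ∀ M : ℕ, ∃ C : ℕ,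
        ∀ᶠ X : ℕ in atTop, (X : ℝ) / Real.log X ^ K ≤
          ({n : ℕ | n ≤ X ∧ (q : ℤ) ∣ (n : ℤ) - t ∧ ∃ k s : ℕ, gq α β γ n = ((k * s : ℕ) : ℤ) ∧
            Fm f (k * s) = Φ * δ ∧ (∀ p : ℕ, p.Prime → p ∣ k * s → M < p) ∧ k ≤ C ∧
            Squarefree s ∧ ∀ p : ℕ, p.Prime → p ∣ s → X < p ^ K}.ncard : ℝ) := by
  classical
  obtain ⟨Lp, Lm, -, -, hrel⟩ := kap_gadget f u v hu hv hsum huv
  obtain ⟨Φ, K, hmain⟩ := mainD sieveY_all Pool.Agent.Y929.T2.t_formD Pool.Agent.Y155.T2.t_injD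
    f hf0 Lp Lm hrel
  obtain ⟨R, hR⟩ := base_general
  obtain ⟨w0, hw0⟩ : ∃ w0 : ℕ → Γ, ∀ x, w0 x = f 1 ^ x := ⟨_, fun _ => rfl⟩
  have hwm : ∀ x, w0 x ∈ Submonoid.closure (f '' {j | 1 ≤ j}) := by
    intro x
    rw [hw0]
    refine pow_mem (Submonoid.subset_closure ?_) _
    exact Set.mem_image_of_mem f (by simp : (1 : ℕ) ∈ {j : ℕ | 1 ≤ j})
  refine ⟨Φ * ∏ x ∈ range (R + 1), w0 x, K, ?_⟩
  intro α β γ hα hD h1 h2 q t hq hc δ hδ M
  obtain ⟨w, w1, tt, S, n', hw10, hww, hqw, htt, hnt, hval, hSs, hSR, hSM⟩ :=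
    hR α β γ hα hD h1 h2 q t hq hc M
  obtain ⟨D, hDdef⟩ : ∃ D : ℤ, D = β ^ 2 - 4 * α * γ := ⟨_, rfl⟩
  rw [← hDdef] at hD hval
  have hw1z : (0 : ℤ) < w1 := by exact_mod_cast hw10
  have hwz : (0 : ℤ) < w := by
    rw [hww]
    positivity
  have hwn : 0 < w := by exact_mod_cast hwz
  obtain ⟨D', hD'⟩ : ∃ D' : ℤ, D' = D * (w : ℤ) ^ 2 := ⟨_, rfl⟩
  rw [← hD'] at hval
  have hD'sq : ¬ IsSquare D' := by
    rintro ⟨y, hy⟩
    have h3 : (w : ℤ) ^ 2 ∣ y ^ 2 := ⟨D, by rw [sq y, ← hy, hD']; ring⟩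
    obtain ⟨z, hz⟩ := (Int.pow_dvd_pow_iff (by norm_num)).1 h3
    apply hD
    refine ⟨z, ?_⟩
    have h4 : (w : ℤ) ^ 2 * D = (w : ℤ) ^ 2 * (z * z) := by
      rw [mul_comm ((w : ℤ) ^ 2) D, ← hD', hy, hz]
      ring
    exact mul_left_cancel₀ (pow_ne_zero 2 hwz.ne') h4
  -- the constant
  have hx0T : S.primeFactors.card ∈ range (R + 1) := mem_range.2 (by omega)
  have hFS : Fm f S = w0 S.primeFactors.card := by
    rw [Fm_sqfree f hSs, hw0]
  obtain ⟨P, hP⟩ : ∃ P : Γ, P = ∏ x ∈ (range (R + 1)).erase S.primeFactors.card, w0 x := ⟨_, rfl⟩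
  have hPm : P ∈ Submonoid.closure (f '' {j | 1 ≤ j}) := by
    rw [hP]
    exact Submonoid.prod_mem _ fun x _ => hwm x
  have hPT : ∏ x ∈ range (R + 1), w0 x = w0 S.primeFactors.card * P := by
    rw [hP, mul_prod_erase _ w0 hx0T]
  obtain ⟨ex, hex1, hex2⟩ := monoid_list f (P * δ) (mul_mem hPm hδ)
  obtain ⟨M', hM'⟩ : ∃ M' : ℕ, M' = M + S + w * (β.natAbs + D.natAbs + 1) + 1 := ⟨_, rfl⟩
  obtain ⟨C, hC⟩ := hmain D' hD'sq (w * tt) (w ^ 2) (by positivity) ex hex1 M'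
  refine ⟨S * C, ?_⟩
  filter_upwards [hC, eventually_ge_atTop β.natAbs] with X hX hXβ
  refine hX.trans ?_
  obtain ⟨W, hW⟩ : ∃ W : Set ℕ, W = {n : ℕ | n ≤ X ∧ (q : ℤ) ∣ (n : ℤ) - t ∧
    ∃ k s : ℕ, gq α β γ n = ((k * s : ℕ) : ℤ) ∧
      Fm f (k * s) = Φ * (∏ x ∈ range (R + 1), w0 x) * δ ∧
      (∀ p : ℕ, p.Prime → p ∣ k * s → M < p) ∧ k ≤ S * C ∧
      Squarefree s ∧ ∀ p : ℕ, p.Prime → p ∣ s → X < p ^ K} := ⟨_, rfl⟩
  rw [← hW]
  have hWfin : W.Finite := by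
    rw [hW]
    exact (Set.finite_Iic X).subset fun n hn => hn.1
  have key : ∀ N : ℕ, N ≤ X → GoodN f D' (w * tt) (w ^ 2) M' K C X (Φ * (ex.map f).prod) N →
      ∃ n ∈ W, (N : ℤ) = w * (2 * α * n + β) := by
    intro N hNX hgood
    obtain ⟨hMN, hdvd, c, s, hv, hcC, hss, hrough, hMp, hF⟩ := hgood
    -- `N = w (tt + w j)`
    obtain ⟨j, hj⟩ : ∃ j : ℤ, (N : ℤ) = w * (tt + w * j) := by
      obtain ⟨j, hj⟩ := hdvd
      refine ⟨j + ((tt : ℤ) ^ 2 - D), ?_⟩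
      have e : (N : ℤ) = ((((w * tt : ℕ) : ℤ) ^ 2 + (w * tt : ℕ) - D')) + ((w ^ 2 : ℕ) : ℤ) * j := by
        linarith
      rw [e, hD']
      push_cast
      ring
    obtain ⟨nz, hnz⟩ : ∃ nz : ℤ, nz = n' + w1 * j := ⟨_, rfl⟩
    have hNnz : (N : ℤ) = w * (2 * α * nz + β) := by
      rw [hj, htt, hnz, hww]
      ring
    have hMN' : (w : ℤ) * (|β| + |D| + 1) + 1 ≤ N := by
      have h3 : w * (β.natAbs + D.natAbs + 1) + 1 ≤ N := by omega
      have h4 : ((w * (β.natAbs + D.natAbs + 1) + 1 : ℕ) : ℤ) ≤ N := by exact_mod_cast h3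
      push_cast at h4
      exact h4
    obtain ⟨T, hT⟩ : ∃ T : ℤ, T = 2 * α * nz + β := ⟨_, rfl⟩
    rw [← hT] at hNnz
    have hTlow : |β| + |D| + 1 ≤ T := by
      by_contra hcon
      push Not at hcon
      have h3 : (w : ℤ) * T ≤ w * (|β| + |D| + 1) := mul_le_mul_of_nonneg_left hcon.le hwz.le
      rw [hNnz] at hMN'
      linarith
    have hnz0 : 0 ≤ nz := by
      by_contra hneg
      push Not at hneg
      have h3 : 2 * α * nz < 0 := mul_neg_of_pos_of_neg (by linarith) hneg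
      have h4 := le_abs_self β
      have h5 := abs_nonneg D
      linarith
    obtain ⟨n, hn⟩ : ∃ n : ℕ, nz = (n : ℤ) := ⟨nz.toNat, (Int.toNat_of_nonneg hnz0).symm⟩
    rw [hn] at hT hnz
    refine ⟨n, ?_, by rw [hNnz, hT]⟩
    rw [hW]
    have hquad : (N : ℤ) ^ 2 - D' = 4 * α * (w : ℤ) ^ 2 * gq α β γ n := by
      rw [hNnz, hT, hD', hDdef]
      unfold gq
      ring
    have hpos : 0 < (N : ℤ) ^ 2 - D' := by
      rw [hNnz, hD']
      have h3 := le_abs_self D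
      have h4 := abs_nonneg β
      have h5 := abs_nonneg D
      have h8 : T ≤ T ^ 2 := le_self_pow₀ (by linarith) (by norm_num)
      have h6 : D < T ^ 2 := by linarith
      have h7 : 0 < (w : ℤ) ^ 2 := by positivity
      have e : ((w : ℤ) * T) ^ 2 - D * (w : ℤ) ^ 2 = (w : ℤ) ^ 2 * (T ^ 2 - D) := by ring
      rw [e]
      exact mul_pos h7 (by linarith)
    have hvN : ((vq D' N : ℕ) : ℤ) = (N : ℤ) ^ 2 - D' := by
      unfold vq
      rw [Int.natCast_natAbs, abs_of_pos hpos]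
    have hcw : (0 : ℤ) < 4 * α * (w : ℤ) ^ 2 := by positivity
    have hgval : gq α β γ n = ((S * (c * s) : ℕ) : ℤ) := by
      have h3 : (4 * α * (w : ℤ) ^ 2) * gq α β γ n =
          (4 * α * (w : ℤ) ^ 2) * ((S * (c * s) : ℕ) : ℤ) := by
        rw [← hquad, ← hvN, hv]
        push_cast
        push_cast at hval
        linear_combination ((c : ℤ) * s) * hval
      exact mul_left_cancel₀ hcw.ne' h3
    have hgpos : 0 < gq α β γ n := by
      rw [hquad] at hpos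
      by_contra hle
      push Not at hle
      have := mul_nonpos_of_nonneg_of_nonpos hcw.le hle
      linarith
    have hSne : S ≠ 0 := hSs.ne_zero
    have hcs0 : c * s ≠ 0 := by
      intro h0
      rw [hgval, h0] at hgpos
      simp at hgpos
    have hco : S.Coprime (c * s) := by
      by_contra hne
      obtain ⟨p, hp, hpa, hpb⟩ := Nat.Prime.not_coprime_iff_dvd.1 hne
      have h9 := hMp p hp hpb
      have h10 := Nat.le_of_dvd (Nat.pos_of_ne_zero hSne) hpa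
      omega
    refine ⟨?_, ?_, S * c, s, ?_, ?_, ?_, Nat.mul_le_mul_left _ hcC, hss, hrough⟩
    · have h3 : (N : ℤ) ≤ X := by exact_mod_cast hNX
      have h4 : ((β.natAbs : ℕ) : ℤ) ≤ X := by exact_mod_cast hXβ
      rw [Int.natCast_natAbs] at h4
      have h5 := neg_abs_le β
      have h6 : T ≤ X := by
        have h7 : (1 : ℤ) ≤ w := hwz
        have h8 : 0 ≤ T := by
          have := abs_nonneg β
          have := abs_nonneg D
          linarith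
        have h9 : T ≤ w * T := le_mul_of_one_le_left h8 h7
        rw [hNnz] at h3
        linarith
      have h7 : 2 * (n : ℤ) ≤ 2 * α * n := by
        have h8 : (0 : ℤ) ≤ n := Int.natCast_nonneg _
        have h9 : 0 ≤ (α - 1) * (n : ℤ) := mul_nonneg (by linarith) h8
        linarith
      have h8 : (n : ℤ) ≤ X := by linarith
      exact_mod_cast h8
    · have e : (n : ℤ) - t = (n' - t) + w1 * j := by
        rw [hnz]
        ring
      rw [e]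
      exact dvd_add hnt (hqw.mul_right _)
    · rw [mul_assoc]
      exact hgval
    · rw [mul_assoc, Fm_mul f hSne hcs0 hco, hFS, hF, hex2, hPT]
      simp only [mul_assoc, mul_left_comm]
    · intro p hp hpd
      rw [mul_assoc] at hpd
      rcases (Nat.Prime.dvd_mul hp).1 hpd with h | h
      · exact hSM p hp h
      · have := hMp p hp h
        omega
  have hex3 : ∀ N : ℕ, ∃ n : ℕ, (N ≤ X ∧
      GoodN f D' (w * tt) (w ^ 2) M' K C X (Φ * (ex.map f).prod) N) →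
      n ∈ W ∧ (N : ℤ) = w * (2 * α * n + β) := by
    intro N
    by_cases hN : N ≤ X ∧ GoodN f D' (w * tt) (w ^ 2) M' K C X (Φ * (ex.map f).prod) N
    · obtain ⟨n, h3, h4⟩ := key N hN.1 hN.2
      exact ⟨n, fun _ => ⟨h3, h4⟩⟩
    · exact ⟨0, fun h => absurd h hN⟩
  choose g hg using hex3
  refine Nat.cast_le.2 (Set.ncard_le_ncard_of_injOn g ?_ ?_ hWfin)
  · intro N hN
    exact (hg N hN).1
  · intro N hN N' hN' heq
    have h3 := (hg N hN).2
    have h4 := (hg N' hN').2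
    rw [heq] at h3
    have h5 : (N : ℤ) = N' := by rw [h3, h4]
    exact_mod_cast h5

/-- the same without the normalisation `f 0 = 1` -/
theorem prog_all {Γ : Type} [CommGroup Γ] (f : ℕ → Γ) (u v : Multiset ℕ)
    (hu : ∀ j ∈ u, 1 ≤ j) (hv : ∀ j ∈ v, 1 ≤ j) (hsum : u.sum = v.sum + 1)
    (huv : (u.map f).prod = (v.map f).prod) :
    ∃ (Φ : Γ) (K : ℕ), ∀ α β γ : ℤ, 0 < α → ¬ IsSquare (β ^ 2 - 4 * α * γ) →
      (∀ p : ℕ, p.Prime → ¬ ((p : ℤ) ∣ α ∧ (p : ℤ) ∣ β ∧ (p : ℤ) ∣ γ)) →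
      ¬ (2 ∣ α + β ∧ 2 ∣ γ) → ∀ (q : ℕ) (t : ℤ), 0 < q → IsCoprime (gq α β γ t) (q : ℤ) →
      ∀ δ ∈ Submonoid.closure (f '' {j | 1 ≤ j}), ∀ M : ℕ, ∃ C : ℕ,
        ∀ᶠ X : ℕ in atTop, (X : ℝ) / Real.log X ^ K ≤
          ({n : ℕ | n ≤ X ∧ (q : ℤ) ∣ (n : ℤ) - t ∧ ∃ k s : ℕ, gq α β γ n = ((k * s : ℕ) : ℤ) ∧
            Fm f (k * s) = Φ * δ ∧ (∀ p : ℕ, p.Prime → p ∣ k * s → M < p) ∧ k ≤ C ∧
            Squarefree s ∧ ∀ p : ℕ, p.Prime → p ∣ s → X < p ^ K}.ncard : ℝ) := by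
  classical
  obtain ⟨f', hf'0, hf'⟩ : ∃ f' : ℕ → Γ, f' 0 = 1 ∧ ∀ k, 1 ≤ k → f' k = f k := by
    refine ⟨fun k => if k = 0 then 1 else f k, by simp, fun k hk => ?_⟩
    have : k ≠ 0 := by omega
    simp [this]
  have hp' : (u.map f').prod = (v.map f').prod := by
    rw [Multiset.map_congr rfl (fun k hk => hf' k (hu k hk)), huv,
      Multiset.map_congr rfl (fun k hk => hf' k (hv k hk))]
  have himg : f '' {j | 1 ≤ j} = f' '' {j | 1 ≤ j} := by
    apply Set.image_congr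
    intro j hj
    exact (hf' j hj).symm
  have hFm : ∀ n, Fm f n = Fm f' n := by
    intro n
    unfold Fm
    apply prod_congr rfl
    intro p hp
    rw [hf']
    exact ((Nat.prime_of_mem_primeFactors hp).dvd_iff_one_le_factorization (by
      rintro rfl
      simp at hp)).1 (Nat.dvd_of_mem_primeFactors hp)
  rw [himg]
  simp only [hFm]
  exact progE f' hf'0 u v hu hv hsum hp'

end Pool.Agent.Y887.QKG
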