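import Mathlib
import Pool.Agent.Y887.QK.GenF

/-!
The cases `ω` and `τ` of the theorem on exact values in progressions.
-/

set_option autoImplicit false

namespace Pool.Agent.Y887.QKG

open Filter Pool.Agent.Y887.DK

theorem F_omega (n : ℕ) : Fm (fun _ => Multiplicative.ofAdd (1 : ℤ)) n
    = Multiplicative.ofAdd (n.primeFactors.card : ℤ) := by
  unfold Fm
  rw [Finset.prod_const, ← ofAdd_nsmul]
  simp

theorem F_tau (n : ℕ) (hn : n ≠ 0) :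
    ((Fm (fun e => Units.mk0 ((e : ℚ) + 1) (by positivity)) n : ℚˣ) : ℚ) = (n.divisors.card : ℚ) := by
  unfold Fm
  rw [Nat.card_divisors hn]
  push_cast
  rfl

theorem log_mono {X K K' : ℕ} (hX : 3 ≤ X) (hK : K ≤ K') :
    (X : ℝ) / Real.log X ^ K' ≤ (X : ℝ) / Real.log X ^ K := by
  have h1 : (1 : ℝ) ≤ Real.log X := by
    rw [Real.le_log_iff_exp_le (by positivity)]
    have h2 : Real.exp 1 < 2.7182818286 := Real.exp_one_lt_d9
    have h3 : (3 : ℝ) ≤ X := by exact_mod_cast hX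
    linarith
  exact div_le_div_of_nonneg_left (Nat.cast_nonneg _) (by positivity) (pow_le_pow_right₀ h1 hK)

/-- admissible polynomials -/
def AdmP (α β γ : ℤ) : Prop := 0 < α ∧ ¬ IsSquare (β ^ 2 - 4 * α * γ) ∧
  (∀ p : ℕ, p.Prime → ¬ ((p : ℤ) ∣ α ∧ (p : ℤ) ∣ β ∧ (p : ℤ) ∣ γ)) ∧ ¬ (2 ∣ α + β ∧ 2 ∣ γ)

theorem gq_ne_zero {α β γ : ℤ} (hD : ¬ IsSquare (β ^ 2 - 4 * α * γ)) (n : ℤ) :
    gq α β γ n ≠ 0 := by
  intro h
  unfold gq at h
  exact hD ⟨2 * α * n + β, by linear_combination (-(4 * α)) * h⟩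

theorem omega_values : ∃ K r₀ : ℕ, ∀ α β γ : ℤ, AdmP α β γ → ∀ (q : ℕ) (t : ℤ), 0 < q →
    IsCoprime (gq α β γ t) (q : ℤ) → ∀ M r : ℕ, r₀ ≤ r → ∀ᶠ X : ℕ in atTop,
    (X : ℝ) / Real.log X ^ K ≤
      ({n : ℕ | n ≤ X ∧ (q : ℤ) ∣ (n : ℤ) - t ∧
        (∀ p : ℕ, p.Prime → (p : ℤ) ∣ gq α β γ n → M < p) ∧
        (gq α β γ n).natAbs.primeFactors.card = r}.ncard : ℝ) := by
  obtain ⟨Φ, K, h⟩ := prog_all (fun _ => Multiplicative.ofAdd (1 : ℤ)) {2} {1} (by simp) (by simp)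
    (by simp) (by simp)
  refine ⟨K, (Multiplicative.toAdd Φ).toNat, fun α β γ ha q t hq hc M r hr => ?_⟩
  obtain ⟨k, hk⟩ : ∃ k : ℕ, (r : ℤ) = Multiplicative.toAdd Φ + k := by
    refine ⟨((r : ℤ) - Multiplicative.toAdd Φ).toNat, ?_⟩
    have h2 : ((Multiplicative.toAdd Φ).toNat : ℤ) ≤ r := by exact_mod_cast hr
    have h3 := Int.self_le_toNat (Multiplicative.toAdd Φ)
    rw [Int.toNat_of_nonneg (by linarith)]
    ring
  have hδ : Multiplicative.ofAdd (k : ℤ) ∈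
      Submonoid.closure ((fun _ : ℕ => Multiplicative.ofAdd (1 : ℤ)) '' {j | 1 ≤ j}) := by
    have h4 : Multiplicative.ofAdd (k : ℤ) = (Multiplicative.ofAdd (1 : ℤ)) ^ k := by
      rw [← ofAdd_nsmul]
      simp
    rw [h4]
    refine pow_mem (Submonoid.subset_closure ?_) k
    exact Set.mem_image_of_mem _ (by simp : (1 : ℕ) ∈ {j : ℕ | 1 ≤ j})
  obtain ⟨C, h2⟩ := h α β γ ha.1 ha.2.1 ha.2.2.1 ha.2.2.2 q t hq hc _ hδ M
  refine h2.mono fun X hX => hX.trans ?_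
  refine Nat.cast_le.2 (Set.ncard_le_ncard ?_ ((Set.finite_Iic X).subset fun n hn => hn.1))
  rintro n ⟨hn, hnt, c, s, h3, h4, h5, -⟩
  refine ⟨hn, hnt, ?_, ?_⟩
  · intro p hp hpd
    rw [h3] at hpd
    exact h5 p hp (by exact_mod_cast hpd)
  · rw [h3, Int.natAbs_natCast]
    rw [F_omega] at h4
    have h5 := congrArg Multiplicative.toAdd h4
    simp only [toAdd_ofAdd, toAdd_mul] at h5
    rw [← hk] at h5
    exact_mod_cast h5

theorem tau_values : ∃ K d₀ : ℕ, 0 < d₀ ∧ ∀ α β γ : ℤ, AdmP α β γ → ∀ (q : ℕ) (t : ℤ), 0 < q →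
    IsCoprime (gq α β γ t) (q : ℤ) → ∀ M b : ℕ, 1 ≤ b → ∀ᶠ X : ℕ in atTop,
    (X : ℝ) / Real.log X ^ K ≤
      ({n : ℕ | n ≤ X ∧ (q : ℤ) ∣ (n : ℤ) - t ∧
        (∀ p : ℕ, p.Prime → (p : ℤ) ∣ gq α β γ n → M < p) ∧
        (gq α β γ n).natAbs.divisors.card = d₀ * b}.ncard : ℝ) := by
  obtain ⟨Φ, K, h⟩ := prog_all (fun e => Units.mk0 ((e : ℚ) + 1) (by positivity)) {3} {1, 1}
    (by simp) (by simp) (by simp) (by
      apply Units.ext
      simp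
      norm_num)
  have hcl : ∀ b : ℕ, 1 ≤ b → ∃ hb : (b : ℚ) ≠ 0, Units.mk0 (b : ℚ) hb ∈
      Submonoid.closure ((fun e : ℕ => Units.mk0 ((e : ℚ) + 1) (by positivity)) '' {j | 1 ≤ j}) := by
    intro b hb
    have hb0 : (b : ℚ) ≠ 0 := by
      have : b ≠ 0 := by omega
      exact_mod_cast this
    refine ⟨hb0, ?_⟩
    rcases Nat.eq_or_lt_of_le hb with rfl | hb1
    · have : Units.mk0 ((1 : ℕ) : ℚ) hb0 = 1 := by
        apply Units.ext
        simp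
      rw [this]
      exact one_mem _
    · apply Submonoid.subset_closure
      refine ⟨b - 1, (by omega : 1 ≤ b - 1), ?_⟩
      apply Units.ext
      simp only [Units.val_mk0]
      have : ((b - 1 : ℕ) : ℚ) + 1 = b := by
        rw [Nat.cast_sub (by omega)]
        simp
      exact this
  have key : ∀ α β γ : ℤ, AdmP α β γ → ∀ (q : ℕ) (t : ℤ), 0 < q →
      IsCoprime (gq α β γ t) (q : ℤ) → ∀ M b : ℕ, 1 ≤ b → ∀ᶠ X : ℕ in atTop,
      (X : ℝ) / Real.log X ^ K ≤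
      ({n : ℕ | n ≤ X ∧ ((q : ℤ) ∣ (n : ℤ) - t ∧
        (∀ p : ℕ, p.Prime → (p : ℤ) ∣ gq α β γ n → M < p)) ∧
        ((gq α β γ n).natAbs.divisors.card : ℚ) = (Φ : ℚ) * b ∧
        (gq α β γ n).natAbs ≠ 0}.ncard : ℝ) := by
    intro α β γ ha q t hq hc M b hb
    obtain ⟨hb0, hmem⟩ := hcl b hb
    obtain ⟨C, h2⟩ := h α β γ ha.1 ha.2.1 ha.2.2.1 ha.2.2.2 q t hq hc _ hmem M
    refine h2.mono fun X hX => hX.trans ?_
    refine Nat.cast_le.2 (Set.ncard_le_ncard ?_ ((Set.finite_Iic X).subset fun n hn => hn.1))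
    rintro n ⟨hn, hnt, c, s, h3, h4, h5, -⟩
    have hne : c * s ≠ 0 := by
      intro h0
      rw [h0] at h3
      exact gq_ne_zero ha.2.1 n (by simpa using h3)
    refine ⟨hn, ⟨hnt, ?_⟩, ?_, ?_⟩
    · intro p hp hpd
      rw [h3] at hpd
      exact h5 p hp (by exact_mod_cast hpd)
    · rw [h3, Int.natAbs_natCast, ← F_tau _ hne, h4]
      push_cast
      simp only [Units.val_mk0]
    · rw [h3, Int.natAbs_natCast]
      exact hne
  -- the basic number of divisors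
  obtain ⟨d₀, hd, hd0⟩ : ∃ d₀ : ℕ, 0 < d₀ ∧ (d₀ : ℚ) = (Φ : ℚ) := by
    have h1 : AdmP 1 0 1 := by
      refine ⟨one_pos, ?_, ?_, ?_⟩
      · rintro ⟨x, hx⟩
        nlinarith [mul_self_nonneg x]
      · rintro p hp ⟨h2, -, -⟩
        have h3 : p ∣ 1 := by exact_mod_cast h2
        exact hp.one_lt.ne' (Nat.dvd_one.1 h3)
      · rintro ⟨-, h2⟩
        norm_num at h2
    obtain ⟨X, h2, h3⟩ := ((key 1 0 1 h1 1 0 one_pos
      (by rw [Nat.cast_one]; exact isCoprime_one_right) 0 1 le_rfl).and (eventually_ge_atTop 3)).exists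
    have h4 : (0 : ℝ) < (X : ℝ) / Real.log X ^ K := by
      have h5 : (3 : ℝ) ≤ X := by exact_mod_cast h3
      have h6 : 0 < Real.log X := Real.log_pos (by linarith)
      positivity
    have h5 := h4.trans_le h2
    have h6 := Nat.cast_pos.1 h5
    obtain ⟨n, -, -, h7, h8⟩ := Set.nonempty_of_ncard_ne_zero h6.ne'
    refine ⟨_, Finset.card_pos.2 ⟨1, Nat.one_mem_divisors.2 h8⟩, ?_⟩
    rw [h7]
    simp
  refine ⟨K, d₀, hd, fun α β γ ha q t hq hc M b hb => ?_⟩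
  refine (key α β γ ha q t hq hc M b hb).mono fun X hX => hX.trans ?_
  refine Nat.cast_le.2 (Set.ncard_le_ncard ?_ ((Set.finite_Iic X).subset fun n hn => hn.1))
  rintro n ⟨hn, ⟨hnt, hnM⟩, h3, -⟩
  refine ⟨hn, hnt, hnM, ?_⟩
  rw [← hd0] at h3
  exact_mod_cast h3

/-- the number of prime factors and the number of divisors, with common constants -/
theorem omega_tau : ∃ K r₀ d₀ : ℕ, 0 < d₀ ∧ ∀ α β γ : ℤ, AdmP α β γ → ∀ (q : ℕ) (t : ℤ), 0 < q →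
    IsCoprime (gq α β γ t) (q : ℤ) → ∀ M r b : ℕ, r₀ ≤ r → 1 ≤ b → ∀ᶠ X : ℕ in atTop,
    (X : ℝ) / Real.log X ^ K ≤
      ({n : ℕ | n ≤ X ∧ (n : ℤ) ≡ t [ZMOD q] ∧
        (∀ p : ℕ, p.Prime → (p : ℤ) ∣ gq α β γ n → M < p) ∧
        (gq α β γ n).natAbs.primeFactors.card = r}.ncard : ℝ) ∧
    (X : ℝ) / Real.log X ^ K ≤
      ({n : ℕ | n ≤ X ∧ (n : ℤ) ≡ t [ZMOD q] ∧
        (∀ p : ℕ, p.Prime → (p : ℤ) ∣ gq α β γ n → M < p) ∧
        (gq α β γ n).natAbs.divisors.card = d₀ * b}.ncard : ℝ) := by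
  obtain ⟨K, r₀, h1⟩ := omega_values
  obtain ⟨K', d₀, hd, h2⟩ := tau_values
  have hmod : ∀ (q : ℕ) (t n : ℤ), (q : ℤ) ∣ n - t ↔ n ≡ t [ZMOD q] := by
    intro q t n
    rw [Int.modEq_comm, Int.modEq_iff_dvd]
  refine ⟨max K K', r₀, d₀, hd, fun α β γ ha q t hq hc M r b hr hb => ?_⟩
  filter_upwards [h1 α β γ ha q t hq hc M r hr, h2 α β γ ha q t hq hc M b hb,
    eventually_ge_atTop 3] with X h3 h4 h5
  simp only [hmod] at h3 h4
  exact ⟨(log_mono h5 (le_max_left K K')).trans h3, (log_mono h5 (le_max_right K K')).trans h4⟩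

end Pool.Agent.Y887.QKG
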