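import Mathlib
import Pool.Agent.Y887.QK.GenR

/-!
Special admissible polynomials.
-/

set_option autoImplicit false

namespace Pool.Agent.Y887.QKG

theorem admP_shift {a : ℤ} (ha : ¬ IsSquare (-a)) : AdmP 1 0 a := by
  refine ⟨one_pos, ?_, ?_, ?_⟩
  · rintro ⟨x, hx⟩
    have h2 : (2 : ℤ) ∣ x := by
      have h3 : (2 : ℤ) ∣ x * x := ⟨-2 * a, by linarith⟩
      rcases Int.prime_two.dvd_or_dvd h3 with h | h <;> exact h
    obtain ⟨y, rfl⟩ := h2
    exact ha ⟨y, by linarith⟩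
  · rintro p hp ⟨h2, -, -⟩
    have h3 : p ∣ 1 := by exact_mod_cast h2
    exact hp.one_lt.ne' (Nat.dvd_one.1 h3)
  · rintro ⟨h1, -⟩
    norm_num at h1

theorem not_sq_neg' {x : ℤ} (hx : x < 0) : ¬ IsSquare x := by
  rintro ⟨y, hy⟩
  nlinarith [mul_self_nonneg y]

theorem not_sq_between {x : ℤ} (y : ℕ) (h1 : (y : ℤ) * y < x) (h2 : x < (y + 1) * (y + 1)) :
    ¬ IsSquare x := by
  rintro ⟨z, hz⟩
  have h3 : |z| * |z| = x := by rw [← abs_mul, ← hz, abs_of_pos (by nlinarith)]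
  have h4 := abs_nonneg z
  have h5 : (y : ℤ) < |z| := by
    by_contra hle
    push Not at hle
    nlinarith
  have h6 : |z| < (y : ℤ) + 1 := by
    by_contra hle
    push Not at hle
    nlinarith [Int.natCast_nonneg y]
  linarith

/-- `3 k² + 3 k + 1` -/
theorem admP_cuban : AdmP 3 3 1 := by
  refine ⟨by norm_num, not_sq_neg' (by norm_num), ?_, ?_⟩
  · rintro p hp ⟨-, -, h2⟩
    have h3 : p ∣ 1 := by exact_mod_cast h2
    exact hp.one_lt.ne' (Nat.dvd_one.1 h3)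
  · rintro ⟨-, h1⟩
    norm_num at h1

/-- `k² + 3 k + 1` -/
theorem admP_five : AdmP 1 3 1 := by
  refine ⟨by norm_num, not_sq_between 2 (by norm_num) (by norm_num), ?_, ?_⟩
  · rintro p hp ⟨-, -, h2⟩
    have h3 : p ∣ 1 := by exact_mod_cast h2
    exact hp.one_lt.ne' (Nat.dvd_one.1 h3)
  · rintro ⟨-, h1⟩
    norm_num at h1

/-- `n² - 2` -/
theorem admP_two : AdmP 1 0 (-2) := by
  apply admP_shift
  exact not_sq_between 1 (by norm_num) (by norm_num)

/-- `(2 q n)² + 1` -/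
theorem admP_A {q : ℤ} (hq : 0 < q) : AdmP (4 * q ^ 2) 0 1 := by
  refine ⟨by positivity, not_sq_neg' ?_, ?_, ?_⟩
  · have : 0 < q ^ 2 := by positivity
    linarith
  · rintro p hp ⟨-, -, h2⟩
    have h3 : p ∣ 1 := by exact_mod_cast h2
    exact hp.one_lt.ne' (Nat.dvd_one.1 h3)
  · rintro ⟨-, h1⟩
    norm_num at h1

/-- `((2 n + 1) q)² + 4` -/
theorem admP_B {q : ℤ} (hq : 0 < q) (hodd : Odd q) : AdmP (4 * q ^ 2) (4 * q ^ 2) (q ^ 2 + 4) := by
  refine ⟨by positivity, not_sq_neg' ?_, ?_, ?_⟩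
  · have h1 : 0 < q ^ 2 := by positivity
    have e : (4 * q ^ 2) ^ 2 - 4 * (4 * q ^ 2) * (q ^ 2 + 4) = -(64 * q ^ 2) := by ring
    rw [e]
    linarith
  · rintro p hp ⟨h1, -, h2⟩
    have hp2 : ¬ (p : ℤ) ∣ 2 := by
      intro h
      have h3 : p ∣ 2 := by exact_mod_cast h
      have h4 : p = 2 := (Nat.prime_dvd_prime_iff_eq hp Nat.prime_two).1 h3
      subst h4
      obtain ⟨k, hk⟩ := hodd
      obtain ⟨j, hj⟩ := h2
      rw [hk] at hj
      push_cast at hj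
      have e : (2 : ℤ) * (j - 2 * k ^ 2 - 2 * k - 2) = 1 := by linear_combination -hj
      have := Int.isUnit_iff.1 (IsUnit.of_mul_eq_one _ e)
      omega
    have hpZ : Prime (p : ℤ) := Nat.prime_iff_prime_int.1 hp
    have h4 : (p : ℤ) ∣ q ^ 2 := by
      have e : 4 * q ^ 2 = 2 * (2 * q ^ 2) := by ring
      rw [e] at h1
      rcases hpZ.dvd_or_dvd h1 with h | h
      · exact absurd h hp2
      · rcases hpZ.dvd_or_dvd h with h | h
        · exact absurd h hp2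
        · exact h
    have h5 : (p : ℤ) ∣ 4 := (dvd_add_right h4).1 h2
    have e : (4 : ℤ) = 2 * 2 := by norm_num
    rw [e] at h5
    rcases hpZ.dvd_or_dvd h5 with h | h <;> exact hp2 h
  · rintro ⟨-, h1⟩
    obtain ⟨k, hk⟩ := hodd
    obtain ⟨j, hj⟩ := h1
    rw [hk] at hj
    have e : (2 : ℤ) * (j - 2 * k ^ 2 - 2 * k - 2) = 1 := by linear_combination -hj
    have := Int.isUnit_iff.1 (IsUnit.of_mul_eq_one _ e)
    omega

end Pool.Agent.Y887.QKG
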